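import Pool.Agent.Y493.Dupin.Defs

open scoped ContDiff InnerProductSpace Topology
open Set Filter

namespace Pool.Agent.Y493.Dupin

section
variable {L : Type*} [AddCommGroup L] [Module ℝ L] (B : L →ₗ[ℝ] L →ₗ[ℝ] ℝ)

/-- Coordinates of a vector with respect to an orthonormal frame `e`. -/
noncomputable def stB {q : ℕ} (e : E q →ₗ[ℝ] L) : L →ₗ[ℝ] E q :=
  (WithLp.linearEquiv 2 ℝ (Fin q → ℝ)).symm.toLinearMap ∘ₗ
    LinearMap.pi (fun i => B.flip (e (EuclideanSpace.single i 1)))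

theorem stB_inner {q : ℕ} (e : E q →ₗ[ℝ] L) (y : L) (w : E q) :
    ⟪stB B e y, w⟫_ℝ = B y (e w) := by
  have hw : w = ∑ i, w i • EuclideanSpace.single i (1 : ℝ) := by
    ext j
    simp [Finset.sum_apply, Pi.single_apply]
  have h2 : B y (e w) = ∑ i, w i * B y (e (EuclideanSpace.single i 1)) := by
    conv_lhs => rw [hw]
    simp [map_sum]
  rw [h2]
  simp only [stB, PiLp.inner_apply, LinearMap.comp_apply]
  apply Finset.sum_congr rfl
  intro i _
  simp [LinearMap.flip_apply]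

theorem stB_eq {q : ℕ} (e : E q →ₗ[ℝ] L) (y : L) (w : E q) (h : ∀ w', B y (e w') = ⟪w, w'⟫_ℝ) :
    stB B e y = w := by
  apply ext_inner_right ℝ
  intro w'
  rw [stB_inner, h]

/-- `√(1 + τ |w|²)` -/
noncomputable def rr {q : ℕ} (τ : ℝ) (w : E q) : ℝ := √(1 + τ * ‖w‖ ^ 2)

noncomputable def al {q : ℕ} (τ : ℝ) (w : E q) : ℝ := ‖w‖ ^ 2 / (1 + rr τ w)

theorem al_rr_unique {q : ℕ} {τ α : ℝ} {w : E q} (h : α ^ 2 * τ + 2 * α = ‖w‖ ^ 2)
    (hr : 0 < 1 + τ * α) : al τ w = α ∧ rr τ w = 1 + τ * α := by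
  have h1 : rr τ w = 1 + τ * α := by
    rw [rr, Real.sqrt_eq_iff_mul_self_eq_of_pos hr, ← h]; ring
  refine ⟨?_, h1⟩
  rw [al, h1, ← h, div_eq_iff (by linarith)]
  ring

theorem exists_tA {q : ℕ} (hB : ∀ v w, B v w = B w v) (e : E q →ₗ[ℝ] L) (K N t : L)
    (he : ∀ w w', B (e w) (e w') = ⟪w, w'⟫_ℝ) (hK : B K K = 0) (hKe : ∀ w, B (e w) K = 0)
    (hte : ∀ w, B (e w) t = 0) (htK : B K t = -1) (htN : B N t = -1) (hNK : B N K ≠ 0) :
    ∃ tA : L, B tA K = -1 ∧ (∀ w, B (e w) tA = 0) ∧ B tA t = B tA tA ∧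
      ∀ y, B K y = 0 → B N y = 0 → (∀ w, B (e w) y = 0) → B tA y = 0 := by
  set n := stB B e N with hn
  set N' := N - e n with hN'
  have h1 : ∀ w, B (e w) N' = 0 := by
    intro w
    rw [hN', map_sub, he, hB (e w) N, ← stB_inner, ← hn, real_inner_comm, sub_self]
  have h2 : B N' K = B N K := by
    rw [hN', map_sub, LinearMap.sub_apply, hKe, sub_zero]
  have h3 : B N' t = -1 := by
    rw [hN', map_sub, LinearMap.sub_apply, hte, sub_zero, htN]
  set β := B N K with hβ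
  set x : ℝ := -1 / β with hx
  set c : ℝ := (-1 - x * B N' N') / β with hc
  have hxβ : x * β = -1 := by rw [hx]; field_simp
  have hcβ : c * β = -1 - x * B N' N' := by rw [hc]; field_simp
  refine ⟨x • N' + c • K, ?_, ?_, ?_, ?_⟩
  · simp only [map_add, map_smul, LinearMap.add_apply, LinearMap.smul_apply, smul_eq_mul, h2, hK,
      mul_zero, add_zero, hxβ]
  · intro w
    simp only [map_add, map_smul, h1, hKe, smul_eq_mul, mul_zero, add_zero]
  · have h2' : B K N' = β := by rw [hB, h2]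
    simp only [map_add, map_smul, LinearMap.add_apply, LinearMap.smul_apply, smul_eq_mul, h2, hK,
      h2', h3, htK]
    linear_combination (-c) * hxβ - x * hcβ
  · intro y hy1 hy2 hy3
    have : B N' y = 0 := by rw [hN', map_sub, LinearMap.sub_apply, hy2, hy3, sub_zero]
    simp only [map_add, map_smul, LinearMap.add_apply, LinearMap.smul_apply, smul_eq_mul, this, hy1,
      mul_zero, add_zero]

/-- Gram data of a frame `(tA, K1, e, tB, K2, f)`. -/
structure Frame (p q : ℕ) (t tA K1 : L) (e : E q →ₗ[ℝ] L) (tB K2 : L) (f : E p →ₗ[ℝ] L)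
    (τ σ : ℝ) : Prop where
  symm : ∀ v w, B v w = B w v
  nondeg : ∀ v, (∀ w, B v w = 0) → v = 0
  fin : FiniteDimensional ℝ L
  dim : Module.finrank ℝ L = p + q + 4
  ht : t = tA + tB
  AA : B tA tA = τ
  AK : B tA K1 = -1
  KK : B K1 K1 = 0
  Ae : ∀ w, B (e w) tA = 0
  Ke : ∀ w, B (e w) K1 = 0
  ee : ∀ w w', B (e w) (e w') = ⟪w, w'⟫_ℝ
  BB : B tB tB = σ
  BK2 : B tB K2 = -1
  KK2 : B K2 K2 = 0
  Bf : ∀ w, B (f w) tB = 0
  K2f : ∀ w, B (f w) K2 = 0
  ff : ∀ w w', B (f w) (f w') = ⟪w, w'⟫_ℝ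
  AB : B tA tB = 0
  AK2 : B tA K2 = 0
  Af : ∀ w, B (f w) tA = 0
  KB : B K1 tB = 0
  KK12 : B K1 K2 = 0
  Kf : ∀ w, B (f w) K1 = 0
  eB : ∀ w, B (e w) tB = 0
  eK2 : ∀ w, B (e w) K2 = 0
  ef : ∀ w z, B (e w) (f z) = 0

variable {B}

theorem Frame.swap {p q : ℕ} {t tA K1 : L} {e : E q →ₗ[ℝ] L} {tB K2 : L} {f : E p →ₗ[ℝ] L}
    {τ σ : ℝ} (h : Frame B p q t tA K1 e tB K2 f τ σ) : Frame B q p t tB K2 f tA K1 e σ τ where
  symm := h.symm
  nondeg := h.nondeg
  fin := h.fin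
  dim := by rw [h.dim]; ring
  ht := by rw [h.ht, add_comm]
  AA := h.BB
  AK := h.BK2
  KK := h.KK2
  Ae := h.Bf
  Ke := h.K2f
  ee := h.ff
  BB := h.AA
  BK2 := h.AK
  KK2 := h.KK
  Bf := h.Ae
  K2f := h.Ke
  ff := h.ee
  AB := by rw [h.symm, h.AB]
  AK2 := by rw [h.symm, h.KB]
  Af := h.eB
  KB := by rw [h.symm, h.AK2]
  KK12 := by rw [h.symm, h.KK12]
  Kf := h.eK2
  eB := h.Af
  eK2 := h.Kf
  ef := fun w z => by rw [h.symm, h.ef]

theorem Frame.sum {p q : ℕ} {t tA K1 : L} {e : E q →ₗ[ℝ] L} {tB K2 : L} {f : E p →ₗ[ℝ] L}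
    {τ σ : ℝ} (h : Frame B p q t tA K1 e tB K2 f τ σ) (h1 : B t t = -1) : τ + σ = -1 := by
  have h2 : B tB tA = 0 := by rw [h.symm, h.AB]
  rw [h.ht] at h1
  simp only [map_add, LinearMap.add_apply, h.AA, h.BB, h.AB, h2] at h1
  linarith

/-- The frame map. -/
noncomputable def frameMap {p q : ℕ} (tA K1 : L) (e : E q →ₗ[ℝ] L) (tB K2 : L)
    (f : E p →ₗ[ℝ] L) : (ℝ × ℝ × E q) × (ℝ × ℝ × E p) →ₗ[ℝ] L :=
  LinearMap.coprod
    (LinearMap.coprod (LinearMap.toSpanSingleton ℝ L tA)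
      (LinearMap.coprod (LinearMap.toSpanSingleton ℝ L K1) e))
    (LinearMap.coprod (LinearMap.toSpanSingleton ℝ L tB)
      (LinearMap.coprod (LinearMap.toSpanSingleton ℝ L K2) f))

theorem frameMap_apply {p q : ℕ} (tA K1 : L) (e : E q →ₗ[ℝ] L) (tB K2 : L)
    (f : E p →ₗ[ℝ] L) (v : (ℝ × ℝ × E q) × (ℝ × ℝ × E p)) :
    frameMap tA K1 e tB K2 f v = (v.1.1 • tA + (v.1.2.1 • K1 + e v.1.2.2)) +
      (v.2.1 • tB + (v.2.2.1 • K2 + f v.2.2.2)) := by
  simp [frameMap]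

section
variable {p q : ℕ} {t tA K1 : L} {e : E q →ₗ[ℝ] L} {tB K2 : L} {f : E p →ₗ[ℝ] L}
    {τ σ : ℝ}

theorem Frame.surj (h : Frame B p q t tA K1 e tB K2 f τ σ) :
    Function.Surjective (frameMap tA K1 e tB K2 f) := by
  have := h.fin
  have hinj : Function.Injective (frameMap tA K1 e tB K2 f) := by
    rw [injective_iff_map_eq_zero]
    rintro ⟨⟨α, r, w⟩, ⟨α', r', z⟩⟩ hv
    rw [frameMap_apply] at hv
    simp only at hv
    have c1 := congrArg (fun y => B y K1) hv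
    have c2 := congrArg (fun y => B y tA) hv
    have c3 := congrArg (fun y => B y K2) hv
    have c4 := congrArg (fun y => B y tB) hv
    have c5 := fun w' => congrArg (fun y => B y (e w')) hv
    have c6 := fun w' => congrArg (fun y => B y (f w')) hv
    have s1 : B K1 tA = -1 := by rw [h.symm, h.AK]
    have s2 : B K2 tB = -1 := by rw [h.symm, h.BK2]
    have s3 : B tB tA = 0 := by rw [h.symm, h.AB]
    have s4 : B K2 tA = 0 := by rw [h.symm, h.AK2]
    have s5 : B tB K1 = 0 := by rw [h.symm, h.KB]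
    have s6 : B K2 K1 = 0 := by rw [h.symm, h.KK12]
    have s7 : ∀ w, B tA (e w) = 0 := fun w => by rw [h.symm, h.Ae]
    have s8 : ∀ w, B K1 (e w) = 0 := fun w => by rw [h.symm, h.Ke]
    have s9 : ∀ w, B tB (e w) = 0 := fun w => by rw [h.symm, h.eB]
    have s10 : ∀ w, B K2 (e w) = 0 := fun w => by rw [h.symm, h.eK2]
    have s11 : ∀ w, B tA (f w) = 0 := fun w => by rw [h.symm, h.Af]
    have s12 : ∀ w, B K1 (f w) = 0 := fun w => by rw [h.symm, h.Kf]
    have s13 : ∀ w, B tB (f w) = 0 := fun w => by rw [h.symm, h.Bf]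
    have s14 : ∀ w, B K2 (f w) = 0 := fun w => by rw [h.symm, h.K2f]
    have s15 : ∀ w z, B (f z) (e w) = 0 := fun w z => by rw [h.symm, h.ef]
    simp only [map_add, map_smul, LinearMap.add_apply, LinearMap.smul_apply, smul_eq_mul, map_zero,
      LinearMap.zero_apply, h.AA, h.AK, h.KK, h.Ae, h.Ke, h.ee, h.BB, h.BK2, h.KK2, h.Bf, h.K2f,
      h.ff, h.AB, h.AK2, h.Af, h.KB, h.KK12, h.Kf, h.eB, h.eK2, h.ef, s1, s2, s3, s4, s5, s6, s7,
      s8, s9, s10, s11, s12, s13, s14, s15, mul_zero, add_zero, zero_add] at c1 c2 c3 c4 c5 c6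
    have a1 : α = 0 := by linarith
    have a3 : α' = 0 := by linarith
    have a2 : r = 0 := by rw [a1] at c2; linarith
    have a4 : r' = 0 := by rw [a3] at c4; linarith
    have a5 : w = 0 := by
      have := c5 w
      rwa [real_inner_self_eq_norm_sq, sq_eq_zero_iff, norm_eq_zero] at this
    have a6 : z = 0 := by
      have := c6 z
      rwa [real_inner_self_eq_norm_sq, sq_eq_zero_iff, norm_eq_zero] at this
    rw [a1, a2, a3, a4, a5, a6]; rfl
  have hd : Module.finrank ℝ ((ℝ × ℝ × E q) × (ℝ × ℝ × E p)) = Module.finrank ℝ L := by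
    rw [h.dim]
    simp only [Module.finrank_prod, Module.finrank_self, finrank_euclideanSpace, Fintype.card_fin]
    ring
  exact (LinearMap.injective_iff_surjective_of_finrank_eq_finrank hd).mp hinj

theorem Frame.expand (h : Frame B p q t tA K1 e tB K2 f τ σ) {y : L} (h1 : B y K2 = 0)
    (h2 : ∀ z, B y (f z) = 0) (h3 : B y tB = 0) :
    y = (-B y K1) • tA + (-B y tA - τ * B y K1) • K1 + e (stB B e y) := by
  obtain ⟨⟨⟨α, r, w⟩, ⟨α', r', z⟩⟩, hv⟩ := h.surj y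
  rw [frameMap_apply] at hv
  simp only at hv
  have c1 := congrArg (fun y => B y K1) hv
  have c2 := congrArg (fun y => B y tA) hv
  have c3 := congrArg (fun y => B y K2) hv
  have c4 := congrArg (fun y => B y tB) hv
  have c5 := fun w' => congrArg (fun y => B y (e w')) hv
  have c6 := fun w' => congrArg (fun y => B y (f w')) hv
  have s1 : B K1 tA = -1 := by rw [h.symm, h.AK]
  have s2 : B K2 tB = -1 := by rw [h.symm, h.BK2]
  have s3 : B tB tA = 0 := by rw [h.symm, h.AB]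
  have s4 : B K2 tA = 0 := by rw [h.symm, h.AK2]
  have s5 : B tB K1 = 0 := by rw [h.symm, h.KB]
  have s6 : B K2 K1 = 0 := by rw [h.symm, h.KK12]
  have s7 : ∀ w, B tA (e w) = 0 := fun w => by rw [h.symm, h.Ae]
  have s8 : ∀ w, B K1 (e w) = 0 := fun w => by rw [h.symm, h.Ke]
  have s9 : ∀ w, B tB (e w) = 0 := fun w => by rw [h.symm, h.eB]
  have s10 : ∀ w, B K2 (e w) = 0 := fun w => by rw [h.symm, h.eK2]
  have s11 : ∀ w, B tA (f w) = 0 := fun w => by rw [h.symm, h.Af]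
  have s12 : ∀ w, B K1 (f w) = 0 := fun w => by rw [h.symm, h.Kf]
  have s13 : ∀ w, B tB (f w) = 0 := fun w => by rw [h.symm, h.Bf]
  have s14 : ∀ w, B K2 (f w) = 0 := fun w => by rw [h.symm, h.K2f]
  have s15 : ∀ w z, B (f z) (e w) = 0 := fun w z => by rw [h.symm, h.ef]
  simp only [map_add, map_smul, LinearMap.add_apply, LinearMap.smul_apply, smul_eq_mul, map_zero,
    LinearMap.zero_apply, h.AA, h.AK, h.KK, h.Ae, h.Ke, h.ee, h.BB, h.BK2, h.KK2, h.Bf, h.K2f,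
    h.ff, h.AB, h.AK2, h.Af, h.KB, h.KK12, h.Kf, h.eB, h.eK2, h.ef, s1, s2, s3, s4, s5, s6, s7,
    s8, s9, s10, s11, s12, s13, s14, s15, mul_zero, add_zero, zero_add] at c1 c2 c3 c4 c5 c6
  rw [h1] at c3
  rw [h3] at c4
  have a3 : α' = 0 := by linarith
  have a4 : r' = 0 := by rw [a3] at c4; linarith
  have a6 : z = 0 := by
    have := c6 z
    rw [h2] at this
    rwa [real_inner_self_eq_norm_sq, sq_eq_zero_iff, norm_eq_zero] at this
  have a1 : α = -B y K1 := by linarith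
  have a2 : r = -B y tA - τ * B y K1 := by rw [← c2, ← c1]; ring
  have a5 : stB B e y = w := by
    apply stB_eq
    intro w'
    rw [← c5 w']
  rw [a5, ← a1, ← a2]
  rw [a3, a4, a6] at hv
  conv_lhs => rw [← hv]
  simp [add_assoc]

theorem Frame.normal (h : Frame B p q t tA K1 e tB K2 f τ σ) {y : L} (h0 : B y y = 0)
    (h1 : B y K2 = 0) (h2 : ∀ z, B y (f z) = 0) (h3 : B y tB = 0) (h4 : B y t = -1)
    (h5 : 0 < 1 - τ * B y K1) :
    y = al τ (stB B e y) • tA + rr τ (stB B e y) • K1 + e (stB B e y) ∧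
      τ * al τ (stB B e y) = rr τ (stB B e y) - 1 := by
  have hy := h.expand h1 h2 h3
  have h4' : B y tA = -1 := by
    have : B y t = B y tA + B y tB := by rw [h.ht, map_add]
    rw [h4, h3] at this; linarith
  rw [h4'] at hy
  set α := -B y K1 with hα
  have hr : (- -1 - τ * B y K1) = 1 + τ * α := by rw [hα]; ring
  rw [hr] at hy
  set w := stB B e y with hw
  have hnull : α ^ 2 * τ + 2 * α = ‖w‖ ^ 2 := by
    have h6 : B y (e w) = ‖w‖ ^ 2 := by rw [← stB_inner, ← hw, real_inner_self_eq_norm_sq]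
    have h7 : B y y = α * B y tA + (1 + τ * α) * B y K1 + B y (e w) := by
      have h8 : B y y = B y (α • tA + (1 + τ * α) • K1 + e w) := by rw [← hy]
      rw [h8]
      simp only [map_add, map_smul, smul_eq_mul]
    rw [h0, h4', h6] at h7
    have : B y K1 = -α := by rw [hα]; ring
    rw [this] at h7
    linarith
  have hpos : 0 < 1 + τ * α := by rw [hα]; linarith
  obtain ⟨g1, g2⟩ := al_rr_unique hnull hpos
  rw [g1, g2]
  exact ⟨hy, by ring⟩

end

end

end Pool.Agent.Y493.Dupin
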