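import Mathlib

open scoped ContDiff InnerProductSpace Topology

namespace Pool.Agent.Y493.Dupin

section General

variable {D D' F G L L' : Type*}
  [NormedAddCommGroup D] [NormedSpace ℝ D] [NormedAddCommGroup D'] [NormedSpace ℝ D']
  [NormedAddCommGroup F] [InnerProductSpace ℝ F] [NormedAddCommGroup G] [InnerProductSpace ℝ G]
  [AddCommGroup L] [Module ℝ L] [AddCommGroup L'] [Module ℝ L']

/-- `x : U → F` is a smooth immersed hypersurface of the Euclidean space `F`, with smooth unit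
normal field `ν`; the domain is an open subset `U` of `D`. -/
structure IsHyp (U : Set D) (x ν : D → F) : Prop where
  isOpen : IsOpen U
  codim : Module.finrank ℝ F = Module.finrank ℝ D + 1
  smooth : ContDiffOn ℝ ∞ x U
  smooth_normal : ContDiffOn ℝ ∞ ν U
  immersion : ∀ u ∈ U, Function.Injective (fderiv ℝ x u)
  unit : ∀ u ∈ U, ‖ν u‖ = 1
  normal : ∀ u ∈ U, ∀ v, ⟪fderiv ℝ x u v, ν u⟫_ℝ = 0

/-- `x : U → F` is a smooth immersed hypersurface of the unit sphere of `F`, with smooth unit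
normal field `ν` tangent to the sphere. -/
structure IsSphHyp (U : Set D) (x ν : D → F) : Prop where
  isOpen : IsOpen U
  codim : Module.finrank ℝ F = Module.finrank ℝ D + 2
  smooth : ContDiffOn ℝ ∞ x U
  smooth_normal : ContDiffOn ℝ ∞ ν U
  immersion : ∀ u ∈ U, Function.Injective (fderiv ℝ x u)
  mem_sphere : ∀ u ∈ U, ‖x u‖ = 1
  unit : ∀ u ∈ U, ‖ν u‖ = 1
  tangent : ∀ u ∈ U, ⟪x u, ν u⟫_ℝ = 0
  normal : ∀ u ∈ U, ∀ v, ⟪fderiv ℝ x u v, ν u⟫_ℝ = 0

/-- The space of principal vectors at `u` for the number `k`: those `v` with `dν v = - k dx v`. -/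
noncomputable def principal (x ν : D → F) (u : D) (k : ℝ) : Submodule ℝ D :=
  LinearMap.ker ((fderiv ℝ ν u + k • fderiv ℝ x u : D →L[ℝ] F) : D →ₗ[ℝ] F)

/-- Proper Dupin with `g` principal curvatures: there are `g` smooth functions `κ i`, distinct at
each point, which are the principal curvatures there (their principal spaces are nonzero and span
the tangent space), and each `κ i` is constant in the directions of its own principal space. -/
def IsProperDupin (g : ℕ) (U : Set D) (x ν : D → F) : Prop :=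
  ∃ κ : Fin g → D → ℝ, (∀ i, ContDiffOn ℝ ∞ (κ i) U) ∧ ∀ u ∈ U,
    Function.Injective (fun i => κ i u) ∧ (∀ i, principal x ν u (κ i u) ≠ ⊥) ∧
    (⨆ i, principal x ν u (κ i u)) = ⊤ ∧
    ∀ i, ∀ v ∈ principal x ν u (κ i u), fderiv ℝ (κ i) u v = 0

/-- The Lie quadratic form for hypersurfaces of the Euclidean space `F`. -/
def quadR (v : ℝ × ℝ × F × ℝ) : ℝ := -v.1 ^ 2 + v.2.1 ^ 2 + ‖v.2.2.1‖ ^ 2 - v.2.2.2 ^ 2

/-- The Lie quadratic form for hypersurfaces of the unit sphere of `F`. -/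
def quadS (v : ℝ × F × ℝ) : ℝ := -v.1 ^ 2 + ‖v.2.1‖ ^ 2 - v.2.2 ^ 2

/-- Legendre lift of a hypersurface of Euclidean space: the span of the point sphere `x` and the
tangent hyperplane with normal `ν`. -/
noncomputable def liftR (x ν : D → F) (u : D) : Submodule ℝ (ℝ × ℝ × F × ℝ) :=
  Submodule.span ℝ {((1 + ‖x u‖ ^ 2) / 2, (1 - ‖x u‖ ^ 2) / 2, x u, 0),
    (⟪x u, ν u⟫_ℝ, -⟪x u, ν u⟫_ℝ, ν u, 1)}

/-- Legendre lift of a hypersurface of the unit sphere: the span of the point sphere `x` and the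
tangent great sphere with pole `ν`. -/
noncomputable def liftS (x ν : D → F) (u : D) : Submodule ℝ (ℝ × F × ℝ) :=
  Submodule.span ℝ {(1, x u, 0), (0, ν u, 1)}

/-- Local Lie equivalence, at the points `a` and `b`, of two Legendre maps `l`, `l'` into the spaces
of lines of the quadrics `q = 0` and `q' = 0`: a linear bijection `A` carrying one quadric onto the
other and a diffeomorphism `φ` of neighbourhoods, `φ a = b`, with `A (l u) = l' (φ u)`. -/
def LieEquivAt (q : L → ℝ) (l : D → Submodule ℝ L) (a : D)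
    (q' : L' → ℝ) (l' : D' → Submodule ℝ L') (b : D') : Prop :=
  ∃ A : L ≃ₗ[ℝ] L', (∀ v, q' (A v) = 0 ↔ q v = 0) ∧
    ∃ φ : OpenPartialHomeomorph D D', a ∈ φ.source ∧ φ a = b ∧
      ContDiffOn ℝ ∞ φ φ.source ∧ ContDiffOn ℝ ∞ φ.symm φ.target ∧
      ∀ u ∈ φ.source, (l u).map (A : L →ₗ[ℝ] L') = l' (φ u)

/-- `(y, η)` on `V` is an open piece of the tube of radius `r` over the hypersurface `(x, ν)`,
the latter placed into the bigger Euclidean space `G` by the linear isometry `ι`: there is a smooth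
foot point map `u : V → U` with `y = ι (x (u)) + r η` and `η` is normal to `ι ∘ x` at `u`. -/
def IsTube (r : ℝ) (ι : F →ₗᵢ[ℝ] G) (U : Set D) (x : D → F) (V : Set D') (y η : D' → G) : Prop :=
  ∃ u : D' → D, ContDiffOn ℝ ∞ u V ∧ ∀ v ∈ V, u v ∈ U ∧ y v = ι (x (u v)) + r • η v ∧
    ∀ w, ⟪ι (fderiv ℝ x (u v) w), η v⟫_ℝ = 0

end General

end Pool.Agent.Y493.Dupin
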