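import Pool.Agent.Y493.Dupin.ModelLam

open scoped ContDiff InnerProductSpace Topology
open Set Filter

namespace Pool.Agent.Y493.Dupin

section
variable {D D₁ F F₁ : Type*} [NormedAddCommGroup D] [NormedSpace ℝ D]
  [NormedAddCommGroup D₁] [NormedSpace ℝ D₁]
  [NormedAddCommGroup F] [InnerProductSpace ℝ F] [NormedAddCommGroup F₁] [InnerProductSpace ℝ F₁]

theorem fderiv_trans (C : D₁ ≃L[ℝ] D) (J : F ≃ₗᵢ[ℝ] F₁) {x : D → F} {u : D₁}
    (hx : DifferentiableAt ℝ x (C u)) (v : D₁) :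
    fderiv ℝ (fun u => J (x (C u))) u v = J (fderiv ℝ x (C u) (C v)) := by
  have h1 : HasFDerivAt (fun u => x (C u)) (fderiv ℝ x (C u) ∘L (C : D₁ →L[ℝ] D)) u :=
    hx.hasFDerivAt.comp u C.hasFDerivAt
  have h2 : HasFDerivAt (fun u => J (x (C u)))
      ((J.toContinuousLinearEquiv : F →L[ℝ] F₁) ∘L (fderiv ℝ x (C u) ∘L (C : D₁ →L[ℝ] D))) u :=
    J.toContinuousLinearEquiv.hasFDerivAt.comp u h1
  rw [h2.fderiv]; rfl

theorem IsHyp.trans {U : Set D} {x ν : D → F} (h : IsHyp U x ν) (C : D₁ ≃L[ℝ] D)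
    (J : F ≃ₗᵢ[ℝ] F₁) :
    IsHyp (C ⁻¹' U) (fun u => J (x (C u))) (fun u => J (ν (C u))) where
  isOpen := h.isOpen.preimage C.continuous
  codim := by
    rw [← J.toLinearEquiv.finrank_eq, h.codim, C.toLinearEquiv.finrank_eq]
  smooth := J.contDiff.comp_contDiffOn (h.smooth.comp C.contDiff.contDiffOn fun u hu => hu)
  smooth_normal :=
    J.contDiff.comp_contDiffOn (h.smooth_normal.comp C.contDiff.contDiffOn fun u hu => hu)
  immersion := fun u hu v w hvw => by
    rw [fderiv_trans C J (h.dx hu).differentiableAt, fderiv_trans C J (h.dx hu).differentiableAt]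
      at hvw
    exact C.injective (h.immersion _ hu (J.injective hvw))
  unit := fun u hu => by rw [J.norm_map]; exact h.unit _ hu
  normal := fun u hu v => by
    rw [fderiv_trans C J (h.dx hu).differentiableAt, J.inner_map_map]; exact h.normal _ hu _

theorem PD.trans {g : ℕ} {U : Set D} {x ν : D → F} {κ : Fin g → D → ℝ}
    {P : Fin g → D →ₗ[ℝ] D} (h : PD g U x ν κ P) (C : D₁ ≃L[ℝ] D) (J : F ≃ₗᵢ[ℝ] F₁) :
    PD g (C ⁻¹' U) (fun u => J (x (C u))) (fun u => J (ν (C u))) (fun i u => κ i (C u))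
      (fun i => C.symm.toLinearEquiv.toLinearMap ∘ₗ P i ∘ₗ C.toLinearEquiv.toLinearMap) where
  hyp := h.hyp.trans C J
  smooth := fun i => (h.smooth i).comp C.contDiff.contDiffOn fun u hu => hu
  inj := fun u hu => h.inj _ hu
  nonpos := fun u hu => h.nonpos _ hu
  sum := fun v => by
    have h1 : ∑ i, C.symm (P i (C v)) = C.symm (∑ i, P i (C v)) := (map_sum _ _ _).symm
    change ∑ i, C.symm (P i (C v)) = v
    rw [h1, h.sum, C.symm_apply_apply]
  idem := fun i v => by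
    change C.symm (P i (C (C.symm (P i (C v))))) = C.symm (P i (C v))
    rw [C.apply_symm_apply, h.idem]
  orth := fun i j hij v => by
    change C.symm (P i (C (C.symm (P j (C v))))) = 0
    rw [C.apply_symm_apply, h.orth i j hij, map_zero]
  ne := fun i => by
    obtain ⟨v, hv⟩ := h.ne i
    refine ⟨C.symm v, fun hh => hv ?_⟩
    have h1 : C.symm (P i (C (C.symm v))) = 0 := hh
    rw [C.apply_symm_apply] at h1
    exact C.symm.injective (h1.trans (map_zero _).symm)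
  der := fun u hu i v => by
    rw [fderiv_trans C J (h.hyp.dx hu).differentiableAt,
      fderiv_trans C J (h.hyp.dν hu).differentiableAt]
    change J (fderiv ℝ ν (C u) (C (C.symm (P i (C v))))) =
      -(κ i (C u) • J (fderiv ℝ x (C u) (C (C.symm (P i (C v))))))
    rw [C.apply_symm_apply, h.der _ hu, map_neg, map_smul]
  dup := fun u hu i v => by
    have h1 : HasFDerivAt (fun u => κ i (C u)) (fderiv ℝ (κ i) (C u) ∘L (C : D₁ →L[ℝ] D)) u :=
      (((h.smooth i).contDiffAt (h.hyp.isOpen.mem_nhds hu)).differentiableAt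
        (by simp)).hasFDerivAt.comp u C.hasFDerivAt
    rw [h1.fderiv]
    change fderiv ℝ (κ i) (C u) (C (C.symm (P i (C v)))) = 0
    rw [C.apply_symm_apply, h.dup _ hu]

/-- The isometry of Lie spaces induced by an isometry of Euclidean spaces. -/
noncomputable def liftJ (J : F ≃ₗᵢ[ℝ] F₁) : (ℝ × ℝ × F × ℝ) ≃ₗ[ℝ] (ℝ × ℝ × F₁ × ℝ) where
  toFun v := (v.1, v.2.1, J v.2.2.1, v.2.2.2)
  invFun v := (v.1, v.2.1, J.symm v.2.2.1, v.2.2.2)
  map_add' v w := by simp
  map_smul' c v := by simp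
  left_inv v := by simp
  right_inv v := by simp

theorem liftR_trans [FiniteDimensional ℝ D] [FiniteDimensional ℝ D₁] (x ν : D → F)
    (C : D₁ ≃L[ℝ] D) (J : F ≃ₗᵢ[ℝ] F₁) (a : D) :
    LieEquivAt quadR (liftR x ν) a quadR
      (liftR (fun u => J (x (C u))) (fun u => J (ν (C u)))) (C.symm a) := by
  refine LieEquivAt.of_map (liftJ J) ?_ isOpen_univ (mem_univ _) (f := C.symm)
    C.symm.contDiff.contDiffOn ?_ rfl ?_
  · intro v
    have : quadR (liftJ J v) = quadR v := by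
      simp only [quadR, liftJ]
      change -v.1 ^ 2 + v.2.1 ^ 2 + ‖J v.2.2.1‖ ^ 2 - v.2.2.2 ^ 2 = _
      rw [J.norm_map]
    rw [this]
  · rw [ContinuousLinearEquiv.fderiv]; exact C.symm.bijective
  · intro u _
    rw [liftR, liftR, Submodule.map_span, image_pair]
    change Submodule.span ℝ {((1 + ‖x u‖ ^ 2) / 2, (1 - ‖x u‖ ^ 2) / 2, J (x u), 0),
      (⟪x u, ν u⟫_ℝ, -⟪x u, ν u⟫_ℝ, J (ν u), 1)} = _
    simp only [C.apply_symm_apply, J.norm_map, J.inner_map_map]

end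

/-- Every model is reducible at every point. -/
theorem model_reducible {p q m : ℕ} (hp : 0 < p) (hq : 0 < q) (hm : 0 < m) {ρ : ℝ} (hρ : 0 < ρ)
    {a : (E q × E p) × E m} (ha : a ∈
      (Metric.ball (0 : E q) 1 ×ˢ Metric.ball (0 : E p) 1) ×ˢ Metric.ball (0 : E m) 1) :
    IsReducibleAt 2 (p + q + m) quadR (liftR (modelPt p q m ρ) (modelNor p q m)) a := by
  have hS := PD.sphere hq
  have hW := hS.tube hρ hp
  have hT := hW.tube one_pos hm
  have hD := hW.tubeData one_pos hm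
  have hWf := hW.hyp.fin
  have hTf := hT.hyp.fin
  let CW : E (q + p) ≃L[ℝ] (E q × E p) := ContinuousLinearEquiv.ofFinrankEq (by simp)
  let CT : E (p + q + m) ≃L[ℝ] ((E q × E p) × E m) := ContinuousLinearEquiv.ofFinrankEq (by
    rw [Module.finrank_prod (M := E q × E p)]; simp; omega)
  have dW : Module.finrank ℝ (WithLp 2 (WithLp 2 (ℝ × E q) × E p)) = q + p + 1 := by
    rw [hW.hyp.codim]; simp
  have dT : Module.finrank ℝ (WithLp 2 (WithLp 2 (WithLp 2 (ℝ × E q) × E p) × E m)) =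
      p + q + m + 1 := by
    rw [hT.hyp.codim, Module.finrank_prod (M := E q × E p)]; simp; omega
  let JW : WithLp 2 (WithLp 2 (ℝ × E q) × E p) ≃ₗᵢ[ℝ] E (q + p + 1) :=
    ((stdOrthonormalBasis ℝ _).reindex (finCongr dW)).repr
  let JT : WithLp 2 (WithLp 2 (WithLp 2 (ℝ × E q) × E p) × E m) ≃ₗᵢ[ℝ] E (p + q + m + 1) :=
    ((stdOrthonormalBasis ℝ _).reindex (finCongr dT)).repr
  have hW' := hW.trans CW JW
  have hT' := hT.trans CT JT
  let ι : E (q + p + 1) →ₗᵢ[ℝ] E (p + q + m + 1) :=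
    JT.toLinearIsometry.comp ((incl _ m).comp JW.symm.toLinearIsometry)
  have hι : ∀ z, ι (JW z) = JT (incl _ m z) := by
    intro z
    change JT (incl _ m (JW.symm (JW z))) = _
    rw [JW.symm_apply_apply]
  refine ⟨q + p, _, _, _, _, _, _, ι, 1, CT.symm a, by omega, hW'.hyp,
    isProperDupin_iff.mpr ⟨_, hW'.dupinFns⟩, hT'.hyp, isProperDupin_iff.mpr ⟨_, hT'.dupinFns⟩,
    one_ne_zero, ⟨fun v => CW.symm (CT v).1, ?_, fun v hv => ⟨?_, ?_, fun w => ?_⟩⟩, ?_, ?_⟩
  · exact (CW.symm.contDiff.comp (contDiff_fst.comp CT.contDiff)).contDiffOn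
  · change CW (CW.symm (CT v).1) ∈ Metric.ball (0 : E q) 1 ×ˢ Metric.ball (0 : E p) 1
    rw [CW.apply_symm_apply]
    exact hv.1
  · change JT _ = ι (JW (tubePt ρ p (cap q) (cap q) (CW (CW.symm (CT v).1)))) + _
    rw [hι, CW.apply_symm_apply, ← map_smul, ← map_add]
    congr 1
    exact hD.eq (CT v) hv
  · have hmem : CW (CW.symm (CT v).1) ∈ Metric.ball (0 : E q) 1 ×ˢ Metric.ball (0 : E p) 1 := by
      rw [CW.apply_symm_apply]; exact hv.1
    rw [fderiv_trans CW JW (hW.hyp.dx hmem).differentiableAt, hι, JT.inner_map_map,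
      CW.apply_symm_apply]
    exact hD.perp (CT v) hv _
  · rw [mem_preimage, CT.apply_symm_apply]; exact ha
  · exact liftR_trans _ _ CT JT a

end Pool.Agent.Y493.Dupin
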