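import Pool.Agent.Y493.Dupin.Sph2
import Pool.Agent.Y493.Dupin.Trans

open scoped ContDiff InnerProductSpace Topology
open Set Filter

namespace Pool.Agent.Y493.Dupin

/-- Every model is realized by a hypersurface of the sphere. -/
theorem model_sphere {p q m : ℕ} (hp : 0 < p) (hq : 0 < q) (hm : 0 < m) {ρ : ℝ} (hρ : 0 < ρ) :
    ∃ (U : Set (E (p + q + m))) (x ν : E (p + q + m) → E (p + q + m + 2)) (a : E (p + q + m)),
      IsSphHyp U x ν ∧ IsProperDupin 3 U x ν ∧ a ∈ U ∧
      LieEquivAt quadS (liftS x ν) a quadR (liftR (modelPt p q m ρ) (modelNor p q m)) 0 := by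
  have hS := PD.sphere hq
  have hW := hS.tube hρ hp
  have hT := hW.tube one_pos hm
  have hTf := hT.hyp.fin
  let CT : E (p + q + m) ≃L[ℝ] ((E q × E p) × E m) := ContinuousLinearEquiv.ofFinrankEq (by
    rw [Module.finrank_prod (M := E q × E p)]; simp; omega)
  have dT : Module.finrank ℝ (WithLp 2 (WithLp 2 (WithLp 2 (ℝ × E q) × E p) × E m)) =
      p + q + m + 1 := by
    rw [hT.hyp.codim, Module.finrank_prod (M := E q × E p)]; simp; omega
  let JT : WithLp 2 (WithLp 2 (WithLp 2 (ℝ × E q) × E p) × E m) ≃ₗᵢ[ℝ] E (p + q + m + 1) :=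
    ((stdOrthonormalBasis ℝ _).reindex (finCongr dT)).repr
  have hT' := hT.trans CT JT
  have dS : Module.finrank ℝ (WithLp 2 (ℝ × E (p + q + m + 1))) = p + q + m + 2 := by
    rw [finrank_withLp, Module.finrank_self]; ring
  let J : WithLp 2 (ℝ × E (p + q + m + 1)) ≃ₗᵢ[ℝ] E (p + q + m + 2) :=
    ((stdOrthonormalBasis ℝ _).reindex (finCongr dS)).repr
  refine ⟨_, _, _, CT.symm 0, hT'.hyp.sph J, hT'.sph J, ?_, ?_⟩
  · rw [mem_preimage, CT.apply_symm_apply]
    exact ⟨⟨Metric.mem_ball_self one_pos, Metric.mem_ball_self one_pos⟩,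
      Metric.mem_ball_self one_pos⟩
  · exact ((liftR_trans _ _ CT JT 0).trans (liftR_liftS _ _ J _)).symm

end Pool.Agent.Y493.Dupin
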