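import Pool.Agent.Y493.Dupin.Class
import Pool.Agent.Y493.Dupin.RealS

open scoped ContDiff InnerProductSpace Topology
open Set Filter

namespace Pool.Agent.Y493.Dupin

section general
variable {D D' L L' : Type*} [NormedAddCommGroup D] [NormedSpace ℝ D]
  [NormedAddCommGroup D'] [NormedSpace ℝ D']
  [AddCommGroup L] [Module ℝ L] [AddCommGroup L'] [Module ℝ L']

theorem IsReducibleAt.of_equiv {g N : ℕ} {Q : L → ℝ} {l : D → Submodule ℝ L} {a : D}
    {Q' : L' → ℝ} {l' : D' → Submodule ℝ L'} {a' : D'} (h : IsReducibleAt g N Q' l' a')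
    (he : LieEquivAt Q l a Q' l' a') : IsReducibleAt g N Q l a := by
  obtain ⟨d, U, x, ν, V, y, η, ι, r, b, hd, hW, hWD, hT, hTD, hr, ht, hb, hL⟩ := h
  exact ⟨d, U, x, ν, V, y, η, ι, r, b, hd, hW, hWD, hT, hTD, hr, ht, hb, he.trans hL⟩

/-- A local equivalence gives local equivalences at all nearby points. -/
theorem LieEquivAt.nearby {Q : L → ℝ} {l : D → Submodule ℝ L} {a : D}
    {Q' : L' → ℝ} {l' : D' → Submodule ℝ L'} {b : D'} (h : LieEquivAt Q l a Q' l' b)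
    {O : Set D'} (hO : IsOpen O) (hb : b ∈ O) :
    ∃ W, IsOpen W ∧ a ∈ W ∧ ∀ u ∈ W, ∃ c ∈ O, LieEquivAt Q l u Q' l' c := by
  obtain ⟨A, hA, φ, ha, hab, h1, h2, h3⟩ := h
  refine ⟨φ.source ∩ φ ⁻¹' O, φ.isOpen_inter_preimage hO,
    ⟨ha, by rw [mem_preimage, hab]; exact hb⟩, fun u hu => ⟨φ u, hu.2, ?_⟩⟩
  exact ⟨A, hA, φ, hu.1, rfl, h1, h2, h3⟩

/-- If all germs are locally constant up to equivalence, they are all equivalent. -/
theorem const_class {Q : L → ℝ} {l : D → Submodule ℝ L} {U : Set D}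
    (hc : IsPreconnected U)
    (h : ∀ a ∈ U, ∃ W, IsOpen W ∧ a ∈ W ∧ ∀ u ∈ W, LieEquivAt Q l u Q l a) {a b : D}
    (ha : a ∈ U) (hb : b ∈ U) : LieEquivAt Q l b Q l a := by
  let S1 : Set D := {u | ∃ W, IsOpen W ∧ u ∈ W ∧ ∀ w ∈ W, LieEquivAt Q l w Q l a}
  let S2 : Set D := {u | ∃ W, IsOpen W ∧ u ∈ W ∧ ∀ w ∈ W, ¬ LieEquivAt Q l w Q l a}
  have o1 : IsOpen S1 := by
    rw [isOpen_iff_forall_mem_open]
    rintro u ⟨W, hW, huW, hw⟩
    exact ⟨W, fun w hwW => ⟨W, hW, hwW, hw⟩, hW, huW⟩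
  have o2 : IsOpen S2 := by
    rw [isOpen_iff_forall_mem_open]
    rintro u ⟨W, hW, huW, hw⟩
    exact ⟨W, fun w hwW => ⟨W, hW, hwW, hw⟩, hW, huW⟩
  have hdis : Disjoint S1 S2 := by
    rw [Set.disjoint_left]
    rintro u ⟨W, _, huW, hw⟩ ⟨W', _, huW', hw'⟩
    exact hw' u huW' (hw u huW)
  have hcov : U ⊆ S1 ∪ S2 := by
    intro u hu
    obtain ⟨W, hW, huW, hw⟩ := h u hu
    by_cases hua : LieEquivAt Q l u Q l a
    · left; exact ⟨W, hW, huW, fun w hwW => (hw w hwW).trans hua⟩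
    · right; exact ⟨W, hW, huW, fun w hwW hh => hua ((hw w hwW).symm.trans hh)⟩
  have hne : (U ∩ S1).Nonempty := ⟨a, ha, h a ha⟩
  have := hc.subset_left_of_subset_union o1 o2 hdis hcov hne
  obtain ⟨W, _, hbW, hw⟩ := this hb
  exact hw b hbW

end general

theorem Dom_open (p q m : ℕ) : IsOpen (Dom p q m) :=
  (Metric.isOpen_ball.prod Metric.isOpen_ball).prod Metric.isOpen_ball

theorem Dom_convex (p q m : ℕ) : Convex ℝ (Dom p q m) :=
  ((convex_ball _ _).prod (convex_ball _ _)).prod (convex_ball _ _)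

theorem zero_mem_Dom (p q m : ℕ) : (0 : (E q × E p) × E m) ∈ Dom p q m := zero_mem_dom p q m

theorem model_hom {p q m : ℕ} (hp : 0 < p) (hq : 0 < q) (hm : 0 < m) {ρ : ℝ} (hρ : 0 < ρ)
    {a b : (E q × E p) × E m} (ha : a ∈ Dom p q m) (hb : b ∈ Dom p q m) :
    LieEquivAt quadR (modelLift p q m ρ) a quadR (modelLift p q m ρ) b :=
  (model_lam_at hp hq hm hρ ha).trans (model_lam_at hp hq hm hρ hb).symm

theorem connected_class {D L : Type*} [NormedAddCommGroup D] [NormedSpace ℝ D]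
    [AddCommGroup L] [Module ℝ L] {N : ℕ} {Q : L → ℝ} {l : D → Submodule ℝ L} {U : Set D}
    (hc : IsConnected U) (h : ∀ a ∈ U, IsReducibleAt 2 N Q l a) :
    ∃ (p q m : ℕ) (ρ : ℝ), 0 < p ∧ 0 < q ∧ 0 < m ∧ p + q + m = N ∧ 0 < ρ ∧
      ∀ a ∈ U, ∀ b ∈ Dom p q m, LieEquivAt Q l a quadR (modelLift p q m ρ) b := by
  have key : ∀ a ∈ U, ∃ W, IsOpen W ∧ a ∈ W ∧ ∀ u ∈ W, LieEquivAt Q l u Q l a := by
    intro a ha
    obtain ⟨p, q, m, ρ, hp, hq, hm, hN, hρ, hL⟩ := reducible_model (h a ha)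
    obtain ⟨W, hW, haW, hw⟩ := hL.nearby (Dom_open p q m) (zero_mem_Dom p q m)
    refine ⟨W, hW, haW, fun u hu => ?_⟩
    obtain ⟨c, hc, hcu⟩ := hw u hu
    exact (hcu.trans (model_hom hp hq hm hρ hc (zero_mem_Dom p q m))).trans hL.symm
  obtain ⟨a0, ha0⟩ := hc.1
  obtain ⟨p, q, m, ρ, hp, hq, hm, hN, hρ, hL⟩ := reducible_model (h a0 ha0)
  refine ⟨p, q, m, ρ, hp, hq, hm, hN, hρ, fun a ha b hb => ?_⟩
  exact ((const_class hc.2 key ha0 ha).trans hL).trans
    (model_hom hp hq hm hρ (zero_mem_Dom p q m) hb)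

theorem model_PD {p q m : ℕ} (hp : 0 < p) (hq : 0 < q) (hm : 0 < m) {ρ : ℝ} (hρ : 0 < ρ) :
    PD 3 (Dom p q m) (modelPt p q m ρ) (modelNor p q m)
      (tubeK 1 m (tubeK ρ p (fun (_ : Fin 1) (_ : E q) => (-1 : ℝ))))
      (tubeP m (tubeP p (fun _ : Fin 1 => (LinearMap.id : E q →ₗ[ℝ] E q)))) :=
  ((PD.sphere hq).tube hρ hp).tube one_pos hm

/-- Multiplicities of the model. -/
theorem model_mult {p q m : ℕ} (hp : 0 < p) (hq : 0 < q) (hm : 0 < m) {ρ : ℝ} (hρ : 0 < ρ) :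
    ∃ κ : Fin 3 → (E q × E p) × E m → ℝ, ∀ u ∈ Dom p q m, Function.Injective (fun i => κ i u) ∧
      ∀ i, Module.finrank ℝ (principal (modelPt p q m ρ) (modelNor p q m) u (κ i u)) =
        ![p, q, m] i := by
  have h := model_PD hp hq hm hρ
  set K := tubeK 1 m (tubeK ρ p (fun (_ : Fin 1) (_ : E q) => (-1 : ℝ))) with hK
  refine ⟨fun i => ![K 1, K 2, K 0] i, fun u hu => ⟨?_, ?_⟩⟩
  · have hinj := h.inj u hu
    have h12 : K 1 u ≠ K 2 u := fun hh => absurd (hinj hh) (by decide)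
    have h10 : K 1 u ≠ K 0 u := fun hh => absurd (hinj hh) (by decide)
    have h20 : K 2 u ≠ K 0 u := fun hh => absurd (hinj hh) (by decide)
    intro i j hij
    fin_cases i <;> fin_cases j <;> simp_all
  · intro i
    have hmem := h.mem hu
    fin_cases i
    · change Module.finrank ℝ (principal (modelPt p q m ρ) (modelNor p q m) u (K 1 u)) = p
      have : principal (modelPt p q m ρ) (modelNor p q m) u (K 1 u) =
          LinearMap.range (LinearMap.inl ℝ (E q × E p) (E m) ∘ₗ LinearMap.inr ℝ (E q) (E p)) := by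
        ext v
        rw [hmem 1 v, LinearMap.mem_range]
        constructor
        · intro h; exact ⟨v.1.2, h⟩
        · rintro ⟨y, rfl⟩; rfl
      rw [this, LinearMap.finrank_range_of_inj]
      · simp
      · exact LinearMap.inl_injective.comp LinearMap.inr_injective
    · change Module.finrank ℝ (principal (modelPt p q m ρ) (modelNor p q m) u (K 2 u)) = q
      have : principal (modelPt p q m ρ) (modelNor p q m) u (K 2 u) =
          LinearMap.range (LinearMap.inl ℝ (E q × E p) (E m) ∘ₗ LinearMap.inl ℝ (E q) (E p)) := by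
        ext v
        rw [hmem 2 v, LinearMap.mem_range]
        constructor
        · intro h; exact ⟨v.1.1, h⟩
        · rintro ⟨y, rfl⟩; rfl
      rw [this, LinearMap.finrank_range_of_inj]
      · simp
      · exact LinearMap.inl_injective.comp LinearMap.inl_injective
    · change Module.finrank ℝ (principal (modelPt p q m ρ) (modelNor p q m) u (K 0 u)) = m
      have : principal (modelPt p q m ρ) (modelNor p q m) u (K 0 u) =
          LinearMap.range (LinearMap.inr ℝ (E q × E p) (E m)) := by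
        ext v
        rw [hmem 0 v, LinearMap.mem_range]
        constructor
        · intro h; exact ⟨v.2, h⟩
        · rintro ⟨y, rfl⟩; rfl
      rw [this, LinearMap.finrank_range_of_inj LinearMap.inr_injective]
      simp

/-- Every model is realized by a connected hypersurface of the sphere. -/
theorem model_sphere' {p q m : ℕ} (hp : 0 < p) (hq : 0 < q) (hm : 0 < m) {ρ : ℝ} (hρ : 0 < ρ) :
    ∃ (U : Set (E (p + q + m))) (x ν : E (p + q + m) → E (p + q + m + 2)),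
      IsConnected U ∧ IsSphHyp U x ν ∧ IsProperDupin 3 U x ν ∧
      ∀ a ∈ U, IsReducibleAt 2 (p + q + m) quadS (liftS x ν) a ∧ ∀ b ∈ Dom p q m,
        LieEquivAt quadS (liftS x ν) a quadR (modelLift p q m ρ) b := by
  have hT := model_PD hp hq hm hρ
  have hTf := hT.hyp.fin
  let CT : E (p + q + m) ≃L[ℝ] ((E q × E p) × E m) := ContinuousLinearEquiv.ofFinrankEq (by
    rw [Module.finrank_prod (M := E q × E p)]; simp; omega)
  have dT : Module.finrank ℝ (WithLp 2 (WithLp 2 (WithLp 2 (ℝ × E q) × E p) × E m)) =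
      p + q + m + 1 := by
    rw [hT.hyp.codim, Module.finrank_prod (M := E q × E p)]; simp; omega
  let JT : WithLp 2 (WithLp 2 (WithLp 2 (ℝ × E q) × E p) × E m) ≃ₗᵢ[ℝ] E (p + q + m + 1) :=
    ((stdOrthonormalBasis ℝ _).reindex (finCongr dT)).repr
  have hT' := hT.trans CT JT
  have dS : Module.finrank ℝ (WithLp 2 (ℝ × E (p + q + m + 1))) = p + q + m + 2 := by
    rw [finrank_withLp, Module.finrank_self]; ring
  let J : WithLp 2 (ℝ × E (p + q + m + 1)) ≃ₗᵢ[ℝ] E (p + q + m + 2) :=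
    ((stdOrthonormalBasis ℝ _).reindex (finCongr dS)).repr
  have hconv : Convex ℝ (CT ⁻¹' Dom p q m) :=
    (Dom_convex p q m).linear_preimage CT.toLinearEquiv.toLinearMap
  have hne : (CT ⁻¹' Dom p q m).Nonempty := by
    refine ⟨0, ?_⟩
    rw [mem_preimage, map_zero]
    exact zero_mem_Dom p q m
  have hkey : ∀ a ∈ CT ⁻¹' Dom p q m, LieEquivAt quadS
      (liftS (sX J (fun u => JT (modelPt p q m ρ (CT u))))
        (sN J (fun u => JT (modelPt p q m ρ (CT u))) (fun u => JT (modelNor p q m (CT u))))) a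
      quadR (modelLift p q m ρ) (CT a) := by
    intro a ha
    have h1 := liftR_trans (modelPt p q m ρ) (modelNor p q m) CT JT (CT a)
    rw [CT.symm_apply_apply] at h1
    exact (h1.trans (liftR_liftS _ _ J a)).symm
  refine ⟨CT ⁻¹' Dom p q m, _, _, ⟨hne, hconv.isPreconnected⟩, hT'.hyp.sph J, hT'.sph J,
    fun a ha => ⟨?_, fun b hb => (hkey a ha).trans (model_hom hp hq hm hρ ha hb)⟩⟩
  exact (model_reducible hp hq hm hρ ha).of_equiv (hkey a ha)

theorem model_iff {p q m p' q' m' : ℕ} (hp : 0 < p) (hq : 0 < q) (hm : 0 < m)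
    (hp' : 0 < p') (hq' : 0 < q') (hm' : 0 < m') {ρ ρ' : ℝ} (hρ : 0 < ρ) (hρ' : 0 < ρ')
    {a : (E q × E p) × E m} (ha : a ∈ Dom p q m) {a' : (E q' × E p') × E m'}
    (ha' : a' ∈ Dom p' q' m') :
    LieEquivAt quadR (modelLift p q m ρ) a quadR (modelLift p' q' m' ρ') a' ↔
    (p' = p ∧ q' = q ∧ m' = m ∧ ρ' = ρ) ∨
    (p' = q ∧ q' = p ∧ m' = m ∧ ρ ^ 2 + ρ' ^ 2 = 1) ∨
    (p' = m ∧ q' = q ∧ m' = p ∧ 1 < ρ ∧ (ρ ^ 2 - 1) * (ρ' ^ 2 - 1) = 1) := by
  rw [← model_equiv_iff hp hq hm hp' hq' hm' hρ hρ']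
  constructor
  · intro h
    exact ((model_hom hp hq hm hρ (zero_mem_Dom p q m) ha).trans h).trans
      (model_hom hp' hq' hm' hρ' ha' (zero_mem_Dom p' q' m'))
  · intro h
    exact ((model_hom hp hq hm hρ ha (zero_mem_Dom p q m)).trans h).trans
      (model_hom hp' hq' hm' hρ' (zero_mem_Dom p' q' m') ha')

end Pool.Agent.Y493.Dupin
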