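import Pool.Agent.Y493.Dupin.Stmt
import Pool.Agent.Y493.Dupin.FinalLib

open scoped ContDiff InnerProductSpace Topology
open Set Filter

namespace Pool.Agent.Y493.Dupin

section
variable {D F : Type} [NormedAddCommGroup D] [NormedSpace ℝ D]
  [NormedAddCommGroup F] [InnerProductSpace ℝ F]

theorem dupinTube_iff {D L : Type} [NormedAddCommGroup D] [NormedSpace ℝ D]
    [AddCommGroup L] [Module ℝ L] {g N : ℕ} {Q : L → ℝ} {l : D → Submodule ℝ L} {a : D} :
    IsReducibleAt g N Q l a ↔ ∃ (V : Set (Eu N)) (y η : Eu N → Eu (N + 1)) (b : Eu N),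
      IsDupinTube g N V y η ∧ b ∈ V ∧ LieEquivAt Q l a quadR (liftR y η) b := by
  constructor
  · rintro ⟨d, U, x, ν, V, y, η, ι, r, b, hd, hW, hWD, hT, hTD, hr, ht, hb, hL⟩
    exact ⟨V, y, η, b, ⟨hT, hTD, d, U, x, ν, ι, r, hd, hr, hW, hWD, ht⟩, hb, hL⟩
  · rintro ⟨V, y, η, b, ⟨hT, hTD, d, U, x, ν, ι, r, hd, hr, hW, hWD, ht⟩, hb, hL⟩
    exact ⟨d, U, x, ν, V, y, η, ι, r, b, hd, hW, hWD, hT, hTD, hr, ht, hb, hL⟩

theorem reducibleR_iff {g N : ℕ} {x ν : D → F} {a : D} :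
    ReducibleR g N x ν a ↔ IsReducibleAt g N quadR (liftR x ν) a := dupinTube_iff.symm

theorem reducibleS_iff {g N : ℕ} {x ν : D → F} {a : D} :
    ReducibleS g N x ν a ↔ IsReducibleAt g N quadS (liftS x ν) a := dupinTube_iff.symm

end

theorem mem_modelDom {p q m : ℕ} {v : ModelPar p q m} : v ∈ modelDom p q m ↔ v ∈ Dom p q m :=
  and_congr (and_congr (mem_ball_zero_iff (E := E q)).symm (mem_ball_zero_iff (E := E p)).symm)
    (mem_ball_zero_iff (E := E m)).symm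

theorem modelDom_eq (p q m : ℕ) : modelDom p q m = Dom p q m :=
  Set.ext fun _ => mem_modelDom

theorem modelX_eq (p q m : ℕ) (ρ : ℝ) : modelX p q m ρ = modelPt p q m ρ := rfl

theorem modelN_eq (p q m : ℕ) : modelN p q m = modelNor p q m := rfl

end Pool.Agent.Y493.Dupin
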