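import Pool.Agent.Y493.Dupin.VI

open scoped ContDiff InnerProductSpace Topology
open Set Filter

namespace Pool.Agent.Y493.Dupin

section
variable {p q m : ℕ} {τ : ℝ}

theorem RR_zero (i : Fin 3) : RR τ i (0 : E q × E p × E m) =
    ![(0, 1, 0, 0, 0, 0, 0), (0, 0, 0, -1, 0, 0, 0), (0, -1, 0, 1, 0, 0, 0)] i := by
  have h1 : S1 τ (0 : E q × E p × E m) = (0, 1, 0, 0, 0, 0, 0) := by
    simp [S1, rr_zero, al_zero]
  have h2 : S2 τ (0 : E q × E p × E m) = (0, 0, 0, 1, 0, 0, 0) := by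
    simp [S2, rr_zero, al_zero]
  fin_cases i
  · exact h1
  · change -S2 τ (0 : E q × E p × E m) = _
    rw [h2]; simp
  · change S2 τ (0 : E q × E p × E m) - S1 τ (0 : E q × E p × E m) = _
    rw [h1, h2]; simp; rfl

theorem RR_diff (i : Fin 3) {u : E q × E p × E m} (hu : u ∈ Good τ) :
    DifferentiableAt ℝ (RR τ i : E q × E p × E m → Lo p q m) u := by
  have h1 := (S1_diff (m := m) hu).differentiableAt
  have h2 := (S2_diff (m := m) hu).differentiableAt
  fin_cases i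
  · exact h1
  · exact h2.neg
  · exact h2.sub h1

theorem RR_mem (i : Fin 3) (u : E q × E p × E m) : RR τ i u ∈ Lam p q m τ u := by
  rw [Lam_mem]
  fin_cases i
  · exact ⟨1, 0, by simp [RR]⟩
  · exact ⟨0, -1, by simp [RR]⟩
  · exact ⟨-1, 1, by simp only [RR]; change S2 τ u - S1 τ u = _; module⟩

theorem RR_null (hp : 0 < p) (hq : 0 < q) (hm : 0 < m) (i : Fin 3) :
    ∃ Z : E q × E p × E m, Z ≠ 0 ∧ ∀ u ∈ Good τ,
      fderiv ℝ (RR τ i : E q × E p × E m → Lo p q m) u Z = 0 := by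
  have i1 : Nonempty (Fin p) := ⟨⟨0, hp⟩⟩
  have i2 : Nonempty (Fin q) := ⟨⟨0, hq⟩⟩
  have i3 : Nonempty (Fin m) := ⟨⟨0, hm⟩⟩
  obtain ⟨z, hz⟩ := exists_ne (0 : E p)
  obtain ⟨w, hw⟩ := exists_ne (0 : E q)
  obtain ⟨o, ho⟩ := exists_ne (0 : E m)
  fin_cases i
  · refine ⟨(0, z, 0), fun h => hz (Prod.ext_iff.mp (Prod.ext_iff.mp h).2).1, fun u hu => ?_⟩
    change fderiv ℝ (S1 τ) u _ = 0
    rw [S1_fderiv hu]; simp
  · refine ⟨(w, 0, 0), fun h => hw (Prod.ext_iff.mp h).1, fun u hu => ?_⟩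
    change fderiv ℝ (fun u => -S2 τ u) u _ = 0
    rw [fderiv_fun_neg, _root_.neg_apply, S2_fderiv hu]; simp
  · refine ⟨(0, 0, o), fun h => ho (Prod.ext_iff.mp (Prod.ext_iff.mp h).2).2, fun u hu => ?_⟩
    change fderiv ℝ (fun u => S2 τ u - S1 τ u) u _ = 0
    rw [fderiv_fun_sub (S2_diff hu).differentiableAt (S1_diff hu).differentiableAt,
      _root_.sub_apply, S2_fderiv hu, S1_fderiv hu]; simp

/-- The distinguished vector. -/
def l0 (p q m : ℕ) (τ : ℝ) : Lo p q m := (1 + τ, 0, τ, 0, 0, 0, 0)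

theorem l0_ne : l0 p q m τ ≠ 0 := by
  intro h
  have h1 : 1 + τ = 0 := (Prod.ext_iff.mp h).1
  have h2 : τ = 0 := (Prod.ext_iff.mp (Prod.ext_iff.mp (Prod.ext_iff.mp h).2).2).1
  linarith

theorem BL_l0_RR (i : Fin 3) : BL p q m τ (l0 p q m τ) (RR τ i 0) = ![-1 - τ, τ, 1] i := by
  rw [RR_zero, l0, BL_apply]
  fin_cases i <;> simp <;> ring

theorem l0_perp (hp : 0 < p) (hq : 0 < q) (hm : 0 < m) (i : Fin 3) {v : Lo p q m}
    (hv : v ∈ VV p q m τ i) : BL p q m τ (l0 p q m τ) v = 0 := by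
  fin_cases i
  · change v ∈ VV p q m τ 0 at hv
    rw [VV0 hq hm] at hv
    obtain ⟨x, rfl⟩ := hv
    rw [BL_apply, l0, J0_apply]; simp; ring
  · change v ∈ VV p q m τ 1 at hv
    rw [VV1 hp hm] at hv
    obtain ⟨x, rfl⟩ := hv
    rw [BL_apply, l0, J1_apply]; simp; ring
  · change v ∈ VV p q m τ 2 at hv
    rw [VV2 hp hq] at hv
    obtain ⟨x, rfl⟩ := hv
    rw [BL_apply, l0, J2_apply]; simp; ring

theorem l0_unique (hp : 0 < p) (hq : 0 < q) (hm : 0 < m) {x : Lo p q m}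
    (h : ∀ i, ∀ v ∈ VV p q m τ i, BL p q m τ x v = 0) : ∃ k : ℝ, x = k • l0 p q m τ := by
  obtain ⟨a, b, c, d, w, z, o⟩ := x
  have m0 : ∀ y, J0 p q m τ y ∈ VV p q m τ 0 := fun y => by
    rw [VV0 hq hm]; exact LinearMap.mem_range_self _ _
  have m1 : ∀ y, J1 p q m τ y ∈ VV p q m τ 1 := fun y => by
    rw [VV1 hp hm]; exact LinearMap.mem_range_self _ _
  have m2 : ∀ y, J2 p q m y ∈ VV p q m τ 2 := fun y => by
    rw [VV2 hp hq]; exact LinearMap.mem_range_self _ _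
  have e1 := h 0 _ (m0 (1, 0))
  have e2 := h 0 _ (m0 (0, z))
  have e3 := h 1 _ (m1 (1, 0))
  have e4 := h 1 _ (m1 (0, w))
  have e5 := h 2 _ (m2 (1, 0))
  have e6 := h 2 _ (m2 (0, o))
  simp only [BL_apply, J0_apply, J1_apply, J2_apply, mul_zero, mul_one, inner_zero_right,
    real_inner_self_eq_norm_sq, add_zero, zero_add, sub_zero] at e1 e2 e3 e4 e5 e6
  have hd : d = 0 := by linarith
  have hb : b = 0 := by linarith
  have hz : z = 0 := by
    have : ‖z‖ ^ 2 = 0 := by linarith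
    rwa [sq_eq_zero_iff, norm_eq_zero] at this
  have hw : w = 0 := by
    have : ‖w‖ ^ 2 = 0 := by linarith
    rwa [sq_eq_zero_iff, norm_eq_zero] at this
  have ho : o = 0 := by
    have : ‖o‖ ^ 2 = 0 := by linarith
    rwa [sq_eq_zero_iff, norm_eq_zero] at this
  rw [hb, hd] at e5
  refine ⟨a - c, ?_⟩
  rw [hb, hd, hz, hw, ho, l0]
  simp only [Prod.smul_mk, smul_eq_mul, mul_zero, smul_zero]
  refine Prod.ext ?_ (Prod.ext rfl (Prod.ext ?_ rfl))
  · simp only; linear_combination (-1) * e5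
  · simp only; linear_combination (-1) * e5

theorem VV_semidef (hp : 0 < p) (hq : 0 < q) (hm : 0 < m) (i : Fin 3)
    (hi : ![-1 - τ, τ, 1] i ≤ 0) {v : Lo p q m} (hv : v ∈ VV p q m τ i) :
    0 ≤ BL p q m τ v v := by
  fin_cases i
  · change v ∈ VV p q m τ 0 at hv
    change -1 - τ ≤ 0 at hi
    rw [VV0 hq hm] at hv
    obtain ⟨x, rfl⟩ := hv
    have : BL p q m τ (J0 p q m τ x) (J0 p q m τ x) = (1 + τ) * x.1 ^ 2 + ‖x.2‖ ^ 2 := by
      rw [BL_apply, J0_apply]; simp; ring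
    rw [this]
    have : 0 ≤ 1 + τ := by linarith
    positivity
  · change v ∈ VV p q m τ 1 at hv
    change τ ≤ 0 at hi
    rw [VV1 hp hm] at hv
    obtain ⟨x, rfl⟩ := hv
    have : BL p q m τ (J1 p q m τ x) (J1 p q m τ x) = (-τ) * x.1 ^ 2 + ‖x.2‖ ^ 2 := by
      rw [BL_apply, J1_apply]; simp; ring
    rw [this]
    have : 0 ≤ -τ := by linarith
    positivity
  · change (1 : ℝ) ≤ 0 at hi
    linarith

end

theorem indep3 {i j : Fin 3} {k k' : ℝ} (hk : k ≠ 0) (hk' : k' ≠ 0)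
    (h1 : k' * ![(1 : ℝ), 0, -1] i = k * ![(1 : ℝ), 0, -1] j)
    (h2 : k' * ![(0 : ℝ), -1, 1] i = k * ![(0 : ℝ), -1, 1] j) : i = j := by
  fin_cases i <;> fin_cases j <;> simp_all

theorem coef_eq {π : Fin 3 → Fin 3} (hπ : Function.Injective π) {k : Fin 3 → ℝ}
    (h1 : k 0 * ![(1 : ℝ), 0, -1] (π 0) + k 1 * ![(1 : ℝ), 0, -1] (π 1)
      + k 2 * ![(1 : ℝ), 0, -1] (π 2) = 0)
    (h2 : k 0 * ![(0 : ℝ), -1, 1] (π 0) + k 1 * ![(0 : ℝ), -1, 1] (π 1)
      + k 2 * ![(0 : ℝ), -1, 1] (π 2) = 0) : ∀ i, k i = k 0 := by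
  have n01 : π 0 ≠ π 1 := fun h => absurd (hπ h) (by decide)
  have n02 : π 0 ≠ π 2 := fun h => absurd (hπ h) (by decide)
  have n12 : π 1 ≠ π 2 := fun h => absurd (hπ h) (by decide)
  generalize π 0 = x at *
  generalize π 1 = y at *
  generalize π 2 = z at *
  have key : k 1 = k 0 ∧ k 2 = k 0 := by
    fin_cases x <;> fin_cases y <;> fin_cases z <;> simp at n01 n02 n12 h1 h2 <;>
      constructor <;> linarith
  intro i
  fin_cases i
  · rfl
  · exact key.1
  · exact key.2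

theorem lam_equiv_inv {p q m p' q' m' : ℕ} (hp : 0 < p) (hq : 0 < q) (hm : 0 < m)
    (hp' : 0 < p') (hq' : 0 < q') (hm' : 0 < m') {τ τ' : ℝ}
    (h : LieEquivAt (qL p q m τ) (Lam p q m τ) 0 (qL p' q' m' τ') (Lam p' q' m' τ') 0) :
    ∃ π : Fin 3 → Fin 3, Function.Injective π ∧ (∀ i, ![p, q, m] i = ![p', q', m'] (π i)) ∧
      ∃ C : ℝ, 0 < C ∧ ∀ i, ![-1 - τ, τ, 1] i = C * ![-1 - τ', τ', 1] (π i) := by
  obtain ⟨A, hA, φ, h0, hφ0, hs, hs', hl⟩ := h
  -- similarity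
  obtain ⟨c, hc⟩ := similar (BL p q m τ) (BL_symm τ) (BL p' q' m' τ') (BL_symm τ')
    (A : Lo p q m →ₗ[ℝ] Lo p' q' m') (fun v hv => (hA v).mpr hv)
    (0, 1, 0, 0, 0, 0, 0) (1, τ / 2, 0, 0, 0, 0, 0) (by rw [BL_apply]; simp)
    (by rw [BL_apply]; simp; ring) (by rw [BL_apply]; simp)
  have hc' : ∀ v w, BL p' q' m' τ' (A v) (A w) = c * BL p q m τ v w := hc
  have i3 : Nonempty (Fin m) := ⟨⟨0, hm⟩⟩
  obtain ⟨o, ho⟩ := exists_ne (0 : E m)
  have hno : 0 < ‖o‖ ^ 2 := by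
    have := norm_pos_iff.mpr ho
    positivity
  have hJo : BL p q m τ (J2 p q m (0, o)) (J2 p q m (0, o)) = ‖o‖ ^ 2 := by
    rw [BL_apply, J2_apply]; simp
  have hJ1 : BL p q m τ (J2 p q m (1, 0)) (J2 p q m (1, 0)) = -1 := by
    rw [BL_apply, J2_apply]; simp
  have hc0 : c ≠ 0 := by
    intro hc0
    have h1 := hc' (J2 p q m (0, o)) (J2 p q m (0, o))
    rw [hc0, zero_mul] at h1
    have h2 := (hA (J2 p q m (0, o))).mp h1
    rw [qL, hJo] at h2
    linarith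
  -- the permutation
  have hperm : ∀ i, ∃ j, ∀ᶠ u in 𝓝 (0 : E q × E p × E m), ∃ k : ℝ, k ≠ 0 ∧
      A (RR τ i u) = k • RR τ' j (φ u) := by
    intro i
    obtain ⟨Z, hZ, hZ'⟩ := RR_null (τ := τ) hp hq hm i
    refine image_curv A φ h0 hφ0 hs hs' hl (fun u hu => RR_diff i hu) (RR_mem i) hZ hZ' ?_
    intro h
    have h1 := BL_l0_RR (p := p) (q := q) (m := m) (τ := τ) i
    rw [RR_zero] at h
    fin_cases i <;> simp at h
  choose π hπ using hperm
  have hπ0 : ∀ i, ∃ k : ℝ, k ≠ 0 ∧ A (RR τ i 0) = k • RR τ' (π i) 0 := by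
    intro i
    have := (hπ i).self_of_nhds
    rwa [hφ0] at this
  choose k hk hkA using hπ0
  have c1 : ∀ (x y z : ℕ) (t : ℝ) (i : Fin 3), (RR t i (0 : E y × E x × E z)).2.1 =
      ![(1 : ℝ), 0, -1] i := by
    intro x y z t i
    rw [RR_zero]; fin_cases i <;> rfl
  have c2 : ∀ (x y z : ℕ) (t : ℝ) (i : Fin 3), (RR t i (0 : E y × E x × E z)).2.2.2.1 =
      ![(0 : ℝ), -1, 1] i := by
    intro x y z t i
    rw [RR_zero]; fin_cases i <;> rfl
  have hinj : Function.Injective π := by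
    intro i j hij
    have h1 : A (k j • RR τ i 0) = A (k i • RR τ j 0) := by
      rw [map_smul, map_smul, hkA, hkA, hij, smul_smul, smul_smul, mul_comm]
    have h2 := A.injective h1
    refine indep3 (k := k i) (k' := k j) (hk i) (hk j) ?_ ?_
    · rw [← c1 p q m τ i, ← c1 p q m τ j]
      have := congrArg (fun v => v.2.1) h2
      simpa using this
    · rw [← c2 p q m τ i, ← c2 p q m τ j]
      have := congrArg (fun v => v.2.2.2.1) h2
      simpa using this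
  have hk0 : ∀ i, k i = k 0 := by
    have hsum : RR τ 0 (0 : E q × E p × E m) + RR τ 1 (0 : E q × E p × E m)
        + RR τ 2 (0 : E q × E p × E m) = 0 := by
      change S1 τ (0 : E q × E p × E m) + -S2 τ (0 : E q × E p × E m) +
        (S2 τ (0 : E q × E p × E m) - S1 τ (0 : E q × E p × E m)) = 0
      abel
    have h1 := congrArg A hsum
    rw [map_add, map_add, map_zero, hkA, hkA, hkA] at h1
    refine coef_eq hinj ?_ ?_
    · rw [← c1 p' q' m' τ' (π 0), ← c1 p' q' m' τ' (π 1), ← c1 p' q' m' τ' (π 2)]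
      have := congrArg (fun v => v.2.1) h1
      simpa using this
    · rw [← c2 p' q' m' τ' (π 0), ← c2 p' q' m' τ' (π 1), ← c2 p' q' m' τ' (π 2)]
      have := congrArg (fun v => v.2.2.2.1) h1
      simpa using this
  -- the subspaces
  have hVle : ∀ i, (VV p q m τ i).map (A : Lo p q m →ₗ[ℝ] Lo p' q' m') ≤
      VV p' q' m' τ' (π i) := by
    rintro i _ ⟨v, hv, rfl⟩
    rw [mem_VV]
    have h1 : ∀ᶠ u in 𝓝 (0 : E q × E p × E m),
        BL p' q' m' τ' (A v) (RR τ' (π i) (φ u)) = 0 := by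
      filter_upwards [hπ i, mem_VV.mp hv] with u ⟨k, hk, hkA⟩ hu
      have h2 := hc' v (RR τ i u)
      rw [hu, mul_zero, hkA, map_smul, smul_eq_mul] at h2
      exact (mul_eq_zero.mp h2).resolve_left hk
    have h2 : map φ (𝓝 (0 : E q × E p × E m)) = 𝓝 0 := by
      rw [φ.map_nhds_eq h0, hφ0]
    rw [← h2]
    exact h1
  have hdim : p + q + m = p' + q' + m' := by
    have := A.finrank_eq
    simp only [Module.finrank_prod, finrank_euclideanSpace, Fintype.card_fin,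
      Module.finrank_self] at this
    omega
  have hfle : ∀ i, ![p, q, m] i ≤ ![p', q', m'] (π i) := by
    intro i
    have h1 := Submodule.finrank_mono (hVle i)
    rw [LinearEquiv.finrank_map_eq, finrank_VV hp hq hm, finrank_VV hp' hq' hm'] at h1
    omega
  have hbij : Function.Bijective π := Finite.injective_iff_bijective.mp hinj
  have hsum : ∑ i, ![p, q, m] i = ∑ i, ![p', q', m'] (π i) := by
    have h1 : ∑ i, ![p', q', m'] (π i) = ∑ i, ![p', q', m'] i :=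
      Equiv.sum_comp (Equiv.ofBijective π hbij) _
    rw [h1, Fin.sum_univ_three, Fin.sum_univ_three]
    exact hdim
  have hfeq : ∀ i, ![p, q, m] i = ![p', q', m'] (π i) := by
    have := (Finset.sum_eq_sum_iff_of_le (fun i _ => hfle i)).mp hsum
    exact fun i => this i (Finset.mem_univ i)
  have hVeq : ∀ i, (VV p q m τ i).map (A : Lo p q m →ₗ[ℝ] Lo p' q' m') =
      VV p' q' m' τ' (π i) := by
    intro i
    apply Submodule.eq_of_le_of_finrank_eq (hVle i)
    rw [LinearEquiv.finrank_map_eq, finrank_VV hp hq hm, finrank_VV hp' hq' hm', hfeq]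
  -- the distinguished vector
  obtain ⟨kl, hkl⟩ : ∃ kl : ℝ, A (l0 p q m τ) = kl • l0 p' q' m' τ' := by
    apply l0_unique hp' hq' hm'
    intro j v hv
    obtain ⟨i, rfl⟩ := hbij.2 j
    rw [← hVeq i] at hv
    obtain ⟨v0, hv0, rfl⟩ := hv
    change BL p' q' m' τ' (A (l0 p q m τ)) (A v0) = 0
    rw [hc', l0_perp hp hq hm i hv0, mul_zero]
  have hmain : ∀ i, c * ![-1 - τ, τ, 1] i = kl * k 0 * ![-1 - τ', τ', 1] (π i) := by
    intro i
    rw [← BL_l0_RR (p := p) (q := q) (m := m), ← hc', hkl, hkA, hk0 i, map_smul, map_smul,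
      LinearMap.smul_apply, BL_l0_RR]
    simp only [smul_eq_mul]
    ring
  refine ⟨π, hinj, hfeq, kl * k 0 / c, ?_, fun i => ?_⟩
  · -- sign
    have hpos : 0 < ![-1 - τ', τ', 1] (π 2) := by
      by_contra hneg
      push Not at hneg
      have s1 : ∀ y, 0 ≤ c * BL p q m τ (J2 p q m y) (J2 p q m y) := by
        intro y
        rw [← hc']
        apply VV_semidef hp' hq' hm' (π 2) hneg
        rw [← hVeq 2]
        exact Submodule.mem_map_of_mem (by rw [VV2 hp hq]; exact LinearMap.mem_range_self _ _)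
      have s2 := s1 (1, 0)
      have s3 := s1 (0, o)
      rw [hJ1] at s2
      rw [hJo] at s3
      have s4 : c ≤ 0 := by linarith
      have s5 : 0 ≤ c := by
        by_contra hcc
        push Not at hcc
        have := mul_neg_of_neg_of_pos hcc hno
        linarith
      exact hc0 (le_antisymm s4 s5)
    have h2 := hmain 2
    have h3 : ![-1 - τ, τ, 1] (2 : Fin 3) = 1 := rfl
    rw [h3, mul_one] at h2
    have h4 : kl * k 0 / c * ![-1 - τ', τ', 1] (π 2) = 1 := by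
      rw [div_mul_eq_mul_div, ← h2, div_self hc0]
    by_contra hcon
    push Not at hcon
    have := mul_nonpos_of_nonpos_of_nonneg hcon hpos.le
    linarith
  · have := hmain i
    rw [div_mul_eq_mul_div, ← this, mul_div_cancel_left₀ _ hc0]

end Pool.Agent.Y493.Dupin
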