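import Pool.Agent.Y493.Dupin.Lam

open scoped ContDiff InnerProductSpace Topology
open Set Filter

namespace Pool.Agent.Y493.Dupin

/-- Exchange of the two cyclides. -/
noncomputable def swapE (p q m : ℕ) : Lo p q m ≃ₗ[ℝ] Lo q p m where
  toFun v := (v.2.2.1, v.2.2.2.1, v.1, v.2.1, v.2.2.2.2.2.1, v.2.2.2.2.1, v.2.2.2.2.2.2)
  invFun v := (v.2.2.1, v.2.2.2.1, v.1, v.2.1, v.2.2.2.2.2.1, v.2.2.2.2.1, v.2.2.2.2.2.2)
  map_add' v w := rfl
  map_smul' c v := rfl
  left_inv v := rfl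
  right_inv v := rfl

theorem swapE_apply {p q m : ℕ} (v : Lo p q m) : swapE p q m v =
  (v.2.2.1, v.2.2.2.1, v.1, v.2.1, v.2.2.2.2.2.1, v.2.2.2.2.1, v.2.2.2.2.2.2) := rfl

theorem lam_swap (p q m : ℕ) (τ : ℝ) :
    LieEquivAt (qL p q m τ) (Lam p q m τ) 0 (qL q p m (-1 - τ)) (Lam q p m (-1 - τ)) 0 := by
  have hτ : -1 - (-1 - τ) = τ := by ring
  let C : (E q × E p × E m) ≃L[ℝ] (E p × E q × E m) :=
    (LinearEquiv.toContinuousLinearEquiv
      { toFun := fun u => (u.2.1, u.1, u.2.2)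
        invFun := fun u => (u.2.1, u.1, u.2.2)
        map_add' := fun _ _ => rfl
        map_smul' := fun _ _ => rfl
        left_inv := fun _ => rfl
        right_inv := fun _ => rfl })
  refine LieEquivAt.of_map (swapE p q m) ?_ isOpen_univ (mem_univ _) (f := C)
    C.contDiff.contDiffOn ?_ (map_zero C) ?_
  · intro v
    have : qL q p m (-1 - τ) (swapE p q m v) = qL p q m τ v := by
      rw [qL, qL, swapE_apply, BL_apply, BL_apply, hτ]
      simp only
      ring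
    rw [this]
  · rw [ContinuousLinearEquiv.fderiv]; exact C.bijective
  · intro u _
    rw [Lam, Lam, Submodule.map_span, image_pair, Set.pair_comm]
    have h1 : swapE p q m (S1 τ u) = S2 (-1 - τ) (C u) := by
      rw [S1, S2, swapE_apply, hτ]; rfl
    have h2 : swapE p q m (S2 τ u) = S1 (-1 - τ) (C u) := rfl
    change Submodule.span ℝ {swapE p q m (S2 τ u), swapE p q m (S1 τ u)} = _
    rw [h1, h2]

/-- The isometry exchanging the first cyclide and the tube. -/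
noncomputable def rotE (p q m : ℕ) (τ c : ℝ) (hτ : -1 - τ ≠ 0) (hc : c ≠ 0) :
    Lo p q m ≃ₗ[ℝ] Lo m q p where
  toFun v := (c * (-1 - τ) * (v.2.2.1 - v.1), -c * v.2.1, c * (-1 - τ) * v.2.2.1,
    c * (-τ * v.1 + v.2.1 - (-1 - τ) * v.2.2.1 + v.2.2.2.1),
    -v.2.2.2.2.1, v.2.2.2.2.2.2, v.2.2.2.2.2.1)
  invFun v := ((v.2.2.1 - v.1) / (c * (-1 - τ)), -v.2.1 / c, v.2.2.1 / (c * (-1 - τ)),
    v.2.2.2.1 / c + τ * ((v.2.2.1 - v.1) / (c * (-1 - τ))) + v.2.1 / c + v.2.2.1 / c,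
    -v.2.2.2.2.1, v.2.2.2.2.2.2, v.2.2.2.2.2.1)
  map_add' v w := by
    refine Prod.ext ?_ (Prod.ext ?_ (Prod.ext ?_ (Prod.ext ?_ (Prod.ext ?_ (Prod.ext ?_ ?_)))))
    all_goals simp only [Prod.fst_add, Prod.snd_add]
    all_goals first | ring | module
  map_smul' k v := by
    refine Prod.ext ?_ (Prod.ext ?_ (Prod.ext ?_ (Prod.ext ?_ (Prod.ext ?_ (Prod.ext ?_ ?_)))))
    all_goals simp only [Prod.smul_fst, Prod.smul_snd, smul_eq_mul, RingHom.id_apply]
    all_goals first | ring | module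
  left_inv v := by
    refine Prod.ext ?_ (Prod.ext ?_ (Prod.ext ?_ (Prod.ext ?_ (Prod.ext ?_ (Prod.ext ?_ ?_)))))
    all_goals simp only [neg_neg]
    · field_simp; ring
    · field_simp
    · field_simp
    · field_simp; ring
  right_inv v := by
    refine Prod.ext ?_ (Prod.ext ?_ (Prod.ext ?_ (Prod.ext ?_ (Prod.ext ?_ (Prod.ext ?_ ?_)))))
    all_goals simp only [neg_neg]
    · field_simp; ring
    · field_simp
    · field_simp
    · field_simp; ring

theorem rotE_apply {p q m : ℕ} {τ c : ℝ} (hτ : -1 - τ ≠ 0) (hc : c ≠ 0) (v : Lo p q m) :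
    rotE p q m τ c hτ hc v =
    (c * (-1 - τ) * (v.2.2.1 - v.1), -c * v.2.1, c * (-1 - τ) * v.2.2.1,
    c * (-τ * v.1 + v.2.1 - (-1 - τ) * v.2.2.1 + v.2.2.2.1),
    -v.2.2.2.2.1, v.2.2.2.2.2.2, v.2.2.2.2.2.1) := rfl

theorem lam_rot (p q m : ℕ) {τ : ℝ} (hτ : 0 < -1 - τ) :
    LieEquivAt (qL p q m τ) (Lam p q m τ) 0
      (qL m q p (τ / (-1 - τ))) (Lam m q p (τ / (-1 - τ))) 0 := by
  set s := √(-1 - τ) with hs
  have hs0 : 0 < s := Real.sqrt_pos.mpr hτ
  have hs2 : s ^ 2 = -1 - τ := Real.sq_sqrt hτ.le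
  have hσ' : -1 - τ / (-1 - τ) = 1 / (-1 - τ) := by field_simp; ring
  let C : (E q × E p × E m) ≃L[ℝ] (E q × E m × E p) :=
    (LinearEquiv.toContinuousLinearEquiv
      { toFun := fun u => (s • u.1, s • u.2.2, s • u.2.1)
        invFun := fun u => (s⁻¹ • u.1, s⁻¹ • u.2.2, s⁻¹ • u.2.1)
        map_add' := fun u v => by simp [smul_add]
        map_smul' := fun k v => by simp [smul_comm s k]
        left_inv := fun u => by simp [smul_smul, inv_mul_cancel₀ hs0.ne']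
        right_inv := fun u => by simp [smul_smul, mul_inv_cancel₀ hs0.ne'] })
  have hC : ∀ u, C u = (s • u.1, s • u.2.2, s • u.2.1) := fun u => rfl
  have hopen : IsOpen {u : E q × E p × E m | 0 < 1 + τ * ‖u.1‖ ^ 2} :=
    isOpen_lt continuous_const (by fun_prop)
  refine LieEquivAt.of_map (rotE p q m τ s⁻¹ hτ.ne' (inv_ne_zero hs0.ne')) ?_ hopen
    (by simp) (f := C) C.contDiff.contDiffOn ?_ (map_zero C) ?_
  · intro v
    have : qL m q p (τ / (-1 - τ)) (rotE p q m τ s⁻¹ hτ.ne' (inv_ne_zero hs0.ne') v) =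
        qL p q m τ v := by
      rw [qL, qL, rotE_apply, BL_apply, BL_apply, hσ']
      simp only [inner_neg_left, inner_neg_right, neg_neg]
      have h1 : (-1 - τ) = s ^ 2 := hs2.symm
      have h2 : τ = -1 - s ^ 2 := by linarith
      rw [h1]
      have : s ≠ 0 := hs0.ne'
      field_simp
      rw [h2]
      ring
    rw [this]
  · rw [ContinuousLinearEquiv.fderiv]; exact C.bijective
  · intro u hu
    have hu' : 0 < 1 + τ * ‖u.1‖ ^ 2 := hu
    rw [Lam, Lam, Submodule.map_span, image_pair]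
    obtain ⟨w, z, o⟩ := u
    simp only at hu'
    have n1 : ‖s • w‖ ^ 2 = (-1 - τ) * ‖w‖ ^ 2 := by
      rw [norm_smul, mul_pow, Real.norm_eq_abs, sq_abs, hs2]
    have n2 : ‖s • z‖ ^ 2 = (-1 - τ) * ‖z‖ ^ 2 := by
      rw [norm_smul, mul_pow, Real.norm_eq_abs, sq_abs, hs2]
    have n3 : ‖s • o‖ ^ 2 = (-1 - τ) * ‖o‖ ^ 2 := by
      rw [norm_smul, mul_pow, Real.norm_eq_abs, sq_abs, hs2]
    have r1 : rr (τ / (-1 - τ)) (s • w) = rr τ w := by
      rw [rr, rr, n1]; congr 1; field_simp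
    have r2 : rr 1 (s • z) = rr (-1 - τ) z := by
      rw [rr, rr, n2, one_mul]
    have r3 : rr (-1 - τ / (-1 - τ)) (s • o) = rr 1 o := by
      rw [rr, rr, n3, hσ']; congr 1; field_simp
    have a1 : al (τ / (-1 - τ)) (s • w) = (-1 - τ) * al τ w := by
      rw [al, al, n1, r1]; ring
    have e1 : τ * al τ w = rr τ w - 1 := al_rr hu'.le
    have e2 : (-1 - τ) * al (-1 - τ) z = rr (-1 - τ) z - 1 :=
      al_rr (by positivity)
    have e3 : 1 * al 1 o = rr 1 o - 1 := al_rr (by positivity)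
    have a3 : al (-1 - τ / (-1 - τ)) (s • o) = (-1 - τ) * (rr 1 o - 1) := by
      rw [← e3, al, al, n3, r3]; ring
    have hs' : s ≠ 0 := hs0.ne'
    have f1 : rotE p q m τ s⁻¹ hτ.ne' (inv_ne_zero hs0.ne') (S1 τ (w, z, o)) =
        (-s⁻¹) • S1 (τ / (-1 - τ)) (C (w, z, o)) + s⁻¹ • S2 (τ / (-1 - τ)) (C (w, z, o)) := by
      rw [hC, S1, S1, S2, rotE_apply]
      simp only [r1, r2, r3, a1, a3]
      refine Prod.ext ?_ (Prod.ext ?_ (Prod.ext ?_ (Prod.ext ?_ (Prod.ext ?_ (Prod.ext ?_ ?_)))))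
      · simp only [Prod.smul_mk, Prod.mk_add_mk, smul_eq_mul]
        ring
      · simp only [Prod.smul_mk, Prod.mk_add_mk, smul_eq_mul]
        ring
      · simp only [Prod.smul_mk, Prod.mk_add_mk, smul_eq_mul]
        rw [← e2]; ring
      · simp only [Prod.smul_mk, Prod.mk_add_mk, smul_eq_mul]
        linear_combination (-s⁻¹) * e1
      · simp only [Prod.smul_mk, Prod.mk_add_mk, smul_zero, add_zero, smul_smul]
        rw [neg_mul, inv_mul_cancel₀ hs', neg_smul, one_smul]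
      · simp only [Prod.smul_mk, Prod.mk_add_mk, smul_zero, zero_add, smul_smul]
        rw [inv_mul_cancel₀ hs', one_smul]
      · simp only [Prod.smul_mk, Prod.mk_add_mk]
        module
    have f2 : rotE p q m τ s⁻¹ hτ.ne' (inv_ne_zero hs0.ne') (S2 τ (w, z, o)) =
        (0 : ℝ) • S1 (τ / (-1 - τ)) (C (w, z, o)) + s⁻¹ • S2 (τ / (-1 - τ)) (C (w, z, o)) := by
      rw [hC, S1, S2, S2, rotE_apply]
      simp only [r1, r2, r3, a1, a3]
      refine Prod.ext ?_ (Prod.ext ?_ (Prod.ext ?_ (Prod.ext ?_ (Prod.ext ?_ (Prod.ext ?_ ?_)))))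
      · simp only [Prod.smul_mk, Prod.mk_add_mk, smul_eq_mul]
        rw [← e2]; ring
      · simp only [Prod.smul_mk, Prod.mk_add_mk, smul_eq_mul]
        ring
      · simp only [Prod.smul_mk, Prod.mk_add_mk, smul_eq_mul]
        rw [← e2]; ring
      · simp only [Prod.smul_mk, Prod.mk_add_mk, smul_eq_mul]
        linear_combination (-s⁻¹) * e2
      · simp
      · simp only [Prod.smul_mk, Prod.mk_add_mk, smul_zero, zero_add, smul_smul]
        rw [inv_mul_cancel₀ hs', one_smul]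
      · simp only [Prod.smul_mk, Prod.mk_add_mk, smul_smul, zero_mul, zero_smul, zero_add]
        rw [inv_mul_cancel₀ hs', one_smul]
    change Submodule.span ℝ {rotE p q m τ s⁻¹ hτ.ne' (inv_ne_zero hs0.ne') (S1 τ (w, z, o)),
      rotE p q m τ s⁻¹ hτ.ne' (inv_ne_zero hs0.ne') (S2 τ (w, z, o))} = _
    refine span_pair_eq f1 f2 ?_
    have : s⁻¹ ≠ 0 := inv_ne_zero hs'
    simp [this]

end Pool.Agent.Y493.Dupin
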