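import Pool.Agent.Y493.Dupin.ModelLam
import Pool.Agent.Y493.Dupin.Sym
import Pool.Agent.Y493.Dupin.Ineq

open scoped ContDiff InnerProductSpace Topology
open Set Filter

namespace Pool.Agent.Y493.Dupin

/-- Every abstract model is one of the geometric models. -/
theorem lam_model {p q m : ℕ} (hp : 0 < p) (hq : 0 < q) (hm : 0 < m) (τ : ℝ) :
    ∃ (p' q' : ℕ) (ρ : ℝ), 0 < p' ∧ 0 < q' ∧ p' + q' = p + q ∧ 0 < ρ ∧
      LieEquivAt (qL p q m τ) (Lam p q m τ) 0
        quadR (liftR (modelPt p' q' m ρ) (modelNor p' q' m)) 0 := by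
  rcases lt_or_ge τ 0 with h | h
  · refine ⟨p, q, √(-τ), hp, hq, rfl, Real.sqrt_pos.mpr (by linarith), ?_⟩
    have h1 := model_lam (p := p) (q := q) (m := m) (ρ := √(-τ)) hp hq hm
      (Real.sqrt_pos.mpr (by linarith))
    have h2 : -√(-τ) ^ 2 = τ := by rw [Real.sq_sqrt (by linarith)]; ring
    rw [h2] at h1
    exact h1.symm
  · refine ⟨q, p, √(1 + τ), hq, hp, add_comm _ _, Real.sqrt_pos.mpr (by linarith), ?_⟩
    have h1 := model_lam (p := q) (q := p) (m := m) (ρ := √(1 + τ)) hq hp hm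
      (Real.sqrt_pos.mpr (by linarith))
    have h2 : -√(1 + τ) ^ 2 = -1 - τ := by rw [Real.sq_sqrt (by linarith)]; ring
    rw [h2] at h1
    exact (lam_swap p q m τ).trans h1.symm

/-- Completeness of the list of models. -/
theorem reducible_model {D L : Type*} [NormedAddCommGroup D] [NormedSpace ℝ D] [AddCommGroup L]
    [Module ℝ L] {N : ℕ} {Q : L → ℝ} {l : D → Submodule ℝ L} {a : D}
    (h : IsReducibleAt 2 N Q l a) :
    ∃ (p q m : ℕ) (ρ : ℝ), 0 < p ∧ 0 < q ∧ 0 < m ∧ p + q + m = N ∧ 0 < ρ ∧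
      LieEquivAt Q l a quadR (liftR (modelPt p q m ρ) (modelNor p q m)) 0 := by
  obtain ⟨p, q, m, τ, hp, hq, hm, hN, hL⟩ := reducible_lam h
  obtain ⟨p', q', ρ, hp', hq', hpq, hρ, hM⟩ := lam_model hp hq hm τ
  exact ⟨p', q', m, ρ, hp', hq', hm, by omega, hρ, hL.trans hM⟩

/-- When two models are locally Lie equivalent. -/
theorem model_equiv_iff {p q m p' q' m' : ℕ} (hp : 0 < p) (hq : 0 < q) (hm : 0 < m)
    (hp' : 0 < p') (hq' : 0 < q') (hm' : 0 < m') {ρ ρ' : ℝ} (hρ : 0 < ρ) (hρ' : 0 < ρ') :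
    LieEquivAt quadR (liftR (modelPt p q m ρ) (modelNor p q m)) 0
      quadR (liftR (modelPt p' q' m' ρ') (modelNor p' q' m')) 0 ↔
    (p' = p ∧ q' = q ∧ m' = m ∧ ρ' = ρ) ∨
    (p' = q ∧ q' = p ∧ m' = m ∧ ρ ^ 2 + ρ' ^ 2 = 1) ∨
    (p' = m ∧ q' = q ∧ m' = p ∧ 1 < ρ ∧ (ρ ^ 2 - 1) * (ρ' ^ 2 - 1) = 1) := by
  have hM := model_lam (p := p) (q := q) (m := m) hp hq hm hρ
  have hM' := model_lam (p := p') (q := q') (m := m') hp' hq' hm' hρ'
  have hρ2 : 0 < ρ ^ 2 := by positivity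
  have hρ'2 : 0 < ρ' ^ 2 := by positivity
  constructor
  · intro h
    obtain ⟨π, hπ, hmul, C, hC, ha⟩ := lam_equiv_inv hp hq hm hp' hq' hm'
      ((hM.symm.trans h).trans hM')
    have a0 := ha 0
    have a1 := ha 1
    have a2 := ha 2
    have m0 := hmul 0
    have m1 := hmul 1
    have m2 := hmul 2
    have n01 : π 0 ≠ π 1 := fun h => absurd (hπ h) (by decide)
    have n02 : π 0 ≠ π 2 := fun h => absurd (hπ h) (by decide)
    have n12 : π 1 ≠ π 2 := fun h => absurd (hπ h) (by decide)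
    generalize π 0 = x at *
    generalize π 1 = y at *
    generalize π 2 = z at *
    clear ha hmul hπ
    simp only [Matrix.cons_val_zero, Matrix.cons_val_one, Matrix.cons_val] at a0 a1 a2 m0 m1 m2
    have hCρ : 0 < C * ρ' ^ 2 := mul_pos hC hρ'2
    fin_cases x <;> fin_cases y <;> fin_cases z <;> simp at n01 n02 n12 a0 a1 a2 m0 m1 m2
    · left
      refine ⟨m0.symm, m1.symm, m2.symm, ?_⟩
      have h1 : ρ' ^ 2 = ρ ^ 2 := by rw [← a2] at a1; linarith
      exact (sq_eq_sq₀ hρ'.le hρ.le).mp h1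
    · exfalso; linarith
    · right; left
      refine ⟨m1.symm, m0.symm, m2.symm, ?_⟩
      rw [← a2] at a0; linarith
    · exfalso; linarith
    · exfalso; linarith
    · right; right
      refine ⟨m2.symm, m1.symm, m0.symm, ?_, ?_⟩
      · nlinarith
      · have h1 : ρ ^ 2 - 1 = C := by linarith
        rw [h1]; linarith
  · rintro (⟨rfl, rfl, rfl, rfl⟩ | ⟨rfl, rfl, rfl, h⟩ | ⟨rfl, rfl, rfl, h1, h⟩)
    · exact LieEquivAt.refl _ _ _
    · have h1 := lam_swap q' p' m' (-ρ ^ 2)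
      have h2 : -1 - -ρ ^ 2 = -ρ' ^ 2 := by linarith
      rw [h2] at h1
      exact (hM.trans h1).trans hM'.symm
    · have h3 : 0 < ρ ^ 2 - 1 := by nlinarith
      have h2 := lam_rot m' q' p' (τ := -ρ ^ 2) (by linarith)
      have h4 : -ρ ^ 2 / (-1 - -ρ ^ 2) = -ρ' ^ 2 := by
        have h5 : -1 - -ρ ^ 2 = ρ ^ 2 - 1 := by ring
        rw [h5, div_eq_iff h3.ne']
        linear_combination h
      rw [h4] at h2
      exact (hM.trans h2).trans hM'.symm

end Pool.Agent.Y493.Dupin
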