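import Pool.Agent.Y493.Dupin.Defs

open scoped ContDiff InnerProductSpace Topology
open Set Filter

namespace Pool.Agent.Y493.Dupin

section
variable {D D' D'' : Type*} [NormedAddCommGroup D] [NormedSpace ℝ D] 
  [NormedAddCommGroup D'] [NormedSpace ℝ D'] 
  [NormedAddCommGroup D''] [NormedSpace ℝ D'']

theorem exists_localDiffeo [FiniteDimensional ℝ D] [FiniteDimensional ℝ D']
    {f : D → D'} {U : Set D} {a : D} (hU : IsOpen U) (ha : a ∈ U)
    (hf : ContDiffOn ℝ ∞ f U) (hb : Function.Bijective (fderiv ℝ f a)) :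
    ∃ φ : OpenPartialHomeomorph D D', a ∈ φ.source ∧ φ.source ⊆ U ∧ (∀ u, φ u = f u) ∧
      ContDiffOn ℝ ∞ φ φ.source ∧ ContDiffOn ℝ ∞ φ.symm φ.target ∧
      ∀ u ∈ φ.source, Function.Bijective (fderiv ℝ f u) := by
  have : CompleteSpace D := FiniteDimensional.complete ℝ D
  have : CompleteSpace D' := FiniteDimensional.complete ℝ D'
  have hfa : ContDiffAt ℝ ∞ f a := hf.contDiffAt (hU.mem_nhds ha)
  let f' : D ≃L[ℝ] D' :=
    (LinearEquiv.ofBijective (fderiv ℝ f a : D →ₗ[ℝ] D') hb).toContinuousLinearEquiv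
  have hf'e : (f' : D →L[ℝ] D') = fderiv ℝ f a := by
    ext v; rfl
  have hf' : HasFDerivAt f (f' : D →L[ℝ] D') a := by
    rw [hf'e]; exact (hfa.differentiableAt (by simp)).hasFDerivAt
  let φ0 := hfa.toOpenPartialHomeomorph f hf' (by simp)
  have hφ0 : (φ0 : D → D') = f := ContDiffAt.toOpenPartialHomeomorph_coe hfa hf' (by simp)
  have ha0 : a ∈ φ0.source := ContDiffAt.mem_toOpenPartialHomeomorph_source hfa hf' (by simp)
  have hcont : ContinuousOn (fderiv ℝ f) U := hf.continuousOn_fderiv_of_isOpen hU (by simp)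
  let R : Set (D →L[ℝ] D') := range ((↑) : (D ≃L[ℝ] D') → D →L[ℝ] D')
  have hR : IsOpen R := ContinuousLinearEquiv.isOpen
  have hW : IsOpen (U ∩ fderiv ℝ f ⁻¹' R) := hcont.isOpen_inter_preimage hU hR
  let φ := φ0.restrOpen _ hW
  have hφ : (φ : D → D') = f := hφ0
  have hsrc : φ.source = φ0.source ∩ (U ∩ fderiv ℝ f ⁻¹' R) := rfl
  refine ⟨φ, ?_, ?_, ?_, ?_, ?_, ?_⟩
  · rw [hsrc]; exact ⟨ha0, ha, ⟨f', hf'e⟩⟩
  · rw [hsrc]; exact fun u hu => hu.2.1
  · intro u; rw [hφ]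
  · rw [hφ]; exact hf.mono (by rw [hsrc]; exact fun u hu => hu.2.1)
  · intro y hy
    have hx : φ.symm y ∈ φ.source := φ.map_target hy
    rw [hsrc] at hx
    obtain ⟨e, he⟩ := hx.2.2
    have hfx : ContDiffAt ℝ ∞ f (φ.symm y) := hf.contDiffAt (hU.mem_nhds hx.2.1)
    refine (φ.contDiffAt_symm (f₀' := e) hy ?_ ?_).contDiffWithinAt
    · rw [hφ, he]; exact (hfx.differentiableAt (by simp)).hasFDerivAt
    · rw [hφ]; exact hfx
  · intro u hu
    rw [hsrc] at hu
    obtain ⟨e, he⟩ := hu.2.2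
    rw [← he]; exact e.bijective

end

section Equiv
variable {D D' D'' L L' L'' : Type*} [NormedAddCommGroup D] [NormedSpace ℝ D] 
  [NormedAddCommGroup D'] [NormedSpace ℝ D'] 
  [NormedAddCommGroup D''] [NormedSpace ℝ D'']
  [AddCommGroup L] [Module ℝ L] [AddCommGroup L'] [Module ℝ L'] [AddCommGroup L''] [Module ℝ L'']
  {q : L → ℝ} {l : D → Submodule ℝ L} {a : D}
  {q' : L' → ℝ} {l' : D' → Submodule ℝ L'} {b : D'}
  {q'' : L'' → ℝ} {l'' : D'' → Submodule ℝ L''} {c : D''}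

theorem LieEquivAt.refl (q : L → ℝ) (l : D → Submodule ℝ L) (a : D) : LieEquivAt q l a q l a := by
  refine ⟨LinearEquiv.refl ℝ L, fun v => Iff.rfl, OpenPartialHomeomorph.refl D, mem_univ _, rfl,
    contDiff_id.contDiffOn, contDiff_id.contDiffOn, fun u _ => ?_⟩
  simp

theorem LieEquivAt.symm (h : LieEquivAt q l a q' l' b) : LieEquivAt q' l' b q l a := by
  obtain ⟨A, hA, φ, ha, hab, h1, h2, h3⟩ := h
  refine ⟨A.symm, fun v => ?_, φ.symm, ?_, ?_, h2, ?_, fun u hu => ?_⟩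
  · have := hA (A.symm v)
    rw [A.apply_symm_apply] at this
    exact this.symm
  · rw [← hab]; exact φ.map_source ha
  · rw [← hab]; exact φ.left_inv ha
  · simpa using h1
  · have hu' : u ∈ φ.target := hu
    have := h3 (φ.symm u) (φ.map_target hu')
    rw [φ.right_inv hu'] at this
    rw [← this, ← Submodule.map_comp]
    have : (A.symm : L' →ₗ[ℝ] L) ∘ₗ (A : L →ₗ[ℝ] L') = LinearMap.id := by ext; simp
    rw [this, Submodule.map_id]

theorem LieEquivAt.trans (h : LieEquivAt q l a q' l' b) (h' : LieEquivAt q' l' b q'' l'' c) :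
    LieEquivAt q l a q'' l'' c := by
  obtain ⟨A, hA, φ, ha, hab, h1, h2, h3⟩ := h
  obtain ⟨A', hA', φ', hb, hbc, h1', h2', h3'⟩ := h'
  refine ⟨A.trans A', fun v => ?_, φ.trans φ', ?_, ?_, ?_, ?_, ?_⟩
  · simp only [LinearEquiv.trans_apply]
    rw [hA', hA]
  · rw [OpenPartialHomeomorph.trans_source]
    exact ⟨ha, by rw [mem_preimage, hab]; exact hb⟩
  · simp [hab, hbc]
  · rw [OpenPartialHomeomorph.coe_trans, OpenPartialHomeomorph.trans_source]
    exact h1'.comp (h1.mono inter_subset_left) (fun x hx => hx.2)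
  · rw [OpenPartialHomeomorph.trans_symm_eq_symm_trans_symm, OpenPartialHomeomorph.trans_target,
      OpenPartialHomeomorph.coe_trans]
    exact h2.comp (h2'.mono inter_subset_left) (fun x hx => hx.2)
  · intro u hu
    rw [OpenPartialHomeomorph.trans_source] at hu
    rw [LinearEquiv.coe_trans, Submodule.map_comp, h3 u hu.1, h3' _ hu.2]
    rfl

theorem LieEquivAt.of_map [FiniteDimensional ℝ D] [FiniteDimensional ℝ D']
    (A : L ≃ₗ[ℝ] L') (hA : ∀ v, q' (A v) = 0 ↔ q v = 0) {f : D → D'} {U : Set D}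
    (hU : IsOpen U) (ha : a ∈ U) (hf : ContDiffOn ℝ ∞ f U)
    (hb : Function.Bijective (fderiv ℝ f a)) (hab : f a = b)
    (hl : ∀ u ∈ U, (l u).map (A : L →ₗ[ℝ] L') = l' (f u)) : LieEquivAt q l a q' l' b := by
  obtain ⟨φ, h1, h2, h3, h4, h5, -⟩ := exists_localDiffeo hU ha hf hb
  refine ⟨A, hA, φ, h1, by rw [h3, hab], h4, h5, fun u hu => ?_⟩
  rw [h3, hl u (h2 hu)]

end Equiv

end Pool.Agent.Y493.Dupin
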