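import Pool.Agent.Y493.Dupin.Lam
import Pool.Agent.Y493.Dupin.Local

open scoped ContDiff InnerProductSpace Topology
open Set Filter

namespace Pool.Agent.Y493.Dupin

section Similar
variable {L L' : Type*} [AddCommGroup L] [Module ℝ L] [AddCommGroup L'] [Module ℝ L']

/-- A linear map carrying null vectors to null vectors is a similarity. -/
theorem similar (B : L →ₗ[ℝ] L →ₗ[ℝ] ℝ) (hB : ∀ v w, B v w = B w v)
    (B' : L' →ₗ[ℝ] L' →ₗ[ℝ] ℝ) (hB' : ∀ v w, B' v w = B' w v) (A : L →ₗ[ℝ] L')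
    (h : ∀ v, B v v = 0 → B' (A v) (A v) = 0) (e f : L) (hee : B e e = 0) (hff : B f f = 0)
    (hef : B e f = -1) : ∃ c : ℝ, ∀ v w, B' (A v) (A w) = c * B v w := by
  have hfe : B f e = -1 := by rw [hB, hef]
  have qe := h e hee
  have qf := h f hff
  have hfe' : B' (A f) (A e) = B' (A e) (A f) := hB' _ _
  -- the key computation
  have key : ∀ x : L, B x e = 0 → B x f = 0 → ∀ s t : ℝ, 2 * (s * t) = B x x →
      B' (A x) (A x) + 2 * s * B' (A x) (A e) + 2 * t * B' (A x) (A f)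
        + 2 * (s * t) * B' (A e) (A f) = 0 := by
    intro x hxe hxf s t hst
    have hex : B e x = 0 := by rw [hB, hxe]
    have hfx : B f x = 0 := by rw [hB, hxf]
    have h0 : B (x + s • e + t • f) (x + s • e + t • f) = 0 := by
      simp only [map_add, map_smul, LinearMap.add_apply, LinearMap.smul_apply, smul_eq_mul, hxe,
        hxf, hex, hfx, hee, hff, hef, hfe]
      linarith
    have h1 := h _ h0
    have hex' : B' (A e) (A x) = B' (A x) (A e) := hB' _ _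
    have hfx' : B' (A f) (A x) = B' (A x) (A f) := hB' _ _
    simp only [map_add, map_smul, LinearMap.add_apply, LinearMap.smul_apply, smul_eq_mul, qe, qf,
      hfe', hex', hfx'] at h1
    linarith
  set c : ℝ := -B' (A e) (A f) with hc
  have hx : ∀ x : L, B x e = 0 → B x f = 0 →
      B' (A x) (A x) = c * B x x ∧ B' (A x) (A e) = 0 ∧ B' (A x) (A f) = 0 := by
    intro x hxe hxf
    have k1 := key x hxe hxf 1 (B x x / 2) (by ring)
    have k2 := key x hxe hxf (-1) (-B x x / 2) (by ring)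
    have k3 := key x hxe hxf 2 (B x x / 4) (by ring)
    have k4 := key x hxe hxf (B x x / 2) 1 (by ring)
    have k5 := key x hxe hxf (-B x x / 2) (-1) (by ring)
    have k6 := key x hxe hxf (B x x / 4) 2 (by ring)
    refine ⟨?_, ?_, ?_⟩
    · rw [hc]; linarith
    · linarith
    · linarith
  have hq : ∀ v, B' (A v) (A v) = c * B v v := by
    intro v
    set s := -B v f with hs
    set t := -B v e with ht
    set x := v - s • e - t • f with hxd
    have hxe : B x e = 0 := by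
      rw [hxd]
      simp only [map_sub, map_smul, LinearMap.sub_apply, LinearMap.smul_apply, smul_eq_mul, hee,
        hfe]
      linarith
    have hxf : B x f = 0 := by
      rw [hxd]
      simp only [map_sub, map_smul, LinearMap.sub_apply, LinearMap.smul_apply, smul_eq_mul, hff,
        hef]
      linarith
    have hv : v = x + s • e + t • f := by rw [hxd]; abel
    obtain ⟨h1, h2, h3⟩ := hx x hxe hxf
    have hex : B e x = 0 := by rw [hB, hxe]
    have hfx : B f x = 0 := by rw [hB, hxf]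
    have hex' : B' (A e) (A x) = 0 := by rw [hB', h2]
    have hfx' : B' (A f) (A x) = 0 := by rw [hB', h3]
    have hefc : B' (A e) (A f) = -c := by rw [hc]; ring
    rw [hv]
    simp only [map_add, map_smul, LinearMap.add_apply, LinearMap.smul_apply, smul_eq_mul, qe, qf,
      hfe', h1, h2, h3, hex, hfx, hex', hfx', hee, hff, hef, hfe, hxe, hxf, hefc]
    ring
  refine ⟨c, fun v w => ?_⟩
  have h1 := hq (v + w)
  have h2 := hq v
  have h3 := hq w
  simp only [map_add, LinearMap.add_apply] at h1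
  rw [hB' (A w) (A v), hB w v, h2, h3] at h1
  linarith

end Similar

/-- The region where the square roots are smooth. -/
def Good {p q m : ℕ} (τ : ℝ) : Set (E q × E p × E m) :=
  {u | 0 < 1 + τ * ‖u.1‖ ^ 2 ∧ 0 < 1 + (-1 - τ) * ‖u.2.1‖ ^ 2}

theorem isOpen_Good {p q m : ℕ} (τ : ℝ) : IsOpen (Good (p := p) (q := q) (m := m) τ) := by
  have h1 : IsOpen {u : E q × E p × E m | 0 < 1 + τ * ‖u.1‖ ^ 2} :=
    isOpen_lt continuous_const (by fun_prop)
  have h2 : IsOpen {u : E q × E p × E m | 0 < 1 + (-1 - τ) * ‖u.2.1‖ ^ 2} :=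
    isOpen_lt continuous_const (by fun_prop)
  exact h1.inter h2

theorem zero_mem_Good {p q m : ℕ} (τ : ℝ) : (0 : E q × E p × E m) ∈ Good τ := by
  simp [Good]

theorem rr_diff {n : ℕ} {τ : ℝ} {w : E n} (h : 0 < 1 + τ * ‖w‖ ^ 2) :
    DifferentiableAt ℝ (rr τ) w ∧ ∀ v, rr τ w * fderiv ℝ (rr τ) w v = τ * ⟪w, v⟫_ℝ := by
  have h1 : HasFDerivAt (fun w : E n => 1 + τ * ‖w‖ ^ 2) (τ • (2 • innerSL ℝ w)) w := by
    have := ((hasStrictFDerivAt_norm_sq w).hasFDerivAt.const_mul τ).const_add 1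
    simpa using this
  have h2 := h1.sqrt h.ne'
  have h3 : HasFDerivAt (rr τ) _ w := h2
  refine ⟨h3.differentiableAt, fun v => ?_⟩
  rw [h3.fderiv]
  have h4 : rr τ w ≠ 0 := (Real.sqrt_pos.mpr h).ne'
  simp only [_root_.smul_apply, innerSL_apply_apply, smul_eq_mul, nsmul_eq_mul, Nat.cast_ofNat]
  change rr τ w * (1 / (2 * rr τ w) * (τ * (2 * ⟪w, v⟫_ℝ))) = _
  field_simp

theorem rr_pos {n : ℕ} {τ : ℝ} {w : E n} (h : 0 < 1 + τ * ‖w‖ ^ 2) : 0 < rr τ w :=
  Real.sqrt_pos.mpr h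

theorem rr_sq {n : ℕ} {τ : ℝ} {w : E n} (h : 0 < 1 + τ * ‖w‖ ^ 2) :
    rr τ w ^ 2 = 1 + τ * ‖w‖ ^ 2 := Real.sq_sqrt h.le

theorem al_diff {n : ℕ} {τ : ℝ} {w : E n} (h : 0 < 1 + τ * ‖w‖ ^ 2) :
    DifferentiableAt ℝ (al τ) w := by
  have h1 := (rr_diff h).1
  have h2 : DifferentiableAt ℝ (fun w : E n => ‖w‖ ^ 2) w :=
    (hasStrictFDerivAt_norm_sq w).hasFDerivAt.differentiableAt
  have h3 : (1 + rr τ w) ≠ 0 := by have := rr_pos h; positivity
  have h4 : DifferentiableAt ℝ (fun w : E n => 1 + rr τ w) w := h1.const_add 1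
  have h5 := h2.mul (h4.fun_inv h3)
  have h6 : al τ = (fun w : E n => ‖w‖ ^ 2) * (fun w : E n => (1 + rr τ w)⁻¹) := by
    funext w; rw [Pi.mul_apply, al, div_eq_mul_inv]
  rw [h6]; exact h5

theorem one_good {n : ℕ} (w : E n) : 0 < 1 + 1 * ‖w‖ ^ 2 := by positivity

theorem S1_diff {p q m : ℕ} {τ : ℝ} {u : E q × E p × E m} (h : u ∈ Good τ) :
    HasFDerivAt (𝕜 := ℝ) (S1 (p := p) (q := q) (m := m) τ)
      (((fderiv ℝ (al τ) u.1 ∘L ContinuousLinearMap.fst ℝ (E q) (E p × E m)) +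
        (fderiv ℝ (rr 1) u.2.2 ∘L ((ContinuousLinearMap.snd ℝ (E p) (E m)) ∘L
          ContinuousLinearMap.snd ℝ (E q) (E p × E m)))).prod
      ((fderiv ℝ (rr τ) u.1 ∘L ContinuousLinearMap.fst ℝ (E q) (E p × E m)).prod
      ((fderiv ℝ (rr 1) u.2.2 ∘L ((ContinuousLinearMap.snd ℝ (E p) (E m)) ∘L
          ContinuousLinearMap.snd ℝ (E q) (E p × E m))).prod
      ((0 : _ →L[ℝ] ℝ).prod ((ContinuousLinearMap.fst ℝ (E q) (E p × E m)).prod
      ((0 : _ →L[ℝ] E p).prod ((ContinuousLinearMap.snd ℝ (E p) (E m)) ∘L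
          ContinuousLinearMap.snd ℝ (E q) (E p × E m)))))))) u := by
  have h1 : HasFDerivAt (fun u : E q × E p × E m => al τ u.1)
      (fderiv ℝ (al τ) u.1 ∘L ContinuousLinearMap.fst ℝ (E q) (E p × E m)) u :=
    HasFDerivAt.comp (g := al τ) u (al_diff h.1).hasFDerivAt hasFDerivAt_fst
  have h2 : HasFDerivAt (fun u : E q × E p × E m => rr τ u.1)
      (fderiv ℝ (rr τ) u.1 ∘L ContinuousLinearMap.fst ℝ (E q) (E p × E m)) u :=
    HasFDerivAt.comp (g := rr τ) u (rr_diff h.1).1.hasFDerivAt hasFDerivAt_fst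
  have h0 : HasFDerivAt (fun u : E q × E p × E m => u.2.2)
      ((ContinuousLinearMap.snd ℝ (E p) (E m)) ∘L
          ContinuousLinearMap.snd ℝ (E q) (E p × E m)) u :=
    HasFDerivAt.comp (g := Prod.snd) u hasFDerivAt_snd hasFDerivAt_snd
  have h3 : HasFDerivAt (fun u : E q × E p × E m => rr 1 u.2.2)
      (fderiv ℝ (rr 1) u.2.2 ∘L ((ContinuousLinearMap.snd ℝ (E p) (E m)) ∘L
          ContinuousLinearMap.snd ℝ (E q) (E p × E m))) u :=
    HasFDerivAt.comp (g := rr 1) u (rr_diff (one_good _)).1.hasFDerivAt h0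
  exact (h1.add (h3.sub_const 1)).prodMk (h2.prodMk ((h3.sub_const 1).prodMk
    ((hasFDerivAt_const (0 : ℝ) u).prodMk (hasFDerivAt_fst.prodMk
    ((hasFDerivAt_const (0 : E p) u).prodMk h0)))))

theorem S2_diff {p q m : ℕ} {τ : ℝ} {u : E q × E p × E m} (h : u ∈ Good τ) :
    HasFDerivAt (𝕜 := ℝ) (S2 (p := p) (q := q) (m := m) τ)
      ((fderiv ℝ (rr 1) u.2.2 ∘L ((ContinuousLinearMap.snd ℝ (E p) (E m)) ∘L
          ContinuousLinearMap.snd ℝ (E q) (E p × E m))).prod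
      ((0 : _ →L[ℝ] ℝ).prod
      (((fderiv ℝ (al (-1 - τ)) u.2.1 ∘L ((ContinuousLinearMap.fst ℝ (E p) (E m)) ∘L
          ContinuousLinearMap.snd ℝ (E q) (E p × E m))) +
        (fderiv ℝ (rr 1) u.2.2 ∘L ((ContinuousLinearMap.snd ℝ (E p) (E m)) ∘L
          ContinuousLinearMap.snd ℝ (E q) (E p × E m)))).prod
      ((fderiv ℝ (rr (-1 - τ)) u.2.1 ∘L ((ContinuousLinearMap.fst ℝ (E p) (E m)) ∘L
          ContinuousLinearMap.snd ℝ (E q) (E p × E m))).prod
      ((0 : _ →L[ℝ] E q).prod (((ContinuousLinearMap.fst ℝ (E p) (E m)) ∘L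
          ContinuousLinearMap.snd ℝ (E q) (E p × E m)).prod
        ((ContinuousLinearMap.snd ℝ (E p) (E m)) ∘L
          ContinuousLinearMap.snd ℝ (E q) (E p × E m)))))))) u := by
  have h0 : HasFDerivAt (fun u : E q × E p × E m => u.2.2)
      ((ContinuousLinearMap.snd ℝ (E p) (E m)) ∘L
          ContinuousLinearMap.snd ℝ (E q) (E p × E m)) u :=
    HasFDerivAt.comp (g := Prod.snd) u hasFDerivAt_snd hasFDerivAt_snd
  have h0' : HasFDerivAt (fun u : E q × E p × E m => u.2.1)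
      ((ContinuousLinearMap.fst ℝ (E p) (E m)) ∘L
          ContinuousLinearMap.snd ℝ (E q) (E p × E m)) u :=
    HasFDerivAt.comp (g := Prod.fst) u hasFDerivAt_fst hasFDerivAt_snd
  have h1 : HasFDerivAt (fun u : E q × E p × E m => al (-1 - τ) u.2.1)
      (fderiv ℝ (al (-1 - τ)) u.2.1 ∘L ((ContinuousLinearMap.fst ℝ (E p) (E m)) ∘L
          ContinuousLinearMap.snd ℝ (E q) (E p × E m))) u :=
    HasFDerivAt.comp (g := al (-1 - τ)) u (al_diff h.2).hasFDerivAt h0'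
  have h2 : HasFDerivAt (fun u : E q × E p × E m => rr (-1 - τ) u.2.1)
      (fderiv ℝ (rr (-1 - τ)) u.2.1 ∘L ((ContinuousLinearMap.fst ℝ (E p) (E m)) ∘L
          ContinuousLinearMap.snd ℝ (E q) (E p × E m))) u :=
    HasFDerivAt.comp (g := rr (-1 - τ)) u (rr_diff h.2).1.hasFDerivAt h0'
  have h3 : HasFDerivAt (fun u : E q × E p × E m => rr 1 u.2.2)
      (fderiv ℝ (rr 1) u.2.2 ∘L ((ContinuousLinearMap.snd ℝ (E p) (E m)) ∘L
          ContinuousLinearMap.snd ℝ (E q) (E p × E m))) u :=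
    HasFDerivAt.comp (g := rr 1) u (rr_diff (one_good _)).1.hasFDerivAt h0
  exact (h3.sub_const 1).prodMk ((hasFDerivAt_const (0 : ℝ) u).prodMk
    ((h1.add (h3.sub_const 1)).prodMk (h2.prodMk ((hasFDerivAt_const (0 : E q) u).prodMk
    (h0'.prodMk h0)))))

theorem S1_fderiv {p q m : ℕ} {τ : ℝ} {u : E q × E p × E m} (h : u ∈ Good τ)
    (X : E q × E p × E m) : fderiv ℝ (S1 (p := p) (q := q) (m := m) τ) u X =
      (fderiv ℝ (al τ) u.1 X.1 + fderiv ℝ (rr 1) u.2.2 X.2.2, fderiv ℝ (rr τ) u.1 X.1,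
        fderiv ℝ (rr 1) u.2.2 X.2.2, 0, X.1, 0, X.2.2) := by
  rw [(S1_diff h).fderiv]; rfl

theorem S2_fderiv {p q m : ℕ} {τ : ℝ} {u : E q × E p × E m} (h : u ∈ Good τ)
    (X : E q × E p × E m) : fderiv ℝ (S2 (p := p) (q := q) (m := m) τ) u X =
      (fderiv ℝ (rr 1) u.2.2 X.2.2, 0, fderiv ℝ (al (-1 - τ)) u.2.1 X.2.1 +
        fderiv ℝ (rr 1) u.2.2 X.2.2, fderiv ℝ (rr (-1 - τ)) u.2.1 X.2.1, 0, X.2.1, X.2.2) := by
  rw [(S2_diff h).fderiv]; rfl

/-- The curvature spheres of the abstract model. -/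
theorem curv_key {p q m : ℕ} {τ : ℝ} {u : E q × E p × E m} (h : u ∈ Good τ)
    (X : E q × E p × E m) (hX : X ≠ 0) {a b l μ : ℝ}
    (hh : a • fderiv ℝ (S1 (p := p) (q := q) (m := m) τ) u X
      + b • fderiv ℝ (S2 (p := p) (q := q) (m := m) τ) u X = l • S1 τ u + μ • S2 τ u) :
    a = 0 ∨ b = 0 ∨ a + b = 0 := by
  rw [S1_fderiv h, S2_fderiv h, S1, S2] at hh
  simp only [Prod.smul_mk, Prod.mk_add_mk, smul_eq_mul, Prod.mk.injEq, mul_zero, add_zero,
    zero_add, smul_zero] at hh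
  obtain ⟨-, h2, -, h4, h5, h6, h7⟩ := hh
  obtain ⟨-, k1⟩ := rr_diff h.1
  obtain ⟨-, k2⟩ := rr_diff h.2
  have r1 := rr_sq h.1
  have r2 := rr_sq h.2
  have hl : l = 0 := by
    have e1 := k1 X.1
    have e2 : a * (τ * ⟪u.1, X.1⟫_ℝ) = l * (rr τ u.1 ^ 2) := by
      rw [← e1]; linear_combination rr τ u.1 * h2
    have e3 : a * ⟪u.1, X.1⟫_ℝ = l * ‖u.1‖ ^ 2 := by
      have := congrArg (fun z => ⟪u.1, z⟫_ℝ) h5
      simp only [inner_smul_right, real_inner_self_eq_norm_sq] at this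
      exact this
    rw [r1] at e2
    linear_combination (-1) * e2 + τ * e3
  have hμ : μ = 0 := by
    have e1 := k2 X.2.1
    have e2 : b * ((-1 - τ) * ⟪u.2.1, X.2.1⟫_ℝ) = μ * (rr (-1 - τ) u.2.1 ^ 2) := by
      rw [← e1]; linear_combination rr (-1 - τ) u.2.1 * h4
    have e3 : b * ⟪u.2.1, X.2.1⟫_ℝ = μ * ‖u.2.1‖ ^ 2 := by
      have := congrArg (fun z => ⟪u.2.1, z⟫_ℝ) h6
      simp only [inner_smul_right, real_inner_self_eq_norm_sq] at this
      exact this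
    rw [r2] at e2
    linear_combination (-1) * e2 + (-1 - τ) * e3
  rw [hl, zero_smul] at h5
  rw [hμ, zero_smul] at h6
  rw [hl, hμ, zero_smul, add_zero, ← add_smul] at h7
  by_contra hcon
  push Not at hcon
  obtain ⟨ha, hb, hab⟩ := hcon
  apply hX
  refine Prod.ext ?_ (Prod.ext ?_ ?_)
  · exact (smul_eq_zero.mp h5).resolve_left ha
  · exact (smul_eq_zero.mp h6).resolve_left hb
  · exact (smul_eq_zero.mp h7).resolve_left hab

end Pool.Agent.Y493.Dupin
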