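import Pool.Agent.Y493.Dupin.Base

open scoped ContDiff InnerProductSpace Topology

namespace Pool.Agent.Y493.Dupin

/-- Euclidean space `ℝⁿ`. -/
abbrev E (n : ℕ) : Type := EuclideanSpace ℝ (Fin n)

/-- The germ at `a` of the Legendre map `l` of a hypersurface of dimension `N` is reducible to `g`
principal curvatures: it is locally Lie equivalent to an open piece `(y, η)` of a tube of some
radius `r ≠ 0` in `ℝ^(N+1)` over a proper Dupin hypersurface `(x, ν)` with `g` principal curvatures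
in some `ℝ^(d+1)`, `d < N`, this piece being a proper Dupin hypersurface with `g + 1` principal
curvatures. -/
def IsReducibleAt {D L : Type*} [NormedAddCommGroup D] [NormedSpace ℝ D] [AddCommGroup L]
    [Module ℝ L] (g N : ℕ) (q : L → ℝ) (l : D → Submodule ℝ L) (a : D) : Prop :=
  ∃ (d : ℕ) (U : Set (E d)) (x ν : E d → E (d + 1)) (V : Set (E N)) (y η : E N → E (N + 1))
    (ι : E (d + 1) →ₗᵢ[ℝ] E (N + 1)) (r : ℝ) (b : E N),
    d < N ∧ IsHyp U x ν ∧ IsProperDupin g U x ν ∧ IsHyp V y η ∧ IsProperDupin (g + 1) V y η ∧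
    r ≠ 0 ∧ IsTube r ι U x V y η ∧ b ∈ V ∧ LieEquivAt q l a quadR (liftR y η) b

section Models

variable {D F : Type*} [NormedAddCommGroup D] [NormedSpace ℝ D]
  [NormedAddCommGroup F] [InnerProductSpace ℝ F]

/-- `√(1 - |s|²)`. -/
noncomputable def co {m : ℕ} (s : E m) : ℝ := √(1 - ‖s‖ ^ 2)

/-- Unit sphere cap `w ↦ (√(1 - |w|²), w)` in `ℝ × ℝ^q`; it is its own outer unit normal. -/
noncomputable def cap (q : ℕ) (w : E q) : WithLp 2 (ℝ × E q) := WithLp.toLp 2 (co w, w)

/-- Tube of radius `r` over `(x, ν)` placed in `F × ℝ^m`: position. -/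
noncomputable def tubePt (r : ℝ) (m : ℕ) (x ν : D → F) (v : D × E m) : WithLp 2 (F × E m) :=
  WithLp.toLp 2 (x v.1 + (r * co v.2) • ν v.1, r • v.2)

/-- Tube over `(x, ν)` placed in `F × ℝ^m`: unit normal. -/
noncomputable def tubeNor (m : ℕ) (ν : D → F) (v : D × E m) : WithLp 2 (F × E m) :=
  WithLp.toLp 2 (co v.2 • ν v.1, v.2)

/-- The model hypersurface: tube of radius `1` over the tube of radius `ρ` over the unit sphere
of `ℝ^(q+1)`, taken first in `ℝ^(q+1+p)` and then in `ℝ^(q+1+p+m)`: position. -/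
noncomputable def modelPt (p q m : ℕ) (ρ : ℝ) :
    (E q × E p) × E m → WithLp 2 (WithLp 2 (WithLp 2 (ℝ × E q) × E p) × E m) :=
  tubePt 1 m (tubePt ρ p (cap q) (cap q)) (tubeNor p (cap q))

/-- The model hypersurface: unit normal. -/
noncomputable def modelNor (p q m : ℕ) :
    (E q × E p) × E m → WithLp 2 (WithLp 2 (WithLp 2 (ℝ × E q) × E p) × E m) :=
  tubeNor m (tubeNor p (cap q))

/-- Domain of the models. -/
def Dom (p q m : ℕ) : Set ((E q × E p) × E m) :=
  (Metric.ball 0 1 ×ˢ Metric.ball 0 1) ×ˢ Metric.ball 0 1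

/-- Legendre lift of the model. -/
noncomputable def modelLift (p q m : ℕ) (ρ : ℝ) : (E q × E p) × E m →
    Submodule ℝ (ℝ × ℝ × WithLp 2 (WithLp 2 (WithLp 2 (ℝ × E q) × E p) × E m) × ℝ) :=
  liftR (modelPt p q m ρ) (modelNor p q m)

end Models

end Pool.Agent.Y493.Dupin
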