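import Pool.Agent.Y493.Dupin.WHyp

open scoped ContDiff InnerProductSpace Topology
open Set Filter

namespace Pool.Agent.Y493.Dupin

/-- The abstract Lie space. -/
abbrev Lo (p q m : ℕ) : Type := ℝ × ℝ × ℝ × ℝ × E q × E p × E m

/-- The abstract Lie form. -/
noncomputable def BL (p q m : ℕ) (τ : ℝ) : Lo p q m →ₗ[ℝ] Lo p q m →ₗ[ℝ] ℝ :=
  LinearMap.mk₂ ℝ (fun v v' => τ * (v.1 * v'.1) - v.1 * v'.2.1 - v.2.1 * v'.1
    + (-1 - τ) * (v.2.2.1 * v'.2.2.1) - v.2.2.1 * v'.2.2.2.1 - v.2.2.2.1 * v'.2.2.1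
    + ⟪v.2.2.2.2.1, v'.2.2.2.2.1⟫_ℝ + ⟪v.2.2.2.2.2.1, v'.2.2.2.2.2.1⟫_ℝ
    + ⟪v.2.2.2.2.2.2, v'.2.2.2.2.2.2⟫_ℝ)
    (by intro v v' w; simp only [Prod.fst_add, Prod.snd_add, inner_add_left]; ring)
    (by intro c v w; simp only [Prod.smul_fst, Prod.smul_snd, smul_eq_mul, real_inner_smul_left]; ring)
    (by intro v w w'; simp only [Prod.fst_add, Prod.snd_add, inner_add_right]; ring)
    (by intro c v w; simp only [Prod.smul_fst, Prod.smul_snd, smul_eq_mul, real_inner_smul_right]; ring)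

theorem BL_apply {p q m : ℕ} (τ : ℝ) (v v' : Lo p q m) : BL p q m τ v v' =
    τ * (v.1 * v'.1) - v.1 * v'.2.1 - v.2.1 * v'.1
    + (-1 - τ) * (v.2.2.1 * v'.2.2.1) - v.2.2.1 * v'.2.2.2.1 - v.2.2.2.1 * v'.2.2.1
    + ⟪v.2.2.2.2.1, v'.2.2.2.2.1⟫_ℝ + ⟪v.2.2.2.2.2.1, v'.2.2.2.2.2.1⟫_ℝ
    + ⟪v.2.2.2.2.2.2, v'.2.2.2.2.2.2⟫_ℝ := rfl

theorem BL_symm {p q m : ℕ} (τ : ℝ) (v w : Lo p q m) : BL p q m τ v w = BL p q m τ w v := by
  rw [BL_apply, BL_apply, real_inner_comm v.2.2.2.2.1, real_inner_comm v.2.2.2.2.2.1,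
    real_inner_comm v.2.2.2.2.2.2]
  ring

theorem BL_nondeg {p q m : ℕ} (τ : ℝ) (v : Lo p q m) (h : ∀ w, BL p q m τ v w = 0) : v = 0 := by
  obtain ⟨a, b, c, d, w, z, o⟩ := v
  have h1 := h (0, 1, 0, 0, 0, 0, 0)
  have h2 := h (1, 0, 0, 0, 0, 0, 0)
  have h3 := h (0, 0, 0, 1, 0, 0, 0)
  have h4 := h (0, 0, 1, 0, 0, 0, 0)
  have h5 := h (0, 0, 0, 0, w, 0, 0)
  have h6 := h (0, 0, 0, 0, 0, z, 0)
  have h7 := h (0, 0, 0, 0, 0, 0, o)
  simp only [BL_apply, mul_zero, mul_one, sub_zero, zero_sub, inner_zero_right,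
    add_zero, zero_add, real_inner_self_eq_norm_sq] at h1 h2 h3 h4 h5 h6 h7
  have e1 : a = 0 := by linarith
  have e3 : c = 0 := by linarith
  have e2 : b = 0 := by rw [e1] at h2; linarith
  have e4 : d = 0 := by rw [e3] at h4; linarith
  have e5 : ‖w‖ = 0 := by
    rw [← sq_eq_zero_iff]; linarith
  have e6 : ‖z‖ = 0 := by
    rw [← sq_eq_zero_iff]; linarith
  have e7 : ‖o‖ = 0 := by
    rw [← sq_eq_zero_iff]; linarith
  rw [norm_eq_zero] at e5 e6 e7
  rw [e1, e2, e3, e4, e5, e6, e7]; rfl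

/-- The quadratic form. -/
noncomputable def qL (p q m : ℕ) (τ : ℝ) (v : Lo p q m) : ℝ := BL p q m τ v v

noncomputable def S1 {p q m : ℕ} (τ : ℝ) (u : E q × E p × E m) : Lo p q m :=
  (al τ u.1 + (rr 1 u.2.2 - 1), rr τ u.1, rr 1 u.2.2 - 1, 0, u.1, 0, u.2.2)

noncomputable def S2 {p q m : ℕ} (τ : ℝ) (u : E q × E p × E m) : Lo p q m :=
  (rr 1 u.2.2 - 1, 0, al (-1 - τ) u.2.1 + (rr 1 u.2.2 - 1), rr (-1 - τ) u.2.1, 0, u.2.1, u.2.2)

/-- The abstract Legendre map. -/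
noncomputable def Lam (p q m : ℕ) (τ : ℝ) (u : E q × E p × E m) : Submodule ℝ (Lo p q m) :=
  Submodule.span ℝ {S1 τ u, S2 τ u}

theorem rr_zero {n : ℕ} (τ : ℝ) : rr τ (0 : E n) = 1 := by simp [rr]
theorem al_zero {n : ℕ} (τ : ℝ) : al τ (0 : E n) = 0 := by simp [al]

theorem al_rr {n : ℕ} {τ : ℝ} {w : E n} (h : 0 ≤ 1 + τ * ‖w‖ ^ 2) :
    τ * al τ w = rr τ w - 1 := by
  have h1 : rr τ w ^ 2 = 1 + τ * ‖w‖ ^ 2 := Real.sq_sqrt h
  have h2 : 0 ≤ rr τ w := Real.sqrt_nonneg _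
  have h3 : (1 + rr τ w) ≠ 0 := by positivity
  rw [al, ← mul_div_assoc, div_eq_iff h3]
  linear_combination -h1

theorem span_pair_eq {L : Type*} [AddCommGroup L] [Module ℝ L] {y z y' z' : L} {a b c d : ℝ}
    (h1 : y' = a • y + b • z) (h2 : z' = c • y + d • z) (hdet : a * d - b * c ≠ 0) :
    Submodule.span ℝ {y', z'} = Submodule.span ℝ {y, z} := by
  apply le_antisymm
  · rw [Submodule.span_le]
    rintro v (rfl | rfl)
    · rw [SetLike.mem_coe, Submodule.mem_span_pair]; exact ⟨a, b, h1.symm⟩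
    · rw [SetLike.mem_coe, Submodule.mem_span_pair]; exact ⟨c, d, h2.symm⟩
  · rw [Submodule.span_le]
    rintro v (rfl | rfl)
    · rw [SetLike.mem_coe, Submodule.mem_span_pair]
      refine ⟨d / (a * d - b * c), -b / (a * d - b * c), ?_⟩
      rw [h1, h2]
      simp only [smul_add, smul_smul]
      have e1 : d / (a * d - b * c) * a + -b / (a * d - b * c) * c = 1 := by
        rw [div_mul_eq_mul_div, div_mul_eq_mul_div, ← add_div, div_eq_one_iff_eq hdet]; ring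
      have e2 : d / (a * d - b * c) * b + -b / (a * d - b * c) * d = 0 := by
        field_simp; ring
      calc _ = (d / (a * d - b * c) * a + -b / (a * d - b * c) * c) • v
            + (d / (a * d - b * c) * b + -b / (a * d - b * c) * d) • z := by module
        _ = v := by rw [e1, e2]; simp
    · rw [SetLike.mem_coe, Submodule.mem_span_pair]
      refine ⟨-c / (a * d - b * c), a / (a * d - b * c), ?_⟩
      rw [h1, h2]
      simp only [smul_add, smul_smul]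
      have e1 : -c / (a * d - b * c) * a + a / (a * d - b * c) * c = 0 := by
        field_simp; ring
      have e2 : -c / (a * d - b * c) * b + a / (a * d - b * c) * d = 1 := by
        rw [div_mul_eq_mul_div, div_mul_eq_mul_div, ← add_div, div_eq_one_iff_eq hdet]; ring
      calc _ = (-c / (a * d - b * c) * a + a / (a * d - b * c) * c) • y
            + (-c / (a * d - b * c) * b + a / (a * d - b * c) * d) • v := by module
        _ = v := by rw [e1, e2]; simp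

end Pool.Agent.Y493.Dupin
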