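import Pool.Agent.Y493.Dupin.WHyp

open scoped ContDiff InnerProductSpace Topology
open Set Filter

namespace Pool.Agent.Y493.Dupin

section
variable {D F : Type*} [NormedAddCommGroup D] [NormedSpace ℝ D]
  [NormedAddCommGroup F] [InnerProductSpace ℝ F]

/-- Proper Dupin hypersurface with constant projections to the principal spaces. -/
structure PD (g : ℕ) (U : Set D) (x ν : D → F) (κ : Fin g → D → ℝ)
    (P : Fin g → D →ₗ[ℝ] D) : Prop where
  hyp : IsHyp U x ν
  smooth : ∀ i, ContDiffOn ℝ ∞ (κ i) U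
  inj : ∀ u ∈ U, Function.Injective (fun i => κ i u)
  nonpos : ∀ u ∈ U, ∀ i, κ i u ≤ 0
  sum : ∀ v, ∑ i, P i v = v
  idem : ∀ i v, P i (P i v) = P i v
  orth : ∀ i j, i ≠ j → ∀ v, P i (P j v) = 0
  ne : ∀ i, ∃ v, P i v ≠ 0
  der : ∀ u ∈ U, ∀ i v, fderiv ℝ ν u (P i v) = -(κ i u • fderiv ℝ x u (P i v))
  dup : ∀ u ∈ U, ∀ i v, fderiv ℝ (κ i) u (P i v) = 0

theorem PD.apply_sum {g : ℕ} {U : Set D} {x ν : D → F} {κ : Fin g → D → ℝ}
    {P : Fin g → D →ₗ[ℝ] D} (h : PD g U x ν κ P) (c : Fin g → ℝ) (v : D) (j : Fin g) :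
    P j (∑ i, c i • P i v) = c j • P j v := by
  rw [map_sum, Finset.sum_eq_single j]
  · rw [map_smul, h.idem]
  · intro i _ hij
    rw [map_smul, h.orth j i hij.symm, smul_zero]
  · intro hj; exact absurd (Finset.mem_univ j) hj

theorem PD.mem {g : ℕ} {U : Set D} {x ν : D → F} {κ : Fin g → D → ℝ}
    {P : Fin g → D →ₗ[ℝ] D} (h : PD g U x ν κ P) {u : D} (hu : u ∈ U) (i : Fin g) (v : D) :
    v ∈ principal x ν u (κ i u) ↔ P i v = v := by
  rw [mem_principal]
  constructor
  · intro hv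
    have h1 : fderiv ℝ ν u v = ∑ j, -(κ j u • fderiv ℝ x u (P j v)) := by
      conv_lhs => rw [← h.sum v, map_sum]
      exact Finset.sum_congr rfl fun j _ => h.der u hu j v
    have h2 : -(κ i u • fderiv ℝ x u v) = ∑ j, -(κ i u • fderiv ℝ x u (P j v)) := by
      conv_lhs => rw [← h.sum v, map_sum, Finset.smul_sum]
      rw [← Finset.sum_neg_distrib]
    rw [h1, h2, ← sub_eq_zero, ← Finset.sum_sub_distrib] at hv
    have h3 : fderiv ℝ x u (∑ j, (κ i u - κ j u) • P j v) = 0 := by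
      rw [map_sum, ← hv]
      refine Finset.sum_congr rfl fun j _ => ?_
      rw [map_smul, sub_smul]; abel
    have h4 := h.hyp.immersion u hu (h3.trans (map_zero _).symm)
    have h5 : ∀ j, j ≠ i → P j v = 0 := by
      intro j hj
      have h6 := h.apply_sum (fun j => κ i u - κ j u) v j
      rw [h4, map_zero] at h6
      have h7 := (smul_eq_zero.mp h6.symm).resolve_left
        (sub_ne_zero.mpr fun hh => hj (h.inj u hu hh.symm))
      exact h7
    have h8 := h.sum v
    rw [Finset.sum_eq_single i (fun j _ hj => h5 j hj)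
      (fun hi => absurd (Finset.mem_univ i) hi)] at h8
    exact h8
  · intro hv
    have := h.der u hu i v
    rwa [hv] at this

theorem PD.dupinFns {g : ℕ} {U : Set D} {x ν : D → F} {κ : Fin g → D → ℝ}
    {P : Fin g → D →ₗ[ℝ] D} (h : PD g U x ν κ P) : DupinFns g U x ν κ where
  smooth := h.smooth
  inj := h.inj
  ne := fun u hu i => by
    obtain ⟨v, hv⟩ := h.ne i
    rw [Submodule.ne_bot_iff]
    exact ⟨P i v, (h.mem hu i _).mpr (h.idem i v), hv⟩
  top := fun u hu => by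
    rw [eq_top_iff]
    intro v _
    rw [← h.sum v]
    refine Submodule.sum_mem _ fun i _ => ?_
    exact Submodule.mem_iSup_of_mem i ((h.mem hu i _).mpr (h.idem i v))
  dupin := fun u hu i v hv => by
    rw [← (h.mem hu i v).mp hv]; exact h.dup u hu i v

theorem IsHyp.dx {U : Set D} {x ν : D → F} (h : IsHyp U x ν) {u : D} (hu : u ∈ U) :
    HasFDerivAt x (fderiv ℝ x u) u :=
  ((h.smooth.contDiffAt (h.isOpen.mem_nhds hu)).differentiableAt (by simp)).hasFDerivAt

theorem IsHyp.dν {U : Set D} {x ν : D → F} (h : IsHyp U x ν) {u : D} (hu : u ∈ U) :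
    HasFDerivAt ν (fderiv ℝ ν u) u :=
  ((h.smooth_normal.contDiffAt (h.isOpen.mem_nhds hu)).differentiableAt (by simp)).hasFDerivAt

theorem unit_perp {ν : D → F} {U : Set D} (hU : IsOpen U) (h : ∀ u ∈ U, ‖ν u‖ = 1) {u : D}
    (hu : u ∈ U) (hd : HasFDerivAt ν (fderiv ℝ ν u) u) (v : D) :
    ⟪fderiv ℝ ν u v, ν u⟫_ℝ = 0 := by
  have h1 := hd.norm_sq
  have h2 : HasFDerivAt (fun u => ‖ν u‖ ^ 2) (0 : D →L[ℝ] ℝ) u := by
    refine (hasFDerivAt_const (1 : ℝ) u).congr_of_eventuallyEq ?_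
    filter_upwards [hU.mem_nhds hu] with y hy
    rw [h y hy]; norm_num
  have h3 := congrArg (fun T => T v) (h1.unique h2)
  simp only [_root_.smul_apply, ContinuousLinearMap.comp_apply, innerSL_apply_apply,
    _root_.zero_apply, nsmul_eq_mul, Nat.cast_ofNat] at h3
  rw [real_inner_comm]; linarith

end

section co
variable {m : ℕ}

theorem co_sq {s : E m} (hs : s ∈ Metric.ball (0 : E m) 1) : co s ^ 2 = 1 - ‖s‖ ^ 2 := by
  rw [mem_ball_zero_iff] at hs
  have := norm_nonneg s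
  exact Real.sq_sqrt (by nlinarith)

theorem co_pos {s : E m} (hs : s ∈ Metric.ball (0 : E m) 1) : 0 < co s := by
  rw [mem_ball_zero_iff] at hs
  have := norm_nonneg s
  exact Real.sqrt_pos.mpr (by nlinarith)

theorem co_smooth : ContDiffOn ℝ ∞ (co : E m → ℝ) (Metric.ball 0 1) := by
  unfold co
  apply ContDiffOn.sqrt
  · exact (contDiff_const.sub (contDiff_norm_sq ℝ)).contDiffOn
  · intro s hs
    rw [mem_ball_zero_iff] at hs
    have := norm_nonneg s
    nlinarith

theorem co_diff {s : E m} (hs : s ∈ Metric.ball (0 : E m) 1) :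
    HasFDerivAt (co : E m → ℝ) (fderiv ℝ co s) s :=
  ((co_smooth.contDiffAt (Metric.isOpen_ball.mem_nhds hs)).differentiableAt (by simp)).hasFDerivAt

theorem co_der {s : E m} (hs : s ∈ Metric.ball (0 : E m) 1) (v : E m) :
    co s * fderiv ℝ co s v = -⟪v, s⟫_ℝ := by
  have h1 := (co_diff hs).mul (co_diff hs)
  have h2 : HasFDerivAt (co * co : E m → ℝ) (-(2 • innerSL ℝ s)) s := by
    have h3 : HasFDerivAt (fun s : E m => 1 - ‖s‖ ^ 2) (-(2 • innerSL ℝ s)) s :=
      (hasStrictFDerivAt_norm_sq s).hasFDerivAt.const_sub 1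
    refine h3.congr_of_eventuallyEq ?_
    filter_upwards [Metric.isOpen_ball.mem_nhds hs] with y hy
    rw [Pi.mul_apply, ← co_sq hy, sq]
  have h3 := congrArg (fun T => T v) (h1.unique h2)
  simp only [_root_.add_apply, _root_.smul_apply, _root_.neg_apply, innerSL_apply_apply,
    smul_eq_mul, nsmul_eq_mul, Nat.cast_ofNat] at h3
  rw [real_inner_comm]; linarith

theorem co_zero : co (0 : E m) = 1 := by simp [co]

end co

section tube
variable {D F : Type*} [NormedAddCommGroup D] [NormedSpace ℝ D]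
  [NormedAddCommGroup F] [InnerProductSpace ℝ F]

theorem tubePt_hasFDerivAt {U : Set D} {x ν : D → F} (h : IsHyp U x ν) (r : ℝ) {m : ℕ}
    {v : D × E m} (hv : v ∈ U ×ˢ Metric.ball (0 : E m) 1) :
    DifferentiableAt ℝ (tubePt r m x ν) v ∧ ∀ X, fderiv ℝ (tubePt r m x ν) v X =
      WithLp.toLp 2 (fderiv ℝ x v.1 X.1 + (r * co v.2) • fderiv ℝ ν v.1 X.1 +
        (r * fderiv ℝ co v.2 X.2) • ν v.1, r • X.2) := by
  have h1 : HasFDerivAt (fun v : D × E m => x v.1)
      (fderiv ℝ x v.1 ∘L ContinuousLinearMap.fst ℝ D (E m)) v :=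
    HasFDerivAt.comp (g := x) v (h.dx hv.1) hasFDerivAt_fst
  have h2 : HasFDerivAt (fun v : D × E m => ν v.1)
      (fderiv ℝ ν v.1 ∘L ContinuousLinearMap.fst ℝ D (E m)) v :=
    HasFDerivAt.comp (g := ν) v (h.dν hv.1) hasFDerivAt_fst
  have h3 : HasFDerivAt (fun v : D × E m => co v.2)
      (fderiv ℝ co v.2 ∘L ContinuousLinearMap.snd ℝ D (E m)) v :=
    HasFDerivAt.comp (g := co) v (co_diff hv.2) hasFDerivAt_snd
  have h4 : HasFDerivAt (fun v : D × E m => v.2) (ContinuousLinearMap.snd ℝ D (E m)) v :=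
    hasFDerivAt_snd
  have h5 := (h1.fun_add ((h3.const_mul r).fun_smul h2)).prodMk (h4.fun_const_smul r)
  have h6 := (WithLp.prodContinuousLinearEquiv 2 ℝ F (E m)).symm.toContinuousLinearMap.hasFDerivAt.comp
    v h5
  have h7 : HasFDerivAt (tubePt r m x ν) _ v := h6
  refine ⟨h7.differentiableAt, fun X => ?_⟩
  rw [h7.fderiv]
  simp only [ContinuousLinearMap.comp_apply, ContinuousLinearMap.prod_apply, _root_.add_apply,
    _root_.smul_apply, ContinuousLinearMap.smulRight_apply, ContinuousLinearMap.coe_fst',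
    ContinuousLinearMap.coe_snd', smul_eq_mul, add_assoc]
  rfl

theorem tubeNor_hasFDerivAt {U : Set D} {x ν : D → F} (h : IsHyp U x ν) {m : ℕ}
    {v : D × E m} (hv : v ∈ U ×ˢ Metric.ball (0 : E m) 1) :
    DifferentiableAt ℝ (tubeNor m ν) v ∧ ∀ X, fderiv ℝ (tubeNor m ν) v X =
      WithLp.toLp 2 (co v.2 • fderiv ℝ ν v.1 X.1 +
        (fderiv ℝ co v.2 X.2) • ν v.1, X.2) := by
  have h2 : HasFDerivAt (fun v : D × E m => ν v.1)
      (fderiv ℝ ν v.1 ∘L ContinuousLinearMap.fst ℝ D (E m)) v :=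
    HasFDerivAt.comp (g := ν) v (h.dν hv.1) hasFDerivAt_fst
  have h3 : HasFDerivAt (fun v : D × E m => co v.2)
      (fderiv ℝ co v.2 ∘L ContinuousLinearMap.snd ℝ D (E m)) v :=
    HasFDerivAt.comp (g := co) v (co_diff hv.2) hasFDerivAt_snd
  have h4 : HasFDerivAt (fun v : D × E m => v.2) (ContinuousLinearMap.snd ℝ D (E m)) v :=
    hasFDerivAt_snd
  have h5 := (h3.fun_smul h2).prodMk h4
  have h6 := (WithLp.prodContinuousLinearEquiv 2 ℝ F (E m)).symm.toContinuousLinearMap.hasFDerivAt.comp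
    v h5
  have h7 : HasFDerivAt (tubeNor m ν) _ v := h6
  refine ⟨h7.differentiableAt, fun X => ?_⟩
  rw [h7.fderiv]
  rfl

theorem finrank_withLp {m : ℕ} [FiniteDimensional ℝ F] :
    Module.finrank ℝ (WithLp 2 (F × E m)) = Module.finrank ℝ F + m := by
  rw [(WithLp.linearEquiv 2 ℝ (F × E m)).finrank_eq, Module.finrank_prod]
  simp

/-- The principal curvatures of the tube. -/
noncomputable def tubeK {g : ℕ} (r : ℝ) (m : ℕ) (κ : Fin g → D → ℝ) :
    Fin (g + 1) → D × E m → ℝ :=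
  Fin.cons (fun _ => -1 / r) (fun i v => κ i v.1 * co v.2 * (1 - r * co v.2 * κ i v.1)⁻¹)

/-- The projections for the tube. -/
noncomputable def tubeP {g : ℕ} (m : ℕ) (P : Fin g → D →ₗ[ℝ] D) :
    Fin (g + 1) → D × E m →ₗ[ℝ] D × E m :=
  Fin.cons (LinearMap.inr ℝ D (E m) ∘ₗ LinearMap.snd ℝ D (E m))
    (fun i => LinearMap.inl ℝ D (E m) ∘ₗ P i ∘ₗ LinearMap.fst ℝ D (E m))

theorem PD.tube [FiniteDimensional ℝ D] {g : ℕ} {U : Set D} {x ν : D → F}
    {κ : Fin g → D → ℝ} {P : Fin g → D →ₗ[ℝ] D} (h : PD g U x ν κ P) {r : ℝ} (hr : 0 < r)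
    {m : ℕ} (hm : 0 < m) :
    PD (g + 1) (U ×ˢ Metric.ball (0 : E m) 1) (tubePt r m x ν) (tubeNor m ν)
      (tubeK r m κ) (tubeP m P) := by
  have hFf := h.hyp.fin
  have hopen : IsOpen (U ×ˢ Metric.ball (0 : E m) 1) := h.hyp.isOpen.prod Metric.isOpen_ball
  have hden : ∀ v ∈ U ×ˢ Metric.ball (0 : E m) 1, ∀ i, 0 < 1 - r * co v.2 * κ i v.1 := by
    intro v hv i
    have h1 := co_pos hv.2
    have h2 := h.nonpos v.1 hv.1 i
    have h3 : 0 < r * co v.2 := mul_pos hr h1
    nlinarith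
  have hxs : ContDiffOn ℝ ∞ (fun v : D × E m => x v.1) (U ×ˢ Metric.ball (0 : E m) 1) :=
    h.hyp.smooth.comp contDiff_fst.contDiffOn (fun v hv => hv.1)
  have hνs : ContDiffOn ℝ ∞ (fun v : D × E m => ν v.1) (U ×ˢ Metric.ball (0 : E m) 1) :=
    h.hyp.smooth_normal.comp contDiff_fst.contDiffOn (fun v hv => hv.1)
  have hcs : ContDiffOn ℝ ∞ (fun v : D × E m => co v.2) (U ×ˢ Metric.ball (0 : E m) 1) :=
    co_smooth.comp contDiff_snd.contDiffOn (fun v hv => hv.2)
  have hks : ∀ i, ContDiffOn ℝ ∞ (fun v : D × E m => κ i v.1) (U ×ˢ Metric.ball (0 : E m) 1) :=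
    fun i => (h.smooth i).comp contDiff_fst.contDiffOn (fun v hv => hv.1)
  refine
    { hyp := ⟨hopen, ?_, ?_, ?_, ?_, ?_, ?_⟩
      smooth := ?_
      inj := ?_
      nonpos := ?_
      sum := ?_
      idem := ?_
      orth := ?_
      ne := ?_
      der := ?_
      dup := ?_ }
  · rw [finrank_withLp, h.hyp.codim, Module.finrank_prod]
    simp only [finrank_euclideanSpace, Fintype.card_fin]
    ring
  · exact (WithLp.prodContinuousLinearEquiv 2 ℝ F (E m)).symm.contDiff.comp_contDiffOn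
      ((hxs.add ((contDiffOn_const.mul hcs).smul hνs)).prodMk
        (contDiff_snd.const_smul r).contDiffOn)
  · exact (WithLp.prodContinuousLinearEquiv 2 ℝ F (E m)).symm.contDiff.comp_contDiffOn
      ((hcs.smul hνs).prodMk contDiff_snd.contDiffOn)
  · intro v hv
    rw [injective_iff_map_eq_zero]
    intro X hX
    rw [(tubePt_hasFDerivAt h.hyp r hv).2] at hX
    have h1 : r • X.2 = 0 := congrArg (fun z => (WithLp.ofLp z).2) hX
    have h2 : fderiv ℝ x v.1 X.1 + (r * co v.2) • fderiv ℝ ν v.1 X.1 +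
        (r * fderiv ℝ co v.2 X.2) • ν v.1 = 0 := congrArg (fun z => (WithLp.ofLp z).1) hX
    have hX2 : X.2 = 0 := (smul_eq_zero.mp h1).resolve_left hr.ne'
    rw [hX2, map_zero, mul_zero, zero_smul, add_zero] at h2
    have h3 : fderiv ℝ x v.1 (∑ i, (1 - r * co v.2 * κ i v.1) • P i X.1) = 0 := by
      rw [← h2]
      conv_rhs => rw [← h.sum X.1, map_sum, map_sum, Finset.smul_sum, ← Finset.sum_add_distrib]
      rw [map_sum]
      refine Finset.sum_congr rfl fun i _ => ?_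
      rw [h.der v.1 hv.1, map_smul]; module
    have h4 := h.hyp.immersion v.1 hv.1 (h3.trans (map_zero _).symm)
    have hX1 : X.1 = 0 := by
      rw [← h.sum X.1]
      refine Finset.sum_eq_zero fun i _ => ?_
      have h6 := h.apply_sum (fun i => 1 - r * co v.2 * κ i v.1) X.1 i
      rw [h4, map_zero] at h6
      exact (smul_eq_zero.mp h6.symm).resolve_left (hden v hv i).ne'
    exact Prod.ext hX1 hX2
  · intro v hv
    have h1 := WithLp.prod_norm_sq_eq_of_L2 (tubeNor m ν v)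
    have h2 : ‖(tubeNor m ν v).fst‖ ^ 2 = co v.2 ^ 2 := by
      change ‖co v.2 • ν v.1‖ ^ 2 = _
      rw [norm_smul, h.hyp.unit v.1 hv.1, mul_one, Real.norm_eq_abs, sq_abs]
    have h3 : ‖(tubeNor m ν v).snd‖ ^ 2 = ‖v.2‖ ^ 2 := rfl
    rw [h2, h3, co_sq hv.2] at h1
    have h4 : ‖tubeNor m ν v‖ ^ 2 = 1 := by rw [h1]; ring
    have h5 := norm_nonneg (tubeNor m ν v)
    nlinarith
  · intro v hv X
    rw [(tubePt_hasFDerivAt h.hyp r hv).2, WithLp.prod_inner_apply]
    change ⟪fderiv ℝ x v.1 X.1 + (r * co v.2) • fderiv ℝ ν v.1 X.1 +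
        (r * fderiv ℝ co v.2 X.2) • ν v.1, co v.2 • ν v.1⟫_ℝ + ⟪r • X.2, v.2⟫_ℝ = 0
    have h1 := h.hyp.normal v.1 hv.1 X.1
    have h2 := unit_perp h.hyp.isOpen h.hyp.unit hv.1 (h.hyp.dν hv.1) X.1
    have h3 := co_der hv.2 X.2
    simp only [inner_add_left, inner_smul_left, inner_smul_right, h1, h2,
      real_inner_self_eq_norm_sq, h.hyp.unit v.1 hv.1]
    simp only [conj_trivial]
    linear_combination r * h3
  · intro i
    refine Fin.cases ?_ (fun i => ?_) i
    · exact contDiffOn_const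
    · exact ((hks i).mul hcs).mul
        ((contDiffOn_const.sub ((contDiffOn_const.mul hcs).mul (hks i))).inv
          (fun v hv => (hden v hv i).ne'))
  · intro v hv i j
    have hc := co_pos hv.2
    have key : ∀ i, κ i v.1 * co v.2 * (1 - r * co v.2 * κ i v.1)⁻¹ ≠ -1 / r := by
      intro i hh
      have h1 := (hden v hv i).ne'
      have h2 : κ i v.1 * co v.2 = -1 / r * (1 - r * co v.2 * κ i v.1) := by
        rw [← hh, mul_assoc, inv_mul_cancel₀ h1, mul_one]
      have h3 : r * (κ i v.1 * co v.2) = -(1 - r * co v.2 * κ i v.1) := by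
        rw [h2]; field_simp
      linarith
    refine Fin.cases ?_ (fun i => ?_) i <;> refine Fin.cases ?_ (fun j => ?_) j
    · intro _; rfl
    · intro hh; exact absurd hh.symm (key j)
    · intro hh; exact absurd hh (key i)
    · intro hh
      have h1 := (hden v hv i).ne'
      have h2 := (hden v hv j).ne'
      have hh' : κ i v.1 * co v.2 * (1 - r * co v.2 * κ i v.1)⁻¹ =
        κ j v.1 * co v.2 * (1 - r * co v.2 * κ j v.1)⁻¹ := hh
      have h3 : κ i v.1 = κ j v.1 := by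
        rw [← div_eq_mul_inv, ← div_eq_mul_inv, div_eq_div_iff h1 h2] at hh'
        have h4 : co v.2 * (κ i v.1 - κ j v.1) = 0 := by linear_combination hh'
        exact sub_eq_zero.mp ((mul_eq_zero.mp h4).resolve_left hc.ne')
      rw [h.inj v.1 hv.1 h3]
  · intro v hv i
    refine Fin.cases ?_ (fun i => ?_) i
    · change -1 / r ≤ 0
      rw [div_nonpos_iff]; right; constructor <;> linarith
    · change κ i v.1 * co v.2 * (1 - r * co v.2 * κ i v.1)⁻¹ ≤ 0
      have h1 := hden v hv i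
      have h2 := co_pos hv.2
      have h3 := h.nonpos v.1 hv.1 i
      have h4 : κ i v.1 * co v.2 ≤ 0 := mul_nonpos_of_nonpos_of_nonneg h3 h2.le
      exact mul_nonpos_of_nonpos_of_nonneg h4 (inv_pos.mpr h1).le
  · intro v
    rw [Fin.sum_univ_succ]
    have h1 : ∀ i : Fin g, tubeP m P i.succ v = (P i v.1, 0) := fun i => rfl
    have h2 : tubeP m P 0 v = (0, v.2) := rfl
    simp only [h1, h2]
    refine Prod.ext ?_ ?_
    · rw [Prod.fst_add, Prod.fst_sum]
      simp only [h.sum, zero_add]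
    · rw [Prod.snd_add, Prod.snd_sum]
      simp
  · intro i v
    refine Fin.cases ?_ (fun i => ?_) i
    · rfl
    · change ((P i (P i v.1), (0 : E m)) : D × E m) = (P i v.1, 0)
      rw [h.idem]
  · intro i j
    refine Fin.cases ?_ (fun i => ?_) i <;> refine Fin.cases ?_ (fun j => ?_) j
    · intro hh; exact absurd rfl hh
    · intro _ v; rfl
    · intro _ v
      change ((P i 0, (0 : E m)) : D × E m) = 0
      rw [map_zero]; rfl
    · intro hh v
      change ((P i (P j v.1), (0 : E m)) : D × E m) = 0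
      rw [h.orth i j (fun h' => hh (by rw [h'])) v.1]; rfl
  · intro i
    refine Fin.cases ?_ (fun i => ?_) i
    · have i3 : Nonempty (Fin m) := ⟨⟨0, hm⟩⟩
      obtain ⟨o, ho⟩ := exists_ne (0 : E m)
      exact ⟨(0, o), fun hh => ho (Prod.ext_iff.mp hh).2⟩
    · obtain ⟨v, hv⟩ := h.ne i
      exact ⟨(v, 0), fun hh => hv (Prod.ext_iff.mp hh).1⟩
  · intro v hv i X
    rw [(tubePt_hasFDerivAt h.hyp r hv).2, (tubeNor_hasFDerivAt h.hyp hv).2]
    refine Fin.cases ?_ (fun i => ?_) i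
    · change WithLp.toLp 2 (co v.2 • fderiv ℝ ν v.1 0 + (fderiv ℝ co v.2 X.2) • ν v.1, X.2) =
        -((-1 / r) • WithLp.toLp 2 (fderiv ℝ x v.1 0 + (r * co v.2) • fderiv ℝ ν v.1 0 +
        (r * fderiv ℝ co v.2 X.2) • ν v.1, r • X.2))
      rw [← WithLp.toLp_smul, ← WithLp.toLp_neg]
      congr 1
      have hr' := hr.ne'
      refine Prod.ext ?_ ?_
      · simp only [map_zero, smul_zero, zero_add, Prod.fst_neg, Prod.smul_fst, smul_smul]
        rw [← neg_smul]
        congr 1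
        field_simp
      · simp only [Prod.snd_neg, Prod.smul_snd, smul_smul]
        rw [← neg_smul]
        have : -(-1 / r * r) = 1 := by field_simp
        rw [this, one_smul]
    · change WithLp.toLp 2 (co v.2 • fderiv ℝ ν v.1 (P i X.1) + (fderiv ℝ co v.2 0) • ν v.1,
        (0 : E m)) = -((κ i v.1 * co v.2 * (1 - r * co v.2 * κ i v.1)⁻¹) •
        WithLp.toLp 2 (fderiv ℝ x v.1 (P i X.1) + (r * co v.2) • fderiv ℝ ν v.1 (P i X.1) +
        (r * fderiv ℝ co v.2 0) • ν v.1, r • (0 : E m)))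
      rw [← WithLp.toLp_smul, ← WithLp.toLp_neg]
      congr 1
      have h1 := (hden v hv i).ne'
      refine Prod.ext ?_ ?_
      · simp only [map_zero, zero_smul, mul_zero, add_zero, Prod.fst_neg, Prod.smul_fst]
        rw [h.der v.1 hv.1]
        have : fderiv ℝ x v.1 (P i X.1) + (r * co v.2) • -(κ i v.1 • fderiv ℝ x v.1 (P i X.1)) =
          (1 - r * co v.2 * κ i v.1) • fderiv ℝ x v.1 (P i X.1) := by module
        rw [this, smul_smul, mul_assoc, inv_mul_cancel₀ h1]
        module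
      · simp
  · intro v hv i X
    refine Fin.cases ?_ (fun i => ?_) i
    · change fderiv ℝ (fun _ => -1 / r) v _ = 0
      rw [fderiv_const_apply]; rfl
    · have h1 : HasFDerivAt (fun v : D × E m => κ i v.1)
          (fderiv ℝ (κ i) v.1 ∘L ContinuousLinearMap.fst ℝ D (E m)) v :=
        HasFDerivAt.comp (g := κ i) v (((h.smooth i).contDiffAt
          (h.hyp.isOpen.mem_nhds hv.1)).differentiableAt (by simp)).hasFDerivAt hasFDerivAt_fst
      have h3 : HasFDerivAt (fun v : D × E m => co v.2)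
          (fderiv ℝ co v.2 ∘L ContinuousLinearMap.snd ℝ D (E m)) v :=
        HasFDerivAt.comp (g := co) v (co_diff hv.2) hasFDerivAt_snd
      let Gf : ℝ × ℝ → ℝ := fun s => s.1 * s.2 * (1 - r * s.2 * s.1)⁻¹
      have hG : DifferentiableAt ℝ Gf (κ i v.1, co v.2) := by
        have e1 : DifferentiableAt ℝ (fun s : ℝ × ℝ => 1 - r * s.2 * s.1) (κ i v.1, co v.2) := by
          fun_prop
        have e2 : DifferentiableAt ℝ (fun s : ℝ × ℝ => s.1 * s.2) (κ i v.1, co v.2) := by
          fun_prop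
        exact e2.mul (e1.fun_inv (hden v hv i).ne')
      have h4 := HasFDerivAt.comp (g := Gf) v hG.hasFDerivAt (h1.prodMk h3)
      have h5 : HasFDerivAt (tubeK r m κ i.succ) _ v := h4
      rw [h5.fderiv]
      change fderiv ℝ Gf _ (fderiv ℝ (κ i) v.1 (P i X.1), fderiv ℝ co v.2 0) = 0
      rw [h.dup v.1 hv.1, map_zero]
      exact map_zero _

end tube

/-- The unit sphere. -/
theorem PD.sphere {q : ℕ} (hq : 0 < q) :
    PD 1 (Metric.ball (0 : E q) 1) (cap q) (cap q) (fun _ _ => -1) (fun _ => LinearMap.id) := by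
  have hd : ∀ w ∈ Metric.ball (0 : E q) 1, DifferentiableAt ℝ (cap q) w ∧
      ∀ v, fderiv ℝ (cap q) w v = WithLp.toLp 2 (fderiv ℝ co w v, v) := by
    intro w hw
    have h6 := (WithLp.prodContinuousLinearEquiv 2 ℝ ℝ (E q)).symm.toContinuousLinearMap.hasFDerivAt.comp
      w ((co_diff hw).prodMk (hasFDerivAt_id w))
    have h7 : HasFDerivAt (cap q) _ w := h6
    refine ⟨h7.differentiableAt, fun X => ?_⟩
    rw [h7.fderiv]
    rfl
  have hs : ContDiffOn ℝ ∞ (cap q) (Metric.ball (0 : E q) 1) :=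
    (WithLp.prodContinuousLinearEquiv 2 ℝ ℝ (E q)).symm.contDiff.comp_contDiffOn
      (co_smooth.prodMk contDiff_id.contDiffOn)
  have hu : ∀ w ∈ Metric.ball (0 : E q) 1, ‖cap q w‖ = 1 := by
    intro w hw
    have h1 := WithLp.prod_norm_sq_eq_of_L2 (cap q w)
    have h2 : ‖(cap q w).fst‖ ^ 2 = co w ^ 2 := by
      change ‖co w‖ ^ 2 = _
      rw [Real.norm_eq_abs, sq_abs]
    have h3 : ‖(cap q w).snd‖ ^ 2 = ‖w‖ ^ 2 := rfl
    rw [h2, h3, co_sq hw] at h1
    have h4 : ‖cap q w‖ ^ 2 = 1 := by rw [h1]; ring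
    have h5 := norm_nonneg (cap q w)
    nlinarith
  refine
    { hyp := ⟨Metric.isOpen_ball, ?_, hs, hs, ?_, hu, ?_⟩
      smooth := fun i => contDiffOn_const
      inj := fun u _ i j _ => Subsingleton.elim i j
      nonpos := fun u _ i => by norm_num
      sum := fun v => by simp
      idem := fun i v => rfl
      orth := fun i j hij => absurd (Subsingleton.elim i j) hij
      ne := ?_
      der := fun u hu i v => by simp
      dup := fun u hu i v => by simp }
  · rw [finrank_withLp, Module.finrank_self, finrank_euclideanSpace, Fintype.card_fin]; ring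
  · intro w hw
    rw [injective_iff_map_eq_zero]
    intro X hX
    rw [(hd w hw).2] at hX
    exact congrArg (fun z => (WithLp.ofLp z).2) hX
  · intro w hw v
    exact unit_perp Metric.isOpen_ball hu hw (hd w hw).1.hasFDerivAt v
  · intro i
    have i3 : Nonempty (Fin q) := ⟨⟨0, hq⟩⟩
    obtain ⟨o, ho⟩ := exists_ne (0 : E q)
    exact ⟨o, ho⟩

end Pool.Agent.Y493.Dupin
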