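import Pool.Agent.Y493.Dupin.TubeLam

open scoped ContDiff InnerProductSpace Topology
open Set Filter

namespace Pool.Agent.Y493.Dupin

section
variable {D D' F G : Type*} [NormedAddCommGroup D] [NormedSpace ℝ D]
  [NormedAddCommGroup D'] [NormedSpace ℝ D'] [NormedAddCommGroup F] [InnerProductSpace ℝ F]
  [NormedAddCommGroup G] [InnerProductSpace ℝ G]

theorem fderiv_neg_fun (ν : D → F) (u : D) : fderiv ℝ (fun u => -ν u) u = -fderiv ℝ ν u :=
  fderiv_neg (f := ν) (x := u)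

theorem IsHyp.neg {U : Set D} {x ν : D → F} (h : IsHyp U x ν) : IsHyp U x (fun u => -ν u) where
  isOpen := h.isOpen
  codim := h.codim
  smooth := h.smooth
  smooth_normal := h.smooth_normal.neg
  immersion := h.immersion
  unit := fun u hu => by rw [norm_neg]; exact h.unit u hu
  normal := fun u hu v => by rw [inner_neg_right, h.normal u hu v, neg_zero]

theorem principal_neg (x ν : D → F) (u : D) (k : ℝ) :
    principal x (fun u => -ν u) u (-k) = principal x ν u k := by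
  ext v
  rw [mem_principal, mem_principal, fderiv_neg_fun, _root_.neg_apply, neg_smul, neg_neg,
    neg_eq_iff_eq_neg]

theorem DupinFns.neg {g : ℕ} {U : Set D} {x ν : D → F} {κ : Fin g → D → ℝ}
    (h : DupinFns g U x ν κ) : DupinFns g U x (fun u => -ν u) (fun i u => -κ i u) where
  smooth := fun i => (h.smooth i).neg
  inj := fun u hu i j hij => h.inj u hu (neg_inj.mp hij)
  ne := fun u hu i => by rw [principal_neg]; exact h.ne u hu i
  top := fun u hu => by simp only [principal_neg]; exact h.top u hu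
  dupin := fun u hu i v hv => by
    rw [principal_neg] at hv
    rw [fderiv_neg_fun, _root_.neg_apply, h.dupin u hu i v hv, neg_zero]

theorem TubeData.neg {U : Set D} {x ν : D → F} {V : Set D'} {y η : D' → G} {ι : F →ₗᵢ[ℝ] G}
    {r : ℝ} {u : D' → D} (t : TubeData U x ν V y η ι r u) :
    TubeData U x (fun u => -ν u) V y η ι r u where
  h := t.h.neg
  hT := t.hT
  hu := t.hu
  mem := t.mem
  eq := t.eq
  perp := t.perp

theorem DupinFns.ne01 {U : Set D} {x ν : D → F} {κ : Fin 2 → D → ℝ} (h : DupinFns 2 U x ν κ) :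
    ∀ u ∈ U, κ 0 u ≠ κ 1 u := fun u hu hh => absurd (h.inj u hu hh) (by decide)

theorem TubeData.thmA_pos [FiniteDimensional ℝ D] [FiniteDimensional ℝ D']
    {U : Set D} {x ν : D → F} {V : Set D'} {y η : D' → G} {ι : F →ₗᵢ[ℝ] G}
    {r : ℝ} {u : D' → D} (t : TubeData U x ν V y η ι r u) {κ : Fin 2 → D → ℝ}
    (hκ : DupinFns 2 U x ν κ) {b : D'} (hb : b ∈ V) (hpos : 0 < ⟪ι (ν (u b)), η b⟫_ℝ)
    {m : ℕ} (hm : Module.finrank ℝ D + m = Module.finrank ℝ D') :
    ∃ p q τ, 0 < p ∧ 0 < q ∧ p + q + m = Module.finrank ℝ D' ∧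
      LieEquivAt quadR (liftR y η) b (qL p q m τ) (Lam p q m τ) 0 := by
  have := t.h.fin
  obtain ⟨p, q, e, f, X, X', hW, hp, hq, hpq⟩ := wdata_exists t.h hκ (t.mem b hb)
  obtain ⟨O, hO, haO, hOU, tA, hs⟩ := hW.exists_split
  exact ⟨p, q, _, hW.hp, hW.hq, by omega, t.lam hκ.ne01 hb hpos hm hpq hW hO haO hOU hs⟩

theorem TubeData.thmA [FiniteDimensional ℝ D] [FiniteDimensional ℝ D']
    {U : Set D} {x ν : D → F} {V : Set D'} {y η : D' → G} {ι : F →ₗᵢ[ℝ] G}
    {r : ℝ} {u : D' → D} (t : TubeData U x ν V y η ι r u) {κ : Fin 2 → D → ℝ}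
    (hκ : DupinFns 2 U x ν κ) {k : Fin 3 → D' → ℝ} (hk : DupinFns 3 V y η k) {b : D'} (hb : b ∈ V)
    (hr : r ≠ 0) {m : ℕ} (hm : Module.finrank ℝ D + m = Module.finrank ℝ D') :
    ∃ p q τ, 0 < p ∧ 0 < q ∧ p + q + m = Module.finrank ℝ D' ∧
      LieEquivAt quadR (liftR y η) b (qL p q m τ) (Lam p q m τ) 0 := by
  have h0 := t.ne_zero hk hb hr
  rcases lt_or_gt_of_ne h0 with h | h
  · refine t.neg.thmA_pos hκ.neg hb ?_ hm
    rw [map_neg, inner_neg_left]; linarith
  · exact t.thmA_pos hκ hb h hm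

end

/-- A reducible germ is equivalent to an abstract model. -/
theorem reducible_lam {D L : Type*} [NormedAddCommGroup D] [NormedSpace ℝ D] [AddCommGroup L]
    [Module ℝ L] {N : ℕ} {Q : L → ℝ} {l : D → Submodule ℝ L} {a : D}
    (h : IsReducibleAt 2 N Q l a) :
    ∃ p q m τ, 0 < p ∧ 0 < q ∧ 0 < m ∧ p + q + m = N ∧
      LieEquivAt Q l a (qL p q m τ) (Lam p q m τ) 0 := by
  obtain ⟨d, U, x, ν, V, y, η, ι, r, b, hd, hW, hWD, hT, hTD, hr, ⟨u, hu, hV⟩, hb, hL⟩ := h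
  obtain ⟨κ, hκ⟩ := isProperDupin_iff.mp hWD
  obtain ⟨k, hk⟩ := isProperDupin_iff.mp hTD
  have t : TubeData U x ν V y η ι r u :=
    ⟨hW, hT, hu, fun v hv => (hV v hv).1, fun v hv => (hV v hv).2.1, fun v hv => (hV v hv).2.2⟩
  have hm : Module.finrank ℝ (E d) + (N - d) = Module.finrank ℝ (E N) := by
    simp only [finrank_euclideanSpace, Fintype.card_fin]; omega
  obtain ⟨p, q, τ, hp, hq, hpq, hLam⟩ := t.thmA hκ hk hb hr hm
  refine ⟨p, q, N - d, τ, hp, hq, by omega, ?_, hL.trans hLam⟩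
  rw [hpq]; simp

end Pool.Agent.Y493.Dupin
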