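import Pool.Agent.Y493.Dupin.Model
import Pool.Agent.Y493.Dupin.ThmA

open scoped ContDiff InnerProductSpace Topology
open Set Filter

namespace Pool.Agent.Y493.Dupin

section
variable {D F : Type*} [NormedAddCommGroup D] [NormedSpace ℝ D]
  [NormedAddCommGroup F] [InnerProductSpace ℝ F]

/-- Inclusion of `F` into `F × ℝ^m`. -/
noncomputable def incl (F : Type*) [NormedAddCommGroup F] [InnerProductSpace ℝ F] (m : ℕ) :
    F →ₗᵢ[ℝ] WithLp 2 (F × E m) where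
  toFun v := WithLp.toLp 2 (v, 0)
  map_add' v w := by rw [← WithLp.toLp_add]; simp
  map_smul' c v := by rw [RingHom.id_apply, ← WithLp.toLp_smul]; simp
  norm_map' v := by
    have h1 := WithLp.prod_norm_sq_eq_of_L2 (WithLp.toLp 2 (v, (0 : E m)))
    have h2 : ‖(WithLp.toLp 2 (v, (0 : E m))).fst‖ ^ 2 = ‖v‖ ^ 2 := rfl
    have h3 : ‖(WithLp.toLp 2 (v, (0 : E m))).snd‖ ^ 2 = 0 := by
      change ‖(0 : E m)‖ ^ 2 = 0; simp
    rw [h2, h3, add_zero] at h1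
    change ‖WithLp.toLp 2 (v, (0 : E m))‖ = ‖v‖
    exact (sq_eq_sq₀ (norm_nonneg _) (norm_nonneg _)).mp h1

theorem toLp_comb {m : ℕ} (a : ℝ) (x y : F) (s t : E m) :
    a • (WithLp.toLp 2 (x, s) : WithLp 2 (F × E m)) + WithLp.toLp 2 (y, t) =
      WithLp.toLp 2 (a • x + y, a • s + t) := rfl

theorem toLp_sm {m : ℕ} (a : ℝ) (x : F) (s : E m) :
    a • (WithLp.toLp 2 (x, s) : WithLp 2 (F × E m)) = WithLp.toLp 2 (a • x, a • s) := rfl

theorem incl_apply (m : ℕ) (v : F) : incl F m v = WithLp.toLp 2 (v, 0) := rfl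

theorem PD.tubeData [FiniteDimensional ℝ D] {g : ℕ} {U : Set D} {x ν : D → F}
    {κ : Fin g → D → ℝ} {P : Fin g → D →ₗ[ℝ] D} (h : PD g U x ν κ P) {r : ℝ} (hr : 0 < r)
    {m : ℕ} (hm : 0 < m) :
    TubeData U x ν (U ×ˢ Metric.ball (0 : E m) 1) (tubePt r m x ν) (tubeNor m ν) (incl F m) r
      Prod.fst where
  h := h.hyp
  hT := (h.tube hr hm).hyp
  hu := contDiff_fst.contDiffOn
  mem := fun v hv => hv.1
  eq := fun v hv => by
    rw [incl_apply, tubePt, tubeNor, ← WithLp.toLp_smul, ← WithLp.toLp_add]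
    simp [smul_smul]
  perp := fun v hv w => by
    rw [incl_apply, tubeNor, WithLp.prod_inner_apply]
    change ⟪fderiv ℝ x v.1 w, co v.2 • ν v.1⟫_ℝ + ⟪(0 : E m), v.2⟫_ℝ = 0
    rw [inner_smul_right, h.hyp.normal v.1 hv.1, mul_zero, inner_zero_left, add_zero]

end

section
variable (p q : ℕ) (ρ : ℝ)

theorem W_norm (u : E q × E p) (h1 : u.1 ∈ Metric.ball (0 : E q) 1)
    (h2 : u.2 ∈ Metric.ball (0 : E p) 1) (hc : ‖cap q u.1‖ = 1) :
    ‖tubePt ρ p (cap q) (cap q) u‖ ^ 2 = 1 + 2 * ρ * co u.2 + ρ ^ 2 := by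
  rw [WithLp.prod_norm_sq_eq_of_L2]
  change ‖cap q u.1 + (ρ * co u.2) • cap q u.1‖ ^ 2 + ‖ρ • u.2‖ ^ 2 = _
  have e1 : cap q u.1 + (ρ * co u.2) • cap q u.1 = (1 + ρ * co u.2) • cap q u.1 := by module
  rw [e1, norm_smul, norm_smul, hc, mul_one, mul_pow, Real.norm_eq_abs, Real.norm_eq_abs, sq_abs,
    sq_abs]
  have := co_sq h2
  have h3 : ‖u.2‖ ^ 2 = 1 - co u.2 ^ 2 := by linarith
  rw [h3]; ring

theorem W_inner (u : E q × E p) (h2 : u.2 ∈ Metric.ball (0 : E p) 1) (hc : ‖cap q u.1‖ = 1) :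
    ⟪tubePt ρ p (cap q) (cap q) u, tubeNor p (cap q) u⟫_ℝ = co u.2 + ρ := by
  rw [WithLp.prod_inner_apply]
  change ⟪cap q u.1 + (ρ * co u.2) • cap q u.1, co u.2 • cap q u.1⟫_ℝ + ⟪ρ • u.2, u.2⟫_ℝ = _
  simp only [inner_add_left, real_inner_smul_left, real_inner_smul_right,
    real_inner_self_eq_norm_sq, hc]
  have := co_sq h2
  have h3 : ‖u.2‖ ^ 2 = 1 - co u.2 ^ 2 := by linarith
  rw [h3]; ring

variable {p q ρ}

theorem W_K1 (hρ : 0 < ρ) (u : E q × E p) (h1 : u.1 ∈ Metric.ball (0 : E q) 1)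
    (h2 : u.2 ∈ Metric.ball (0 : E p) 1) (hc : ‖cap q u.1‖ = 1) :
    KK (tubeK ρ p (fun _ _ => -1) (0 : Fin (1 + 1))) (tubePt ρ p (cap q) (cap q))
      (tubeNor p (cap q)) u = (-1 / ρ) •
      ((1 - ρ ^ 2 / 2, ρ ^ 2 / 2, WithLp.toLp 2 (cap q u.1, 0), -ρ) :
        ℝ × ℝ × WithLp 2 (WithLp 2 (ℝ × E q) × E p) × ℝ) := by
  have hρ' := hρ.ne'
  rw [KK, Yv, Zv, W_norm p q ρ u h1 h2 hc, W_inner p q ρ u h2 hc]
  change (-1 / ρ) • _ + _ = _
  refine Prod.ext ?_ (Prod.ext ?_ (Prod.ext ?_ ?_))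
  · simp only [Prod.smul_mk, Prod.mk_add_mk, smul_eq_mul]
    field_simp; ring
  · simp only [Prod.smul_mk, Prod.mk_add_mk, smul_eq_mul]
    field_simp; ring
  · change WithLp.toLp 2 ((-1 / ρ) • (cap q u.1 + (ρ * co u.2) • cap q u.1) + co u.2 • cap q u.1,
      (-1 / ρ) • (ρ • u.2) + u.2) = WithLp.toLp 2 ((-1 / ρ) • cap q u.1, (-1 / ρ) • (0 : E p))
    refine congrArg (WithLp.toLp 2) (Prod.ext ?_ ?_)
    · change (-1 / ρ) • (cap q u.1 + (ρ * co u.2) • cap q u.1) + co u.2 • cap q u.1 =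
        (-1 / ρ) • cap q u.1
      have : -1 / ρ * (ρ * co u.2) = - co u.2 := by field_simp
      simp only [smul_add, smul_smul]
      rw [this]; module
    · simp only [smul_smul, smul_zero]
      have : -1 / ρ * ρ = -1 := by field_simp
      rw [this]; simp
  · simp only [Prod.smul_mk, Prod.mk_add_mk, smul_eq_mul]
    field_simp; ring

theorem W_K2 (hρ : 0 < ρ) (u : E q × E p) (h1 : u.1 ∈ Metric.ball (0 : E q) 1)
    (h2 : u.2 ∈ Metric.ball (0 : E p) 1) (hc : ‖cap q u.1‖ = 1) :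
    KK (tubeK ρ p (fun _ _ => -1) (1 : Fin (1 + 1))) (tubePt ρ p (cap q) (cap q))
      (tubeNor p (cap q)) u = (1 + ρ * co u.2)⁻¹ •
      ((ρ + ρ ^ 2 * co u.2 / 2, -co u.2 - ρ - ρ ^ 2 * co u.2 / 2, WithLp.toLp 2 (0, u.2),
        1 + ρ * co u.2) :
        ℝ × ℝ × WithLp 2 (WithLp 2 (ℝ × E q) × E p) × ℝ) := by
  have hcp := co_pos h2
  have hd : 1 + ρ * co u.2 ≠ 0 := by positivity
  have hk : tubeK ρ p (fun (_ : Fin 1) (_ : E q) => (-1 : ℝ)) (1 : Fin (1 + 1)) u =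
    -co u.2 * (1 + ρ * co u.2)⁻¹ := by
    change (-1) * co u.2 * (1 - ρ * co u.2 * (-1))⁻¹ = _
    congr 1
    · ring
    · congr 1; ring
  rw [KK, Yv, Zv, W_norm p q ρ u h1 h2 hc, W_inner p q ρ u h2 hc, hk]
  refine Prod.ext ?_ (Prod.ext ?_ (Prod.ext ?_ ?_))
  · simp only [Prod.smul_mk, Prod.mk_add_mk, smul_eq_mul]
    field_simp; ring
  · simp only [Prod.smul_mk, Prod.mk_add_mk, smul_eq_mul]
    field_simp; ring
  · change WithLp.toLp 2 ((-co u.2 * (1 + ρ * co u.2)⁻¹) •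
      (cap q u.1 + (ρ * co u.2) • cap q u.1) + co u.2 • cap q u.1,
      (-co u.2 * (1 + ρ * co u.2)⁻¹) • (ρ • u.2) + u.2) =
      WithLp.toLp 2 ((1 + ρ * co u.2)⁻¹ • (0 : WithLp 2 (ℝ × E q)), (1 + ρ * co u.2)⁻¹ • u.2)
    refine congrArg (WithLp.toLp 2) (Prod.ext ?_ ?_)
    · change (-co u.2 * (1 + ρ * co u.2)⁻¹) • (cap q u.1 + (ρ * co u.2) • cap q u.1) +
        co u.2 • cap q u.1 = (1 + ρ * co u.2)⁻¹ • (0 : WithLp 2 (ℝ × E q))
      simp only [smul_zero]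
      have : (-co u.2 * (1 + ρ * co u.2)⁻¹) • (cap q u.1 + (ρ * co u.2) • cap q u.1) +
        co u.2 • cap q u.1 =
        (-co u.2 * (1 + ρ * co u.2)⁻¹ * (1 + ρ * co u.2) + co u.2) • cap q u.1 := by module
      rw [this, mul_assoc, inv_mul_cancel₀ hd]
      simp
    · simp only [smul_smul]
      have : (-co u.2 * (1 + ρ * co u.2)⁻¹ * ρ) • u.2 + u.2 =
        (-co u.2 * (1 + ρ * co u.2)⁻¹ * ρ + 1) • u.2 := by module
      rw [this]
      congr 1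
      field_simp
      ring
  · simp only [Prod.smul_mk, Prod.mk_add_mk, smul_eq_mul]
    field_simp; ring

/-- The explicit splitting vector. -/
noncomputable def tAW (p q : ℕ) (ρ : ℝ) : ℝ × ℝ × WithLp 2 (WithLp 2 (ℝ × E q) × E p) × ℝ :=
  (-ρ) • (1 - ρ ^ 2 / 2, ρ ^ 2 / 2, 0, -ρ)

theorem BR_tAW : BR _ (tAW p q ρ) (tAW p q ρ) = -ρ ^ 2 := by
  rw [tAW, BR_apply]
  simp only [Prod.smul_mk, smul_eq_mul, smul_zero, inner_zero_left]
  ring

theorem W_split (hq : 0 < q) (hρ : 0 < ρ) :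
    Split (BR _) (tv _) (Metric.ball (0 : E q) 1 ×ˢ Metric.ball (0 : E p) 1)
      (KK (tubeK ρ p (fun _ _ => -1) (0 : Fin (1 + 1))) (tubePt ρ p (cap q) (cap q))
        (tubeNor p (cap q)))
      (KK (tubeK ρ p (fun _ _ => -1) (1 : Fin (1 + 1))) (tubePt ρ p (cap q) (cap q))
        (tubeNor p (cap q))) (tAW p q ρ) := by
  have hu := (PD.sphere hq).hyp.unit
  have hin : ∀ (y : WithLp 2 (ℝ × E q)) (z : E p),
      ⟪(WithLp.toLp 2 (y, (0 : E p)) : WithLp 2 (WithLp 2 (ℝ × E q) × E p)),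
        WithLp.toLp 2 (0, z)⟫_ℝ = 0 := by
    intro y z
    rw [WithLp.prod_inner_apply]
    change ⟪y, (0 : WithLp 2 (ℝ × E q))⟫_ℝ + ⟪(0 : E p), z⟫_ℝ = 0
    simp
  refine ⟨fun u hu1 v hv1 => ?_, fun v hv1 => ?_, fun u hu1 => ?_, ?_⟩
  · rw [W_K1 hρ u hu1.1 hu1.2 (hu _ hu1.1), W_K2 hρ v hv1.1 hv1.2 (hu _ hv1.1)]
    rw [map_smul, map_smul, LinearMap.smul_apply, BR_apply]
    simp only [hin, smul_eq_mul]
    ring
  · rw [W_K2 hρ v hv1.1 hv1.2 (hu _ hv1.1), tAW]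
    rw [map_smul, map_smul, LinearMap.smul_apply, BR_apply]
    simp only [inner_zero_left, smul_eq_mul]
    ring
  · rw [W_K1 hρ u hu1.1 hu1.2 (hu _ hu1.1), tAW]
    rw [map_smul, map_sub, map_smul, LinearMap.sub_apply, LinearMap.smul_apply, BR_apply,
      BR_apply, tv]
    simp only [inner_zero_left, smul_eq_mul]
    ring
  · rw [map_sub, BR_tAW, tAW, map_smul, LinearMap.smul_apply, BR_apply, tv]
    simp only [inner_zero_left, smul_eq_mul]
    ring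

theorem model_lam_at {m : ℕ} (hp : 0 < p) (hq : 0 < q) (hm : 0 < m) (hρ : 0 < ρ)
    {a : (E q × E p) × E m} (h0 : a ∈
      (Metric.ball (0 : E q) 1 ×ˢ Metric.ball (0 : E p) 1) ×ˢ Metric.ball (0 : E m) 1) :
    LieEquivAt quadR (liftR (modelPt p q m ρ) (modelNor p q m)) a
      (qL p q m (-ρ ^ 2)) (Lam p q m (-ρ ^ 2)) 0 := by
  have hS := PD.sphere hq
  have hW := hS.tube hρ hp
  have hT := hW.tubeData one_pos hm
  have h0W : a.1 ∈ Metric.ball (0 : E q) 1 ×ˢ Metric.ball (0 : E p) 1 := h0.1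
  obtain ⟨p', q', e, f, X, X', hWD, hp', hq', hpq⟩ := wdata_exists hW.hyp hW.dupinFns h0W
  have hmem := hW.mem h0W
  have ep : p' = p := by
    rw [hp']
    have : principal (tubePt ρ p (cap q) (cap q)) (tubeNor p (cap q)) a.1
        (tubeK ρ p (fun (_ : Fin 1) (_ : E q) => (-1 : ℝ)) (0 : Fin (1 + 1)) a.1) =
        LinearMap.range (LinearMap.inr ℝ (E q) (E p)) := by
      ext v
      rw [hmem 0 v, LinearMap.mem_range]
      constructor
      · intro h; exact ⟨v.2, h⟩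
      · rintro ⟨y, rfl⟩; rfl
    rw [this, LinearMap.finrank_range_of_inj LinearMap.inr_injective]
    simp
  have eq' : q' = q := by
    rw [hq']
    have : principal (tubePt ρ p (cap q) (cap q)) (tubeNor p (cap q)) a.1
        (tubeK ρ p (fun (_ : Fin 1) (_ : E q) => (-1 : ℝ)) (1 : Fin (1 + 1)) a.1) =
        LinearMap.range (LinearMap.inl ℝ (E q) (E p)) := by
      ext v
      rw [hmem 1 v, LinearMap.mem_range]
      constructor
      · intro h; exact ⟨v.1, h⟩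
      · rintro ⟨y, rfl⟩; rfl
    rw [this, LinearMap.finrank_range_of_inj LinearMap.inl_injective]
    simp
  subst ep
  subst eq'
  have hopen : IsOpen (Metric.ball (0 : E q') 1 ×ˢ Metric.ball (0 : E p') 1) :=
    Metric.isOpen_ball.prod Metric.isOpen_ball
  have hpos : 0 < ⟪incl _ m (tubeNor p' (cap q') a.1), tubeNor m (tubeNor p' (cap q')) a⟫_ℝ := by
    rw [incl_apply, tubeNor, WithLp.prod_inner_apply]
    change 0 < ⟪tubeNor p' (cap q') a.1, co a.2 • tubeNor p' (cap q') a.1⟫_ℝ +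
      ⟪(0 : E m), a.2⟫_ℝ
    rw [inner_smul_right, real_inner_self_eq_norm_sq, hW.hyp.unit _ h0W, inner_zero_left]
    have := co_pos h0.2
    simpa using this
  have hmd : Module.finrank ℝ (E q' × E p') + m = Module.finrank ℝ ((E q' × E p') × E m) := by
    rw [Module.finrank_prod (M := E q' × E p')]; simp
  have key := hT.lam (κ := tubeK ρ p' (fun _ _ => -1)) hW.dupinFns.ne01 h0 hpos hmd hpq hWD
    hopen h0W (Subset.refl _) (W_split hq hρ)
  rw [BR_tAW] at key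
  exact key

theorem zero_mem_dom (p q m : ℕ) : (0 : (E q × E p) × E m) ∈
    (Metric.ball (0 : E q) 1 ×ˢ Metric.ball (0 : E p) 1) ×ˢ Metric.ball (0 : E m) 1 :=
  ⟨⟨Metric.mem_ball_self one_pos, Metric.mem_ball_self one_pos⟩, Metric.mem_ball_self one_pos⟩

theorem model_lam {m : ℕ} (hp : 0 < p) (hq : 0 < q) (hm : 0 < m) (hρ : 0 < ρ) :
    LieEquivAt quadR (liftR (modelPt p q m ρ) (modelNor p q m)) 0
      (qL p q m (-ρ ^ 2)) (Lam p q m (-ρ ^ 2)) 0 :=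
  model_lam_at hp hq hm hρ (zero_mem_dom p q m)

end

end Pool.Agent.Y493.Dupin
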