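import Pool.Agent.Y493.Dupin.Curv

open scoped ContDiff InnerProductSpace Topology
open Set Filter

namespace Pool.Agent.Y493.Dupin

/-- The three curvature spheres of the abstract model, normalized with zero sum. -/
noncomputable def RR {p q m : ℕ} (τ : ℝ) (i : Fin 3) (u : E q × E p × E m) : Lo p q m :=
  ![S1 τ u, -S2 τ u, S2 τ u - S1 τ u] i

theorem Lam_mem {p q m : ℕ} {τ : ℝ} {u : E q × E p × E m} {v : Lo p q m} :
    v ∈ Lam p q m τ u ↔ ∃ a b : ℝ, v = a • S1 τ u + b • S2 τ u := by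
  rw [Lam, Submodule.mem_span_pair]
  constructor
  · rintro ⟨a, b, h⟩; exact ⟨a, b, h.symm⟩
  · rintro ⟨a, b, h⟩; exact ⟨a, b, h.symm⟩

theorem image_curv {p q m p' q' m' : ℕ} {τ τ' : ℝ} (A : Lo p q m ≃ₗ[ℝ] Lo p' q' m')
    (φ : OpenPartialHomeomorph (E q × E p × E m) (E q' × E p' × E m')) (h0 : 0 ∈ φ.source)
    (hφ0 : φ 0 = 0) (hs : ContDiffOn ℝ ∞ φ φ.source) (hs' : ContDiffOn ℝ ∞ φ.symm φ.target)
    (hl : ∀ u ∈ φ.source,
      (Lam p q m τ u).map (A : Lo p q m →ₗ[ℝ] Lo p' q' m') = Lam p' q' m' τ' (φ u))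
    {R : E q × E p × E m → Lo p q m} (hR : ∀ u ∈ Good τ, DifferentiableAt ℝ R u)
    (hRm : ∀ u, R u ∈ Lam p q m τ u) {Z : E q × E p × E m} (hZ : Z ≠ 0)
    (hRZ : ∀ u ∈ Good τ, fderiv ℝ R u Z = 0) (hR0 : R 0 ≠ 0) :
    ∃ j, ∀ᶠ u in 𝓝 0, ∃ k : ℝ, k ≠ 0 ∧ A (R u) = k • RR τ' j (φ u) := by
  set N : Set (E q × E p × E m) := (φ.source ∩ φ ⁻¹' (Good τ')) ∩ Good τ with hN
  have hNo : IsOpen N := (φ.isOpen_inter_preimage (isOpen_Good τ')).inter (isOpen_Good τ)
  have h0N : (0 : E q × E p × E m) ∈ N :=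
    ⟨⟨h0, by rw [mem_preimage, hφ0]; exact zero_mem_Good τ'⟩, zero_mem_Good τ⟩
  set a : E q × E p × E m → ℝ := fun u => (A (R u)).2.1 * (rr τ' (φ u).1)⁻¹ with ha
  set b : E q × E p × E m → ℝ :=
    fun u => (A (R u)).2.2.2.1 * (rr (-1 - τ') (φ u).2.1)⁻¹ with hb
  have hab : ∀ u ∈ N, A (R u) = a u • S1 τ' (φ u) + b u • S2 τ' (φ u) := by
    intro u hu
    have hmem : A (R u) ∈ Lam p' q' m' τ' (φ u) := by
      rw [← hl u hu.1.1]
      exact Submodule.mem_map_of_mem (hRm u)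
    obtain ⟨a0, b0, h1⟩ := Lam_mem.mp hmem
    have g : φ u ∈ Good τ' := hu.1.2
    have r1 := rr_pos g.1
    have r2 := rr_pos g.2
    have e1 : (A (R u)).2.1 = a0 * rr τ' (φ u).1 := by
      rw [h1, S1, S2]; simp
    have e2 : (A (R u)).2.2.2.1 = b0 * rr (-1 - τ') (φ u).2.1 := by
      rw [h1, S1, S2]; simp
    have e3 : a u = a0 := by
      rw [ha]; simp only; rw [e1, mul_assoc, mul_inv_cancel₀ r1.ne', mul_one]
    have e4 : b u = b0 := by
      rw [hb]; simp only; rw [e2, mul_assoc, mul_inv_cancel₀ r2.ne', mul_one]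
    rw [e3, e4, h1]
  have hφd : ∀ u ∈ φ.source, DifferentiableAt ℝ φ u := fun u hu =>
    (hs.contDiffAt (φ.open_source.mem_nhds hu)).differentiableAt (by simp)
  have hφi : ∀ u ∈ φ.source, ∀ X, fderiv ℝ φ u X = 0 → X = 0 := by
    intro u hu X hX
    have hd' : DifferentiableAt ℝ φ.symm (φ u) :=
      (hs'.contDiffAt (φ.open_target.mem_nhds (φ.map_source hu))).differentiableAt (by simp)
    have h1 : HasFDerivAt (fun y => φ.symm (φ y)) (fderiv ℝ φ.symm (φ u) ∘L fderiv ℝ φ u) u :=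
      hd'.hasFDerivAt.comp u (hφd u hu).hasFDerivAt
    have h2 : HasFDerivAt (fun y => φ.symm (φ y)) (ContinuousLinearMap.id ℝ _) u := by
      refine (hasFDerivAt_id u).congr_of_eventuallyEq ?_
      filter_upwards [φ.open_source.mem_nhds hu] with y hy
      rw [φ.left_inv hy]; rfl
    have h3 := congrArg (fun T => T X) (h1.unique h2)
    simp only [ContinuousLinearMap.comp_apply, hX, map_zero, ContinuousLinearMap.id_apply] at h3
    exact h3.symm
  let Ac : Lo p q m →L[ℝ] Lo p' q' m' :=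
    LinearMap.toContinuousLinearMap (A : Lo p q m →ₗ[ℝ] Lo p' q' m')
  have hAc : ∀ v, Ac v = A v := fun v => rfl
  have hFd : ∀ u ∈ N, HasFDerivAt (fun u => A (R u)) (Ac ∘L fderiv ℝ R u) u := fun u hu =>
    Ac.hasFDerivAt.comp u (hR u hu.2).hasFDerivAt
  have had : ∀ u ∈ N, DifferentiableAt ℝ a u := by
    intro u hu
    have h1 : DifferentiableAt ℝ (fun u => (A (R u)).2.1) u := (hFd u hu).differentiableAt.snd.fst
    have h2 : DifferentiableAt ℝ (fun u => rr τ' (φ u).1) u :=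
      DifferentiableAt.comp (g := rr τ') u (rr_diff hu.1.2.1).1 (hφd u hu.1.1).fst
    exact h1.mul (h2.fun_inv (rr_pos hu.1.2.1).ne')
  have hbd : ∀ u ∈ N, DifferentiableAt ℝ b u := by
    intro u hu
    have h1 : DifferentiableAt ℝ (fun u => (A (R u)).2.2.2.1) u :=
      (hFd u hu).differentiableAt.snd.snd.snd.fst
    have h2 : DifferentiableAt ℝ (fun u => rr (-1 - τ') (φ u).2.1) u :=
      DifferentiableAt.comp (g := rr (-1 - τ')) u (rr_diff hu.1.2.2).1 (hφd u hu.1.1).snd.fst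
    exact h1.mul (h2.fun_inv (rr_pos hu.1.2.2).ne')
  have hkey : ∀ u ∈ N, a u = 0 ∨ b u = 0 ∨ a u + b u = 0 := by
    intro u hu
    set X := fderiv ℝ φ u Z with hX
    have hX0 : X ≠ 0 := fun h => hZ (hφi u hu.1.1 Z h)
    have g : φ u ∈ Good τ' := hu.1.2
    have d1 : HasFDerivAt (fun u => S1 τ' (φ u)) (fderiv ℝ (S1 τ') (φ u) ∘L fderiv ℝ φ u) u :=
      (S1_diff g).differentiableAt.hasFDerivAt.comp u (hφd u hu.1.1).hasFDerivAt
    have d2 : HasFDerivAt (fun u => S2 τ' (φ u)) (fderiv ℝ (S2 τ') (φ u) ∘L fderiv ℝ φ u) u :=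
      (S2_diff g).differentiableAt.hasFDerivAt.comp u (hφd u hu.1.1).hasFDerivAt
    have d3 := ((had u hu).hasFDerivAt.fun_smul d1).fun_add ((hbd u hu).hasFDerivAt.fun_smul d2)
    have d4 : HasFDerivAt (fun u => A (R u)) _ u := d3.congr_of_eventuallyEq (by
      filter_upwards [hNo.mem_nhds hu] with y hy
      exact hab y hy)
    have d5 := congrArg (fun T => T Z) ((hFd u hu).unique d4)
    simp only [ContinuousLinearMap.comp_apply, hRZ u hu.2, map_zero, _root_.add_apply,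
      _root_.smul_apply, ContinuousLinearMap.smulRight_apply, ← hX] at d5
    refine curv_key g X hX0 (l := -(fderiv ℝ a u Z)) (μ := -(fderiv ℝ b u Z)) ?_
    rw [neg_smul, neg_smul]
    have := d5.symm
    rw [← sub_eq_zero] at this ⊢
    rw [← this]
    abel
  have h0N' : N ∈ 𝓝 (0 : E q × E p × E m) := hNo.mem_nhds h0N
  have hac : ContinuousAt a 0 := (had 0 h0N).continuousAt
  have hbc : ContinuousAt b 0 := (hbd 0 h0N).continuousAt
  have habne : ¬ (a 0 = 0 ∧ b 0 = 0) := by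
    rintro ⟨h1, h2⟩
    have := hab 0 h0N
    rw [h1, h2, zero_smul, zero_smul, add_zero] at this
    exact hR0 (by rwa [LinearEquiv.map_eq_zero_iff] at this)
  have hsc : ContinuousAt (fun u => a u + b u) 0 := hac.add hbc
  rcases hkey 0 h0N with h | h | h
  · refine ⟨1, ?_⟩
    have hb0 : b 0 ≠ 0 := fun hb0 => habne ⟨h, hb0⟩
    have hs0 : a 0 + b 0 ≠ 0 := by rw [h, zero_add]; exact hb0
    filter_upwards [h0N', hbc.eventually_ne hb0, hsc.eventually_ne hs0] with u hu h1 h2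
    have h3 : a u = 0 := by
      rcases hkey u hu with h | h | h
      · exact h
      · exact absurd h h1
      · exact absurd h h2
    refine ⟨-b u, neg_ne_zero.mpr h1, ?_⟩
    rw [hab u hu, h3]
    simp [RR]
  · refine ⟨0, ?_⟩
    have ha0 : a 0 ≠ 0 := fun ha0 => habne ⟨ha0, h⟩
    have hs0 : a 0 + b 0 ≠ 0 := by rw [h, add_zero]; exact ha0
    filter_upwards [h0N', hac.eventually_ne ha0, hsc.eventually_ne hs0] with u hu h1 h2
    have h3 : b u = 0 := by
      rcases hkey u hu with h | h | h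
      · exact absurd h h1
      · exact h
      · exact absurd h h2
    refine ⟨a u, h1, ?_⟩
    rw [hab u hu, h3]
    simp [RR]
  · refine ⟨2, ?_⟩
    have ha0 : a 0 ≠ 0 := fun ha0 => habne ⟨ha0, by rw [ha0, zero_add] at h; exact h⟩
    have hb0 : b 0 ≠ 0 := fun hb0 => habne ⟨by rw [hb0, add_zero] at h; exact h, hb0⟩
    filter_upwards [h0N', hac.eventually_ne ha0, hbc.eventually_ne hb0] with u hu h1 h2
    have h3 : a u + b u = 0 := by
      rcases hkey u hu with h | h | h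
      · exact absurd h h1
      · exact absurd h h2
      · exact h
    refine ⟨b u, h2, ?_⟩
    have h4 : a u = -b u := by linarith
    rw [hab u hu, h4]
    simp only [RR, Matrix.cons_val]
    module

end Pool.Agent.Y493.Dupin
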