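import Pool.Agent.Y493.Dupin.Local

open scoped ContDiff InnerProductSpace Topology
open Set Filter

namespace Pool.Agent.Y493.Dupin

theorem product_structure {D L W1 W2 : Type*} [NormedAddCommGroup D] [NormedSpace ℝ D]
    [FiniteDimensional ℝ D] [NormedAddCommGroup L] [NormedSpace ℝ L]
    [NormedAddCommGroup W1] [NormedSpace ℝ W1] [FiniteDimensional ℝ W1]
    [NormedAddCommGroup W2] [NormedSpace ℝ W2] [FiniteDimensional ℝ W2]
    {U : Set D} (hU : IsOpen U) {a : D} (ha : a ∈ U) {K1 K2 : D → L}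
    (hK1 : ContDiffOn ℝ ∞ K1 U) (hK2 : ContDiffOn ℝ ∞ K2 U)
    {E1 E2 : D → Submodule ℝ D} (hE : ∀ u ∈ U, E1 u ⊔ E2 u = ⊤)
    (h1 : ∀ u ∈ U, ∀ v ∈ E1 u, fderiv ℝ K1 u v = 0)
    (h2 : ∀ u ∈ U, ∀ v ∈ E2 u, fderiv ℝ K2 u v = 0)
    (P : L →L[ℝ] W1) (Q : L →L[ℝ] W2)
    (hb : Function.Bijective (fun v => (P (fderiv ℝ K1 a v), Q (fderiv ℝ K2 a v)))) :
    ∃ O, IsOpen O ∧ a ∈ O ∧ O ⊆ U ∧
      ∀ u ∈ O, ∀ v ∈ O, ∃ s ∈ U, K1 s = K1 u ∧ K2 s = K2 v := by
  set ψ : D → W1 × W2 := fun u => (P (K1 u), Q (K2 u)) with hψdef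
  have hψ : ContDiffOn ℝ ∞ ψ U :=
    (P.contDiff.comp_contDiffOn hK1).prodMk (Q.contDiff.comp_contDiffOn hK2)
  have hd1 : ∀ u ∈ U, DifferentiableAt ℝ K1 u := fun u hu =>
    (hK1.contDiffAt (hU.mem_nhds hu)).differentiableAt (by simp)
  have hd2 : ∀ u ∈ U, DifferentiableAt ℝ K2 u := fun u hu =>
    (hK2.contDiffAt (hU.mem_nhds hu)).differentiableAt (by simp)
  have hψ' : ∀ u ∈ U, HasFDerivAt ψ
      ((P ∘L fderiv ℝ K1 u).prod (Q ∘L fderiv ℝ K2 u)) u := fun u hu =>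
    (P.hasFDerivAt.comp u (hd1 u hu).hasFDerivAt).prodMk
      (Q.hasFDerivAt.comp u (hd2 u hu).hasFDerivAt)
  have hb' : Function.Bijective (fderiv ℝ ψ a) := by
    rw [(hψ' a ha).fderiv]; exact hb
  obtain ⟨φ, haφ, hφU, hφe, -, hχ, hbij⟩ := exists_localDiffeo hU ha hψ hb'
  have hopen : IsOpen φ.target := φ.open_target
  have key : ∀ s ∈ φ.target, DifferentiableAt ℝ φ.symm s ∧ ∀ x : W1 × W2,
      (x.1 = 0 → fderiv ℝ K1 (φ.symm s) (fderiv ℝ φ.symm s x) = 0) ∧
      (x.2 = 0 → fderiv ℝ K2 (φ.symm s) (fderiv ℝ φ.symm s x) = 0) := by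
    intro s hs
    have hds : DifferentiableAt ℝ φ.symm s :=
      (hχ.contDiffAt (hopen.mem_nhds hs)).differentiableAt (by simp)
    refine ⟨hds, fun x => ?_⟩
    have hu : φ.symm s ∈ φ.source := φ.map_target hs
    have huU := hφU hu
    have hcomp : HasFDerivAt (fun y => ψ (φ.symm y))
        ((((P ∘L fderiv ℝ K1 (φ.symm s)).prod (Q ∘L fderiv ℝ K2 (φ.symm s)))) ∘L
          fderiv ℝ φ.symm s) s := (hψ' _ huU).comp s hds.hasFDerivAt
    have hid : HasFDerivAt (fun y => ψ (φ.symm y)) (ContinuousLinearMap.id ℝ (W1 × W2)) s := by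
      refine (hasFDerivAt_id s).congr_of_eventuallyEq ?_
      filter_upwards [hopen.mem_nhds hs] with y hy
      rw [← hφe, φ.right_inv hy]; rfl
    have heq := hcomp.unique hid
    have heqx := congrArg (fun T => T x) heq
    simp only [ContinuousLinearMap.comp_apply, ContinuousLinearMap.prod_apply,
      ContinuousLinearMap.id_apply] at heqx
    set Y := fderiv ℝ φ.symm s x with hY
    set u := φ.symm s with hus
    have hinj : Function.Injective (fderiv ℝ ψ u) := (hbij u hu).1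
    rw [(hψ' u huU).fderiv] at hinj
    have hYt : Y ∈ E1 u ⊔ E2 u := by rw [hE u huU]; trivial
    obtain ⟨Y1, hY1, Y2, hY2, hsum⟩ := Submodule.mem_sup.mp hYt
    have e1 := h1 u huU Y1 hY1
    have e2 := h2 u huU Y2 hY2
    have hx1 : P (fderiv ℝ K1 u Y2) = x.1 := by
      rw [← heqx, ← hsum]; simp only [map_add, e1, zero_add]
    have hx2 : Q (fderiv ℝ K2 u Y1) = x.2 := by
      rw [← heqx, ← hsum]; simp only [map_add, e2, add_zero]
    constructor
    · intro hx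
      have : Y2 = 0 := by
        apply hinj
        simp only [ContinuousLinearMap.comp_apply, ContinuousLinearMap.prod_apply, map_zero]
        rw [hx1, hx, e2, map_zero]; rfl
      rw [← hsum, map_add, e1, this, map_zero, add_zero]
    · intro hx
      have : Y1 = 0 := by
        apply hinj
        simp only [ContinuousLinearMap.comp_apply, ContinuousLinearMap.prod_apply, map_zero]
        rw [hx2, hx, e1, map_zero]; rfl
      rw [← hsum, map_add, e2, this, map_zero, add_zero]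
  have hψa : ψ a ∈ φ.target := by rw [← hφe]; exact φ.map_source haφ
  obtain ⟨ε, hε, hball⟩ := Metric.isOpen_iff.mp hopen _ hψa
  have hmem : ∀ s1 ∈ Metric.ball (ψ a).1 ε, ∀ s2 ∈ Metric.ball (ψ a).2 ε,
      (s1, s2) ∈ φ.target := by
    intro s1 hs1 s2 hs2
    apply hball
    rw [← ball_prod_same]
    exact ⟨hs1, hs2⟩
  have c1 : ∀ s1 ∈ Metric.ball (ψ a).1 ε, ∀ s2 ∈ Metric.ball (ψ a).2 ε,
      ∀ s3 ∈ Metric.ball (ψ a).2 ε, K1 (φ.symm (s1, s2)) = K1 (φ.symm (s1, s3)) := by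
    intro s1 hs1 s2 hs2 s3 hs3
    have hder : ∀ y ∈ Metric.ball (ψ a).2 ε, HasFDerivAt (fun y => K1 (φ.symm (s1, y)))
        (0 : W2 →L[ℝ] L) y := by
      intro y hy
      obtain ⟨hdy, hk⟩ := key _ (hmem s1 hs1 y hy)
      have hc : HasFDerivAt (fun y => K1 (φ.symm (s1, y)))
          (fderiv ℝ K1 (φ.symm (s1, y)) ∘L (fderiv ℝ φ.symm (s1, y) ∘L
            (ContinuousLinearMap.inr ℝ W1 W2))) y := by
        have hi : HasFDerivAt (fun y : W2 => (s1, y)) (ContinuousLinearMap.inr ℝ W1 W2) y :=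
          hasFDerivAt_prodMk_right s1 y
        exact (hd1 _ (hφU (φ.map_target (hmem s1 hs1 y hy)))).hasFDerivAt.comp y
          (hdy.hasFDerivAt.comp y hi)
      convert hc using 1
      ext v
      simp only [_root_.zero_apply, ContinuousLinearMap.comp_apply,
        ContinuousLinearMap.inr_apply]
      exact ((hk (0, v)).1 rfl).symm
    exact Metric.isOpen_ball.is_const_of_fderiv_eq_zero (𝕜 := ℝ)
      (convex_ball _ _).isPreconnected
      (fun y hy => (hder y hy).differentiableAt.differentiableWithinAt)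
      (fun y hy => (hder y hy).fderiv) hs2 hs3
  have c2 : ∀ s2 ∈ Metric.ball (ψ a).2 ε, ∀ s1 ∈ Metric.ball (ψ a).1 ε,
      ∀ s3 ∈ Metric.ball (ψ a).1 ε, K2 (φ.symm (s1, s2)) = K2 (φ.symm (s3, s2)) := by
    intro s2 hs2 s1 hs1 s3 hs3
    have hder : ∀ y ∈ Metric.ball (ψ a).1 ε, HasFDerivAt (fun y => K2 (φ.symm (y, s2)))
        (0 : W1 →L[ℝ] L) y := by
      intro y hy
      obtain ⟨hdy, hk⟩ := key _ (hmem y hy s2 hs2)
      have hc : HasFDerivAt (fun y => K2 (φ.symm (y, s2)))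
          (fderiv ℝ K2 (φ.symm (y, s2)) ∘L (fderiv ℝ φ.symm (y, s2) ∘L
            (ContinuousLinearMap.inl ℝ W1 W2))) y := by
        have hi : HasFDerivAt (fun y : W1 => (y, s2)) (ContinuousLinearMap.inl ℝ W1 W2) y :=
          hasFDerivAt_prodMk_left y s2
        exact (hd2 _ (hφU (φ.map_target (hmem y hy s2 hs2)))).hasFDerivAt.comp y
          (hdy.hasFDerivAt.comp y hi)
      convert hc using 1
      ext v
      simp only [_root_.zero_apply, ContinuousLinearMap.comp_apply,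
        ContinuousLinearMap.inl_apply]
      exact ((hk (v, 0)).2 rfl).symm
    exact Metric.isOpen_ball.is_const_of_fderiv_eq_zero (𝕜 := ℝ)
      (convex_ball _ _).isPreconnected
      (fun y hy => (hder y hy).differentiableAt.differentiableWithinAt)
      (fun y hy => (hder y hy).fderiv) hs1 hs3
  refine ⟨φ.source ∩ φ ⁻¹' (Metric.ball (ψ a) ε),
    φ.isOpen_inter_preimage Metric.isOpen_ball, ⟨haφ, ?_⟩, fun u hu => hφU hu.1, ?_⟩
  · rw [mem_preimage, hφe]; exact Metric.mem_ball_self hε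
  · intro u hu v hv
    have hu2 : ψ u ∈ Metric.ball (ψ a) ε := by rw [← hφe u]; exact hu.2
    have hv2 : ψ v ∈ Metric.ball (ψ a) ε := by rw [← hφe v]; exact hv.2
    rw [← ball_prod_same] at hu2 hv2
    have lu : φ.symm ((ψ u).1, (ψ u).2) = u := by
      have := φ.left_inv hu.1
      rwa [hφe] at this
    have lv : φ.symm ((ψ v).1, (ψ v).2) = v := by
      have := φ.left_inv hv.1
      rwa [hφe] at this
    refine ⟨φ.symm ((ψ u).1, (ψ v).2), hφU (φ.map_target (hmem _ hu2.1 _ hv2.2)), ?_, ?_⟩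
    · rw [c1 _ hu2.1 _ hv2.2 _ hu2.2, lu]
    · rw [c2 _ hv2.2 _ hu2.1 _ hv2.1, lv]

end Pool.Agent.Y493.Dupin
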