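import Pool.Agent.Y493.Dupin.Lam

open scoped ContDiff InnerProductSpace Topology
open Set Filter

namespace Pool.Agent.Y493.Dupin

section
variable {L : Type*} [AddCommGroup L] [Module ℝ L]

/-- The linear map from the abstract Lie space given by a frame. -/
noncomputable def psi {p q m : ℕ} (k1 k2 ζ l : L) (e : E q →ₗ[ℝ] L) (f : E p →ₗ[ℝ] L)
    (g : E m →ₗ[ℝ] L) (τ : ℝ) : Lo p q m →ₗ[ℝ] L where
  toFun v := v.2.1 • k1 + v.2.2.2.1 • k2 + (-τ * (v.1 + v.2.1 + v.2.2.2.1)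
      - (-1 - τ) * (v.2.2.1 + v.2.1 + v.2.2.2.1)) • ζ + (v.2.2.1 - v.1) • l
      + e v.2.2.2.2.1 + f v.2.2.2.2.2.1 + g v.2.2.2.2.2.2
  map_add' v w := by
    simp only [Prod.fst_add, Prod.snd_add, map_add]; module
  map_smul' c v := by
    simp only [Prod.smul_fst, Prod.smul_snd, smul_eq_mul, map_smul, RingHom.id_apply]; module

theorem psi_apply {p q m : ℕ} (k1 k2 ζ l : L) (e : E q →ₗ[ℝ] L) (f : E p →ₗ[ℝ] L)
    (g : E m →ₗ[ℝ] L) (τ : ℝ) (v : Lo p q m) : psi k1 k2 ζ l e f g τ v =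
    v.2.1 • k1 + v.2.2.2.1 • k2 + (-τ * (v.1 + v.2.1 + v.2.2.2.1)
      - (-1 - τ) * (v.2.2.1 + v.2.1 + v.2.2.2.1)) • ζ + (v.2.2.1 - v.1) • l
      + e v.2.2.2.2.1 + f v.2.2.2.2.2.1 + g v.2.2.2.2.2.2 := rfl

theorem psi_isom {p q m : ℕ} (B : L →ₗ[ℝ] L →ₗ[ℝ] ℝ) (hB : ∀ v w, B v w = B w v)
    (k1 k2 ζ l : L) (e : E q →ₗ[ℝ] L) (f : E p →ₗ[ℝ] L) (g : E m →ₗ[ℝ] L) (τ : ℝ)
    (h11 : B k1 k1 = 1) (h22 : B k2 k2 = 1) (h12 : B k1 k2 = 1) (h1ζ : B k1 ζ = 0)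
    (h2ζ : B k2 ζ = 0) (h1l : B k1 l = 1 + τ) (h2l : B k2 l = τ) (hζζ : B ζ ζ = -1)
    (hζl : B ζ l = 0) (hll : B l l = (1 + τ) * τ)
    (he1 : ∀ w, B (e w) k1 = 0) (he2 : ∀ w, B (e w) k2 = 0) (heζ : ∀ w, B (e w) ζ = 0)
    (hel : ∀ w, B (e w) l = 0) (hee : ∀ w w', B (e w) (e w') = ⟪w, w'⟫_ℝ)
    (hf1 : ∀ w, B (f w) k1 = 0) (hf2 : ∀ w, B (f w) k2 = 0) (hfζ : ∀ w, B (f w) ζ = 0)
    (hfl : ∀ w, B (f w) l = 0) (hff : ∀ w w', B (f w) (f w') = ⟪w, w'⟫_ℝ)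
    (hg1 : ∀ w, B (g w) k1 = 0) (hg2 : ∀ w, B (g w) k2 = 0) (hgζ : ∀ w, B (g w) ζ = 0)
    (hgl : ∀ w, B (g w) l = 0) (hgg : ∀ w w', B (g w) (g w') = ⟪w, w'⟫_ℝ)
    (hef : ∀ w z, B (e w) (f z) = 0) (heg : ∀ w z, B (e w) (g z) = 0)
    (hfg : ∀ w z, B (f w) (g z) = 0) (v v' : Lo p q m) :
    B (psi k1 k2 ζ l e f g τ v) (psi k1 k2 ζ l e f g τ v') = BL p q m τ v v' := by
  have h21 : B k2 k1 = 1 := by rw [hB, h12]
  have hζ1 : B ζ k1 = 0 := by rw [hB, h1ζ]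
  have hζ2 : B ζ k2 = 0 := by rw [hB, h2ζ]
  have hl1 : B l k1 = 1 + τ := by rw [hB, h1l]
  have hl2 : B l k2 = τ := by rw [hB, h2l]
  have hlζ : B l ζ = 0 := by rw [hB, hζl]
  have he1' : ∀ w, B k1 (e w) = 0 := fun w => by rw [hB, he1]
  have he2' : ∀ w, B k2 (e w) = 0 := fun w => by rw [hB, he2]
  have heζ' : ∀ w, B ζ (e w) = 0 := fun w => by rw [hB, heζ]
  have hel' : ∀ w, B l (e w) = 0 := fun w => by rw [hB, hel]
  have hf1' : ∀ w, B k1 (f w) = 0 := fun w => by rw [hB, hf1]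
  have hf2' : ∀ w, B k2 (f w) = 0 := fun w => by rw [hB, hf2]
  have hfζ' : ∀ w, B ζ (f w) = 0 := fun w => by rw [hB, hfζ]
  have hfl' : ∀ w, B l (f w) = 0 := fun w => by rw [hB, hfl]
  have hg1' : ∀ w, B k1 (g w) = 0 := fun w => by rw [hB, hg1]
  have hg2' : ∀ w, B k2 (g w) = 0 := fun w => by rw [hB, hg2]
  have hgζ' : ∀ w, B ζ (g w) = 0 := fun w => by rw [hB, hgζ]
  have hgl' : ∀ w, B l (g w) = 0 := fun w => by rw [hB, hgl]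
  have hfe : ∀ w z, B (f z) (e w) = 0 := fun w z => by rw [hB, hef]
  have hge : ∀ w z, B (g z) (e w) = 0 := fun w z => by rw [hB, heg]
  have hgf : ∀ w z, B (g z) (f w) = 0 := fun w z => by rw [hB, hfg]
  rw [psi_apply, psi_apply, BL_apply]
  simp only [map_add, map_smul, LinearMap.add_apply, LinearMap.smul_apply, smul_eq_mul,
    h11, h22, h12, h1ζ, h2ζ, h1l, h2l, hζζ, hζl, hll, he1, he2, heζ, hel, hee, hf1, hf2, hfζ, hfl,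
    hff, hg1, hg2, hgζ, hgl, hgg, hef, heg, hfg, h21, hζ1, hζ2, hl1, hl2, hlζ, he1', he2', heζ',
    hel', hf1', hf2', hfζ', hfl', hg1', hg2', hgζ', hgl', hfe, hge, hgf]
  ring

theorem psi_S1 {p q m : ℕ} (t tA tB K1 K2 ζ : L) (e : E q →ₗ[ℝ] L) (f : E p →ₗ[ℝ] L)
    (g : E m →ₗ[ℝ] L) (τ : ℝ) (ht : t = tA + tB) (u : E q × E p × E m)
    (hu : τ * al τ u.1 = rr τ u.1 - 1) :
    psi (K1 - t) (K2 - t) ζ ((-1 - τ) • tA - τ • tB) e f g τ (S1 τ u) =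
      (al τ u.1 • tA + rr τ u.1 • K1 + e u.1) - t + (rr 1 u.2.2 • ζ + g u.2.2) := by
  rw [psi_apply, S1]
  simp only [map_zero]
  set α := al τ u.1
  set r := rr τ u.1
  set h := rr 1 u.2.2
  subst ht
  have e1 : (-τ * (α + (h - 1) + r + 0) - (-1 - τ) * (h - 1 + r + 0)) = h := by
    linear_combination -hu
  rw [e1]
  have e2 : (h - 1 - (α + (h - 1))) • ((-1 - τ) • tA - τ • tB) =
    (α + (r - 1)) • tA + (r - 1) • tB := by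
    rw [← hu]; module
  rw [e2]
  module

theorem psi_S2 {p q m : ℕ} (t tA tB K1 K2 ζ : L) (e : E q →ₗ[ℝ] L) (f : E p →ₗ[ℝ] L)
    (g : E m →ₗ[ℝ] L) (τ : ℝ) (ht : t = tA + tB) (u : E q × E p × E m)
    (hu : (-1 - τ) * al (-1 - τ) u.2.1 = rr (-1 - τ) u.2.1 - 1) :
    psi (K1 - t) (K2 - t) ζ ((-1 - τ) • tA - τ • tB) e f g τ (S2 τ u) =
      (al (-1 - τ) u.2.1 • tB + rr (-1 - τ) u.2.1 • K2 + f u.2.1) - t
        + (rr 1 u.2.2 • ζ + g u.2.2) := by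
  rw [psi_apply, S2]
  simp only [map_zero]
  set α := al (-1 - τ) u.2.1
  set r := rr (-1 - τ) u.2.1
  set h := rr 1 u.2.2
  subst ht
  have e1 : (-τ * (h - 1 + 0 + r) - (-1 - τ) * (α + (h - 1) + 0 + r)) = h := by
    linear_combination -hu
  rw [e1]
  have e2 : (α + (h - 1) - (h - 1)) • ((-1 - τ) • tA - τ • tB) =
    (r - 1) • tA + (α + (r - 1)) • tB := by
    rw [← hu]; module
  rw [e2]
  module

end

end Pool.Agent.Y493.Dupin
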