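import Pool.Agent.Y493.Dupin.WData

open scoped ContDiff InnerProductSpace Topology
open Set Filter

namespace Pool.Agent.Y493.Dupin

section
variable {D F : Type*} [NormedAddCommGroup D] [NormedSpace ℝ D]
  [NormedAddCommGroup F] [InnerProductSpace ℝ F]

/-- Polar form of `quadR`. -/
noncomputable def BR (F : Type*) [NormedAddCommGroup F] [InnerProductSpace ℝ F] :
    (ℝ × ℝ × F × ℝ) →ₗ[ℝ] (ℝ × ℝ × F × ℝ) →ₗ[ℝ] ℝ :=
  LinearMap.mk₂ ℝ (fun v w => -(v.1 * w.1) + v.2.1 * w.2.1 + ⟪v.2.2.1, w.2.2.1⟫_ℝ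
    - v.2.2.2 * w.2.2.2)
    (by intro v v' w; simp [inner_add_left]; ring)
    (by intro c v w; simp [inner_smul_left]; ring)
    (by intro v w w'; simp [inner_add_right]; ring)
    (by intro c v w; simp [inner_smul_right]; ring)

theorem BR_apply (v w : ℝ × ℝ × F × ℝ) : BR F v w = -(v.1 * w.1) + v.2.1 * w.2.1 +
    ⟪v.2.2.1, w.2.2.1⟫_ℝ - v.2.2.2 * w.2.2.2 := rfl

theorem quadR_eq (v : ℝ × ℝ × F × ℝ) : quadR v = BR F v v := by
  rw [BR_apply, quadR, real_inner_self_eq_norm_sq]; ring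

theorem BR_symm (v w : ℝ × ℝ × F × ℝ) : BR F v w = BR F w v := by
  rw [BR_apply, BR_apply, real_inner_comm]; ring

theorem BR_nondeg (v : ℝ × ℝ × F × ℝ) (h : ∀ w, BR F v w = 0) : v = 0 := by
  obtain ⟨a, b, x, c⟩ := v
  have := h (-a, b, x, -c)
  rw [BR_apply] at this
  simp only [real_inner_self_eq_norm_sq] at this
  have h1 : a = 0 := by nlinarith [sq_nonneg a, sq_nonneg b, sq_nonneg c, sq_nonneg ‖x‖]
  have h2 : b = 0 := by nlinarith [sq_nonneg a, sq_nonneg b, sq_nonneg c, sq_nonneg ‖x‖]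
  have h3 : c = 0 := by nlinarith [sq_nonneg a, sq_nonneg b, sq_nonneg c, sq_nonneg ‖x‖]
  have h4 : ‖x‖ = 0 := by nlinarith [sq_nonneg a, sq_nonneg b, sq_nonneg c, sq_nonneg ‖x‖]
  rw [norm_eq_zero] at h4
  rw [h1, h2, h3, h4]; rfl

noncomputable def Yv (x : F) : ℝ × ℝ × F × ℝ := ((1 + ‖x‖ ^ 2) / 2, (1 - ‖x‖ ^ 2) / 2, x, 0)
noncomputable def Zv (x ν : F) : ℝ × ℝ × F × ℝ := (⟪x, ν⟫_ℝ, -⟪x, ν⟫_ℝ, ν, 1)
noncomputable def dYv (x x' : F) : ℝ × ℝ × F × ℝ := (⟪x, x'⟫_ℝ, -⟪x, x'⟫_ℝ, x', 0)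
/-- The vector of the last axis. -/
def tv (F : Type*) [NormedAddCommGroup F] : ℝ × ℝ × F × ℝ := (0, 0, 0, 1)

omit [NormedAddCommGroup D] [NormedSpace ℝ D] in
theorem liftR_eq (x ν : D → F) (u : D) :
    liftR x ν u = Submodule.span ℝ {Yv (x u), Zv (x u) (ν u)} := rfl

/-- Sphere congruence. -/
noncomputable def KK (κ : D → ℝ) (x ν : D → F) (u : D) : ℝ × ℝ × F × ℝ :=
  κ u • Yv (x u) + Zv (x u) (ν u)

theorem BR_YY (x : F) : BR F (Yv x) (Yv x) = 0 := by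
  simp only [BR_apply, Yv, real_inner_self_eq_norm_sq]; ring
theorem BR_YZ (x ν : F) : BR F (Yv x) (Zv x ν) = 0 := by
  simp only [BR_apply, Yv, Zv]; ring
theorem BR_ZZ (x ν : F) (h : ‖ν‖ = 1) : BR F (Zv x ν) (Zv x ν) = 0 := by
  simp only [BR_apply, Zv, real_inner_self_eq_norm_sq, h]; ring
theorem BR_Yt (x : F) : BR F (Yv x) (tv F) = 0 := by
  simp [BR_apply, Yv, tv]
theorem BR_Zt (x ν : F) : BR F (Zv x ν) (tv F) = -1 := by
  simp [BR_apply, Zv, tv]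
theorem BR_tt : BR F (tv F) (tv F) = -1 := by
  simp [BR_apply, tv]
theorem BR_dt (x x' : F) : BR F (dYv x x') (tv F) = 0 := by
  simp [BR_apply, dYv, tv]
theorem BR_dY (x x' : F) : BR F (dYv x x') (Yv x) = 0 := by
  simp only [BR_apply, dYv, Yv, real_inner_comm x x']; ring
theorem BR_dZ (x x' ν : F) (h : ⟪x', ν⟫_ℝ = 0) : BR F (dYv x x') (Zv x ν) = 0 := by
  simp only [BR_apply, dYv, Zv, h]; ring
theorem BR_dd (x x' x'' : F) : BR F (dYv x x') (dYv x x'') = ⟪x', x''⟫_ℝ := by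
  simp only [BR_apply, dYv]; ring

omit [NormedAddCommGroup D] [NormedSpace ℝ D] in
theorem KK_null {κ : D → ℝ} {x ν : D → F} {u : D} (h : ‖ν u‖ = 1) (κ' : D → ℝ) :
    BR F (KK κ x ν u) (KK κ' x ν u) = 0 := by
  simp only [KK, map_add, map_smul, LinearMap.add_apply, LinearMap.smul_apply, smul_eq_mul,
    BR_YY, BR_YZ, BR_symm (Zv (x u) (ν u)) (Yv (x u)), BR_ZZ _ _ h]
  ring

omit [NormedAddCommGroup D] [NormedSpace ℝ D] in
theorem KK_t (κ : D → ℝ) (x ν : D → F) (u : D) : BR F (KK κ x ν u) (tv F) = -1 := by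
  simp only [KK, map_add, map_smul, LinearMap.add_apply, LinearMap.smul_apply, smul_eq_mul,
    BR_Yt, BR_Zt]
  ring

theorem KK_smooth {κ : D → ℝ} {x ν : D → F} {U : Set D} (hκ : ContDiffOn ℝ ∞ κ U)
    (hx : ContDiffOn ℝ ∞ x U) (hν : ContDiffOn ℝ ∞ ν U) : ContDiffOn ℝ ∞ (KK κ x ν) U := by
  have h1 : ContDiffOn ℝ ∞ (fun u => ‖x u‖ ^ 2) U := hx.norm_sq ℝ
  have h2 : ContDiffOn ℝ ∞ (fun u => ⟪x u, ν u⟫_ℝ) U := hx.inner ℝ hν
  have h3 : ContDiffOn ℝ ∞ (fun u => Yv (x u)) U :=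
    ((contDiffOn_const.add h1).div_const 2).prodMk
      (((contDiffOn_const.sub h1).div_const 2).prodMk (hx.prodMk contDiffOn_const))
  have h4 : ContDiffOn ℝ ∞ (fun u => Zv (x u) (ν u)) U :=
    h2.prodMk (h2.neg.prodMk (hν.prodMk contDiffOn_const))
  exact (hκ.smul h3).add h4

theorem KK_fderiv {κ : D → ℝ} {x ν : D → F} {u : D} (hκ : DifferentiableAt ℝ κ u)
    (hx : DifferentiableAt ℝ x u) (hν : DifferentiableAt ℝ ν u) (v : D)
    (hn : ⟪fderiv ℝ x u v, ν u⟫_ℝ = 0) {k : ℝ}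
    (hk : fderiv ℝ ν u v = -(k • fderiv ℝ x u v)) :
    fderiv ℝ (KK κ x ν) u v = (fderiv ℝ κ u v) • Yv (x u)
      + (κ u - k) • dYv (x u) (fderiv ℝ x u v) := by
  have h1 := hx.hasFDerivAt.norm_sq
  have h2 := hx.hasFDerivAt.inner ℝ hν.hasFDerivAt
  have h3 := ((h1.const_add 1).const_mul ((2 : ℝ)⁻¹)).prodMk
    (((h1.const_sub 1).const_mul ((2 : ℝ)⁻¹)).prodMk
      (hx.hasFDerivAt.prodMk (hasFDerivAt_const (0 : ℝ) u)))
  have h4 := h2.prodMk (h2.neg.prodMk (hν.hasFDerivAt.prodMk (hasFDerivAt_const (1 : ℝ) u)))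
  have h5 := (HasFDerivAt.fun_smul (𝕜 := ℝ) (𝕜' := ℝ) hκ.hasFDerivAt h3).fun_add h4
  have h6 := h5.congr_of_eventuallyEq (f₁ := KK κ x ν) (by
    filter_upwards with y
    simp only [KK, Yv, Zv, Pi.neg_apply]
    simp only [Prod.mk.injEq, Prod.smul_mk, Prod.mk_add_mk, smul_eq_mul]
    refine ⟨by ring, by ring, trivial⟩)
  rw [h6.fderiv]
  simp only [_root_.add_apply, _root_.smul_apply,
    ContinuousLinearMap.prod_apply, ContinuousLinearMap.comp_apply, Yv, dYv,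
    fderivInnerCLM_apply, hn, hk, ContinuousLinearMap.smulRight_apply,
    _root_.neg_apply, _root_.zero_apply, innerSL_apply_apply,
    inner_neg_right, inner_smul_right, Prod.smul_mk, Prod.mk_add_mk, smul_eq_mul, Prod.mk.injEq,
    smul_neg]
  refine ⟨?_, ?_, ?_, ?_⟩
  · ring
  · ring
  · module
  · ring

end

end Pool.Agent.Y493.Dupin
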