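import Pool.Agent.Y493.Dupin.Model

open scoped ContDiff InnerProductSpace Topology
open Set Filter

namespace Pool.Agent.Y493.Dupin

section
variable {D F G : Type*} [NormedAddCommGroup D] [NormedSpace ℝ D]
  [NormedAddCommGroup F] [InnerProductSpace ℝ F] [NormedAddCommGroup G] [InnerProductSpace ℝ G]

/-- Conformal factor of inverse stereographic projection. -/
noncomputable def lam (x : F) : ℝ := 2 * (1 + ‖x‖ ^ 2)⁻¹

theorem lam_pos (x : F) : 0 < lam x := by unfold lam; positivity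

theorem lam_mul (x : F) : lam x * (1 + ‖x‖ ^ 2) = 2 := by
  have h : 1 + ‖x‖ ^ 2 ≠ 0 := by positivity
  rw [lam, mul_assoc, inv_mul_cancel₀ h, mul_one]

/-- Position in the sphere. -/
noncomputable def sX (J : WithLp 2 (ℝ × F) ≃ₗᵢ[ℝ] G) (x : D → F) (u : D) : G :=
  J (WithLp.toLp 2 (lam (x u) - 1, lam (x u) • x u))

/-- Normal in the sphere. -/
noncomputable def sN (J : WithLp 2 (ℝ × F) ≃ₗᵢ[ℝ] G) (x ν : D → F) (u : D) : G :=
  J (WithLp.toLp 2 (-(lam (x u) * ⟪x u, ν u⟫_ℝ), ν u - (lam (x u) * ⟪x u, ν u⟫_ℝ) • x u))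

theorem lam_hasFDerivAt {x : D → F} {u : D} {x' : D →L[ℝ] F} (h : HasFDerivAt x x' u) :
    ∃ l' : D →L[ℝ] ℝ, HasFDerivAt (fun u => lam (x u)) l' u ∧
      ∀ v, l' v = -(lam (x u) ^ 2 * ⟪x u, x' v⟫_ℝ) := by
  have h0 : (1 + ‖x u‖ ^ 2) ≠ 0 := by positivity
  have h1 := h.norm_sq.const_add 1
  have hd : DifferentiableAt ℝ (fun u => lam (x u)) u :=
    (h1.differentiableAt.fun_inv h0).const_mul 2
  refine ⟨_, hd.hasFDerivAt, fun v => ?_⟩
  have h2 := hd.hasFDerivAt.mul h1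
  have h3 : HasFDerivAt ((fun u => lam (x u)) * (fun u => 1 + ‖x u‖ ^ 2)) (0 : D →L[ℝ] ℝ) u := by
    refine (hasFDerivAt_const (2 : ℝ) u).congr_of_eventuallyEq ?_
    filter_upwards with y
    exact lam_mul (x y)
  have h4 := congrArg (fun T => T v) (h2.unique h3)
  simp only [_root_.add_apply, _root_.smul_apply, ContinuousLinearMap.comp_apply,
    innerSL_apply_apply, smul_eq_mul, nsmul_eq_mul, Nat.cast_ofNat, _root_.zero_apply] at h4
  have h5 := lam_mul (x u)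
  linear_combination (lam (x u) / 2) * h4 - (fderiv ℝ (fun u => lam (x u)) u v / 2) * h5

theorem inner_toLp (a b : ℝ) (x y : F) :
    ⟪(WithLp.toLp 2 (a, x) : WithLp 2 (ℝ × F)), WithLp.toLp 2 (b, y)⟫_ℝ = a * b + ⟪x, y⟫_ℝ := by
  rw [WithLp.prod_inner_apply]
  change ⟪a, b⟫_ℝ + ⟪x, y⟫_ℝ = _
  rw [real_inner_eq_mul_add_aux]
where
  real_inner_eq_mul_add_aux : ⟪a, b⟫_ℝ + ⟪x, y⟫_ℝ = a * b + ⟪x, y⟫_ℝ := by
    have : ⟪a, b⟫_ℝ = a * b := by simp [mul_comm]
    rw [this]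

theorem norm_sq_toLp (a : ℝ) (x : F) :
    ‖(WithLp.toLp 2 (a, x) : WithLp 2 (ℝ × F))‖ ^ 2 = a ^ 2 + ‖x‖ ^ 2 := by
  rw [← real_inner_self_eq_norm_sq, inner_toLp, real_inner_self_eq_norm_sq]; ring

theorem norm_one_of_sq {E' : Type*} [NormedAddCommGroup E'] {x : E'} (h : ‖x‖ ^ 2 = 1) :
    ‖x‖ = 1 := by
  have := norm_nonneg x
  nlinarith

theorem IsHyp.sph [FiniteDimensional ℝ D] {U : Set D} {x ν : D → F} (h : IsHyp U x ν)
    (J : WithLp 2 (ℝ × F) ≃ₗᵢ[ℝ] G) : IsSphHyp U (sX J x) (sN J x ν) := by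
  have hF := h.fin
  have hls : ContDiffOn ℝ ∞ (fun u => lam (x u)) U := by
    refine contDiffOn_const.mul ((contDiffOn_const.add (h.smooth.norm_sq ℝ)).inv fun u _ => ?_)
    positivity
  have his : ContDiffOn ℝ ∞ (fun u => ⟪x u, ν u⟫_ℝ) U := h.smooth.inner ℝ h.smooth_normal
  have hXs : ContDiffOn ℝ ∞ (sX J x) U :=
    J.contDiff.comp_contDiffOn
      ((WithLp.prodContinuousLinearEquiv 2 ℝ ℝ F).symm.contDiff.comp_contDiffOn
        ((hls.sub contDiffOn_const).prodMk (hls.smul h.smooth)))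
  have hNs : ContDiffOn ℝ ∞ (sN J x ν) U :=
    J.contDiff.comp_contDiffOn
      ((WithLp.prodContinuousLinearEquiv 2 ℝ ℝ F).symm.contDiff.comp_contDiffOn
        ((hls.mul his).neg.prodMk (h.smooth_normal.sub ((hls.mul his).smul h.smooth))))
  have hX' : ∀ u ∈ U, ∃ l' : D →L[ℝ] ℝ, (∀ v, l' v = -(lam (x u) ^ 2 * ⟪x u, fderiv ℝ x u v⟫_ℝ)) ∧
      ∀ v, fderiv ℝ (sX J x) u v =
        J (WithLp.toLp 2 (l' v, lam (x u) • fderiv ℝ x u v + l' v • x u)) := by
    intro u hu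
    obtain ⟨l', hl, hl'⟩ := lam_hasFDerivAt (h.dx hu)
    refine ⟨l', hl', fun v => ?_⟩
    have h1 := (hl.sub_const 1).prodMk (hl.fun_smul (h.dx hu))
    have h2 := (WithLp.prodContinuousLinearEquiv 2 ℝ ℝ F).symm.toContinuousLinearMap.hasFDerivAt.comp
      u h1
    have h3 : HasFDerivAt (sX J x) _ u :=
      J.toContinuousLinearEquiv.toContinuousLinearMap.hasFDerivAt.comp u h2
    rw [h3.fderiv]
    rfl
  refine ⟨h.isOpen, ?_, hXs, hNs, ?_, ?_, ?_, ?_, ?_⟩
  · rw [← J.toLinearEquiv.finrank_eq, (WithLp.linearEquiv 2 ℝ (ℝ × F)).finrank_eq,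
      Module.finrank_prod, h.codim, Module.finrank_self]
    ring
  · intro u hu
    obtain ⟨l', hl', hD⟩ := hX' u hu
    rw [injective_iff_map_eq_zero]
    intro v hv
    rw [hD] at hv
    have h1 : WithLp.toLp 2 (l' v, lam (x u) • fderiv ℝ x u v + l' v • x u) = 0 :=
      J.injective (hv.trans (map_zero J).symm)
    have h2 : l' v = 0 := congrArg (fun z => (WithLp.ofLp z).1) h1
    have h3 : lam (x u) • fderiv ℝ x u v + l' v • x u = 0 :=
      congrArg (fun z => (WithLp.ofLp z).2) h1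
    rw [h2, zero_smul, add_zero] at h3
    have h4 := (smul_eq_zero.mp h3).resolve_left (lam_pos _).ne'
    exact h.immersion u hu (h4.trans (map_zero _).symm)
  · intro u hu
    rw [sX, J.norm_map]
    apply norm_one_of_sq
    rw [norm_sq_toLp, norm_smul, mul_pow, Real.norm_eq_abs, sq_abs]
    have := lam_mul (x u)
    linear_combination lam (x u) * this
  · intro u hu
    rw [sN, J.norm_map]
    apply norm_one_of_sq
    rw [norm_sq_toLp, norm_sub_sq_real, norm_smul, mul_pow, Real.norm_eq_abs, sq_abs, h.unit u hu,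
      real_inner_smul_right, real_inner_comm (x u) (ν u)]
    have := lam_mul (x u)
    linear_combination lam (x u) * ⟪x u, ν u⟫_ℝ ^ 2 * this
  · intro u hu
    rw [sX, sN, J.inner_map_map, inner_toLp]
    simp only [inner_sub_right, real_inner_smul_left, real_inner_smul_right,
      real_inner_self_eq_norm_sq]
    have := lam_mul (x u)
    linear_combination -(lam (x u) * ⟪x u, ν u⟫_ℝ) * this
  · intro u hu v
    obtain ⟨l', hl', hD⟩ := hX' u hu
    rw [hD, sN, J.inner_map_map, inner_toLp]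
    simp only [inner_sub_right, inner_add_left, real_inner_smul_left, real_inner_smul_right,
      real_inner_self_eq_norm_sq, h.normal u hu v, real_inner_comm (x u) (fderiv ℝ x u v)]
    rw [hl']
    have := lam_mul (x u)
    linear_combination (lam (x u) ^ 2 * ⟪x u, ν u⟫_ℝ * ⟪x u, fderiv ℝ x u v⟫_ℝ) * this

end

end Pool.Agent.Y493.Dupin
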