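import Pool.Agent.Y493.Dupin.Sph
import Pool.Agent.Y493.Dupin.Lam

open scoped ContDiff InnerProductSpace Topology
open Set Filter

namespace Pool.Agent.Y493.Dupin

section
variable {D F G : Type*} [NormedAddCommGroup D] [NormedSpace ℝ D]
  [NormedAddCommGroup F] [InnerProductSpace ℝ F] [NormedAddCommGroup G] [InnerProductSpace ℝ G]

theorem proj_mem {g : ℕ} {x ν : D → F} {k : Fin g → ℝ} {P : Fin g → D →ₗ[ℝ] D}
    (hsum : ∀ v, ∑ i, P i v = v) (hidem : ∀ i v, P i (P i v) = P i v)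
    (horth : ∀ i j, i ≠ j → ∀ v, P i (P j v) = 0) {u : D}
    (him : Function.Injective (fderiv ℝ x u)) (hinj : Function.Injective k)
    (hder : ∀ i v, fderiv ℝ ν u (P i v) = -(k i • fderiv ℝ x u (P i v))) (i : Fin g) (v : D) :
    v ∈ principal x ν u (k i) ↔ P i v = v := by
  have happ : ∀ (c : Fin g → ℝ) (v : D) (j : Fin g),
      P j (∑ i, c i • P i v) = c j • P j v := by
    intro c v j
    rw [map_sum, Finset.sum_eq_single j]
    · rw [map_smul, hidem]
    · intro i _ hij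
      rw [map_smul, horth j i hij.symm, smul_zero]
    · intro hj; exact absurd (Finset.mem_univ j) hj
  rw [mem_principal]
  constructor
  · intro hv
    have h1 : fderiv ℝ ν u v = ∑ j, -(k j • fderiv ℝ x u (P j v)) := by
      conv_lhs => rw [← hsum v, map_sum]
      exact Finset.sum_congr rfl fun j _ => hder j v
    have h2 : -(k i • fderiv ℝ x u v) = ∑ j, -(k i • fderiv ℝ x u (P j v)) := by
      conv_lhs => rw [← hsum v, map_sum, Finset.smul_sum]
      rw [← Finset.sum_neg_distrib]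
    rw [h1, h2, ← sub_eq_zero, ← Finset.sum_sub_distrib] at hv
    have h3 : fderiv ℝ x u (∑ j, (k i - k j) • P j v) = 0 := by
      rw [map_sum, ← hv]
      refine Finset.sum_congr rfl fun j _ => ?_
      rw [map_smul, sub_smul]; abel
    have h4 := him (h3.trans (map_zero _).symm)
    have h5 : ∀ j, j ≠ i → P j v = 0 := by
      intro j hj
      have h6 := happ (fun j => k i - k j) v j
      rw [h4, map_zero] at h6
      exact (smul_eq_zero.mp h6.symm).resolve_left (sub_ne_zero.mpr fun hh => hj (hinj hh.symm))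
    have h8 := hsum v
    rw [Finset.sum_eq_single i (fun j _ hj => h5 j hj)
      (fun hi => absurd (Finset.mem_univ i) hi)] at h8
    exact h8
  · intro hv
    have := hder i v
    rwa [hv] at this

theorem PD.sph [FiniteDimensional ℝ D] {g : ℕ} {U : Set D} {x ν : D → F} {κ : Fin g → D → ℝ}
    {P : Fin g → D →ₗ[ℝ] D} (h : PD g U x ν κ P) (J : WithLp 2 (ℝ × F) ≃ₗᵢ[ℝ] G) :
    IsProperDupin g U (sX J x) (sN J x ν) := by
  have hS := h.hyp.sph J
  set κS : Fin g → D → ℝ := fun i u => κ i u * ((1 + ‖x u‖ ^ 2) / 2) + ⟪x u, ν u⟫_ℝ with hκS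
  have hκd : ∀ i, ∀ u ∈ U, HasFDerivAt (κ i) (fderiv ℝ (κ i) u) u := fun i u hu =>
    (((h.smooth i).contDiffAt (h.hyp.isOpen.mem_nhds hu)).differentiableAt (by simp)).hasFDerivAt
  have hXd : ∀ u ∈ U, HasFDerivAt (sX J x) (fderiv ℝ (sX J x) u) u := fun u hu =>
    ((hS.smooth.contDiffAt (hS.isOpen.mem_nhds hu)).differentiableAt (by simp)).hasFDerivAt
  have hNd : ∀ u ∈ U, HasFDerivAt (sN J x ν) (fderiv ℝ (sN J x ν) u) u := fun u hu =>
    ((hS.smooth_normal.contDiffAt (hS.isOpen.mem_nhds hu)).differentiableAt (by simp)).hasFDerivAt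
  -- derivative of the auxiliary function
  have haux : ∀ i, ∀ u ∈ U, ∃ T : D →L[ℝ] ℝ, HasFDerivAt (κS i) T u ∧
      ∀ v, T v = fderiv ℝ (κ i) u v * ((1 + ‖x u‖ ^ 2) / 2) + κ i u * ⟪x u, fderiv ℝ x u v⟫_ℝ
        + ⟪x u, fderiv ℝ ν u v⟫_ℝ := by
    intro i u hu
    have h1 := ((h.hyp.dx hu).norm_sq.const_add 1).const_mul ((2 : ℝ)⁻¹)
    have h2 := (h.hyp.dx hu).inner ℝ (h.hyp.dν hu)
    have h3 := ((hκd i u hu).mul h1).add h2
    refine ⟨_, h3.congr_of_eventuallyEq ?_, fun v => ?_⟩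
    · filter_upwards with y
      simp only [hκS, Pi.add_apply, Pi.mul_apply]
      ring
    · simp only [_root_.add_apply, _root_.smul_apply, ContinuousLinearMap.comp_apply,
        ContinuousLinearMap.prod_apply, fderivInnerCLM_apply, innerSL_apply_apply, smul_eq_mul,
        nsmul_eq_mul, Nat.cast_ofNat, h.hyp.normal u hu v]
      ring
  have hκS0 : ∀ i, ∀ u ∈ U, ∀ v, fderiv ℝ (κS i) u (P i v) = 0 := by
    intro i u hu v
    obtain ⟨T, hT, hTv⟩ := haux i u hu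
    rw [hT.fderiv, hTv, h.dup u hu, h.der u hu, inner_neg_right, real_inner_smul_right]
    ring
  have hder : ∀ i, ∀ u ∈ U, ∀ v, fderiv ℝ (sN J x ν) u (P i v) =
      -(κS i u • fderiv ℝ (sX J x) u (P i v)) := by
    intro i u hu v
    obtain ⟨T, hT, hTv⟩ := haux i u hu
    have e1 := (hT.fun_smul (hXd u hu)).fun_add (hNd u hu)
    have hfun : (fun u => κS i u • sX J x u + sN J x ν u) =
        fun u => J (WithLp.toLp 2 (κ i u - κS i u, κ i u • x u + ν u)) := by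
      funext y
      rw [sX, sN, ← map_smul, ← map_add]
      congr 1
      change WithLp.toLp 2 (κS i y * (lam (x y) - 1) + -(lam (x y) * ⟪x y, ν y⟫_ℝ),
        κS i y • (lam (x y) • x y) + (ν y - (lam (x y) * ⟪x y, ν y⟫_ℝ) • x y)) = _
      have h5 := lam_mul (x y)
      have h6 : κS i y * lam (x y) = κ i y + lam (x y) * ⟪x y, ν y⟫_ℝ := by
        rw [hκS]; linear_combination (κ i y / 2) * h5
      refine congrArg (WithLp.toLp 2) (Prod.ext ?_ ?_)
      · change κS i y * (lam (x y) - 1) + -(lam (x y) * ⟪x y, ν y⟫_ℝ) = κ i y - κS i y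
        linear_combination h6
      · change κS i y • (lam (x y) • x y) + (ν y - (lam (x y) * ⟪x y, ν y⟫_ℝ) • x y) =
          κ i y • x y + ν y
        rw [smul_smul, h6]; module
    rw [hfun] at e1
    have e2 := ((hκd i u hu).fun_sub hT).prodMk (((hκd i u hu).fun_smul (h.hyp.dx hu)).fun_add
      (h.hyp.dν hu))
    have e3 := (WithLp.prodContinuousLinearEquiv 2 ℝ ℝ F).symm.toContinuousLinearMap.hasFDerivAt.comp
      u e2
    have e4 : HasFDerivAt
        (fun u => J (WithLp.toLp 2 (κ i u - κS i u, κ i u • x u + ν u))) _ u :=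
      J.toContinuousLinearEquiv.toContinuousLinearMap.hasFDerivAt.comp u e3
    have e5 := congrArg (fun T => T (P i v)) (e1.unique e4)
    have e6 : T (P i v) = 0 := by rw [← hT.fderiv]; exact hκS0 i u hu v
    change κS i u • fderiv ℝ (sX J x) u (P i v) + T (P i v) • sX J x u +
      fderiv ℝ (sN J x ν) u (P i v) = J (WithLp.toLp 2 (fderiv ℝ (κ i) u (P i v) - T (P i v),
        κ i u • fderiv ℝ x u (P i v) + fderiv ℝ (κ i) u (P i v) • x u +
          fderiv ℝ ν u (P i v))) at e5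
    rw [e6, h.dup u hu, h.der u hu, sub_self, zero_smul, zero_smul, add_zero, add_zero,
      add_neg_cancel] at e5
    have e7 : (WithLp.toLp 2 ((0 : ℝ), (0 : F)) : WithLp 2 (ℝ × F)) = 0 := rfl
    rw [e7, map_zero] at e5
    exact eq_neg_of_add_eq_zero_right e5
  have hinj : ∀ u ∈ U, Function.Injective (fun i => κS i u) := by
    intro u hu i j hij
    apply h.inj u hu
    have h1 : κ i u * ((1 + ‖x u‖ ^ 2) / 2) + ⟪x u, ν u⟫_ℝ =
      κ j u * ((1 + ‖x u‖ ^ 2) / 2) + ⟪x u, ν u⟫_ℝ := hij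
    have h2 : (1 + ‖x u‖ ^ 2) / 2 ≠ 0 := by positivity
    exact mul_right_cancel₀ h2 (add_right_cancel h1)
  have hmem : ∀ u ∈ U, ∀ i v, v ∈ principal (sX J x) (sN J x ν) u (κS i u) ↔ P i v = v :=
    fun u hu i v => proj_mem (k := fun i => κS i u) h.sum h.idem h.orth (hS.immersion u hu)
      (hinj u hu) (fun i v => hder i u hu v) i v
  rw [isProperDupin_iff]
  refine ⟨κS, ⟨fun i => ?_, hinj, fun u hu i => ?_, fun u hu => ?_, fun u hu i v hv => ?_⟩⟩
  · exact ((h.smooth i).mul ((contDiffOn_const.add (h.hyp.smooth.norm_sq ℝ)).div_const 2)).add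
      (h.hyp.smooth.inner ℝ h.hyp.smooth_normal)
  · obtain ⟨v, hv⟩ := h.ne i
    rw [Submodule.ne_bot_iff]
    exact ⟨P i v, (hmem u hu i _).mpr (h.idem i v), hv⟩
  · rw [eq_top_iff]
    intro v _
    rw [← h.sum v]
    refine Submodule.sum_mem _ fun i _ => ?_
    exact Submodule.mem_iSup_of_mem i ((hmem u hu i _).mpr (h.idem i v))
  · rw [← (hmem u hu i v).mp hv]; exact hκS0 i u hu v

/-- Isometry of the Lie spaces. -/
noncomputable def sphE (J : WithLp 2 (ℝ × F) ≃ₗᵢ[ℝ] G) : (ℝ × ℝ × F × ℝ) ≃ₗ[ℝ] (ℝ × G × ℝ) where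
  toFun v := (v.1, J (WithLp.toLp 2 (v.2.1, v.2.2.1)), v.2.2.2)
  invFun v := (v.1, (J.symm v.2.1).fst, (J.symm v.2.1).snd, v.2.2)
  map_add' v w := by
    refine Prod.ext rfl (Prod.ext ?_ rfl)
    change J (WithLp.toLp 2 (v.2.1 + w.2.1, v.2.2.1 + w.2.2.1)) = J _ + J _
    rw [← map_add]; rfl
  map_smul' c v := by
    refine Prod.ext rfl (Prod.ext ?_ rfl)
    change J (WithLp.toLp 2 (c * v.2.1, c • v.2.2.1)) = c • J _
    rw [← map_smul]; rfl
  left_inv v := by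
    refine Prod.ext rfl ?_
    change ((J.symm (J (WithLp.toLp 2 (v.2.1, v.2.2.1)))).fst,
      (J.symm (J (WithLp.toLp 2 (v.2.1, v.2.2.1)))).snd, v.2.2.2) = v.2
    rw [J.symm_apply_apply]; rfl
  right_inv v := by
    refine Prod.ext rfl (Prod.ext ?_ rfl)
    change J (WithLp.toLp 2 ((J.symm v.2.1).fst, (J.symm v.2.1).snd)) = v.2.1
    exact J.apply_symm_apply v.2.1

theorem liftR_liftS [FiniteDimensional ℝ D] (x ν : D → F) (J : WithLp 2 (ℝ × F) ≃ₗᵢ[ℝ] G)
    (a : D) : LieEquivAt quadR (liftR x ν) a quadS (liftS (sX J x) (sN J x ν)) a := by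
  refine LieEquivAt.of_map (sphE J) ?_ isOpen_univ (mem_univ _) (f := id)
    contDiff_id.contDiffOn ?_ rfl ?_
  · intro v
    have : quadS (sphE J v) = quadR v := by
      rw [quadR, quadS]
      change -v.1 ^ 2 + ‖J (WithLp.toLp 2 (v.2.1, v.2.2.1))‖ ^ 2 - v.2.2.2 ^ 2 = _
      rw [J.norm_map, norm_sq_toLp]; ring
    rw [this]
  · rw [fderiv_id]; exact Function.bijective_id
  · intro u _
    rw [liftR_eq, liftS, Submodule.map_span, image_pair]
    have h5 := lam_mul (x u)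
    have h6 := (lam_pos (x u)).ne'
    refine span_pair_eq (a := (lam (x u))⁻¹) (b := 0) (c := ⟪x u, ν u⟫_ℝ) (d := 1) ?_ ?_ ?_
    · change (((1 + ‖x u‖ ^ 2) / 2, J (WithLp.toLp 2 ((1 - ‖x u‖ ^ 2) / 2, x u)), 0) : ℝ × G × ℝ) =
        (lam (x u))⁻¹ • (1, sX J x u, 0) + (0 : ℝ) • (0, sN J x ν u, 1)
      rw [zero_smul, add_zero, Prod.smul_mk, Prod.smul_mk, sX, ← map_smul]
      have e1 : (1 + ‖x u‖ ^ 2) / 2 = (lam (x u))⁻¹ := by
        field_simp; linarith
      refine Prod.ext ?_ (Prod.ext ?_ ?_)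
      · change (1 + ‖x u‖ ^ 2) / 2 = (lam (x u))⁻¹ * 1
        rw [e1, mul_one]
      · refine congrArg J ?_
        change WithLp.toLp 2 ((1 - ‖x u‖ ^ 2) / 2, x u) =
          WithLp.toLp 2 ((lam (x u))⁻¹ * (lam (x u) - 1), (lam (x u))⁻¹ • (lam (x u) • x u))
        refine congrArg (WithLp.toLp 2) (Prod.ext ?_ ?_)
        · change (1 - ‖x u‖ ^ 2) / 2 = (lam (x u))⁻¹ * (lam (x u) - 1)
          rw [mul_sub, inv_mul_cancel₀ h6, ← e1]; ring
        · change x u = (lam (x u))⁻¹ • (lam (x u) • x u)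
          rw [smul_smul, inv_mul_cancel₀ h6, one_smul]
      · change (0 : ℝ) = (lam (x u))⁻¹ * 0
        ring
    · change ((⟪x u, ν u⟫_ℝ, J (WithLp.toLp 2 (-⟪x u, ν u⟫_ℝ, ν u)), 1) : ℝ × G × ℝ) =
        ⟪x u, ν u⟫_ℝ • (1, sX J x u, 0) + (1 : ℝ) • (0, sN J x ν u, 1)
      rw [one_smul, Prod.smul_mk, Prod.smul_mk, sX, sN, ← map_smul, Prod.mk_add_mk,
        Prod.mk_add_mk, ← map_add]
      refine Prod.ext ?_ (Prod.ext ?_ ?_)
      · change ⟪x u, ν u⟫_ℝ = ⟪x u, ν u⟫_ℝ * 1 + 0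
        ring
      · refine congrArg J ?_
        change WithLp.toLp 2 (-⟪x u, ν u⟫_ℝ, ν u) =
          WithLp.toLp 2 (⟪x u, ν u⟫_ℝ * (lam (x u) - 1) + -(lam (x u) * ⟪x u, ν u⟫_ℝ),
            ⟪x u, ν u⟫_ℝ • (lam (x u) • x u) + (ν u - (lam (x u) * ⟪x u, ν u⟫_ℝ) • x u))
        refine congrArg (WithLp.toLp 2) (Prod.ext ?_ ?_)
        · change -⟪x u, ν u⟫_ℝ =
            ⟪x u, ν u⟫_ℝ * (lam (x u) - 1) + -(lam (x u) * ⟪x u, ν u⟫_ℝ)
          ring
        · change ν u =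
            ⟪x u, ν u⟫_ℝ • (lam (x u) • x u) + (ν u - (lam (x u) * ⟪x u, ν u⟫_ℝ) • x u)
          module
      · change (1 : ℝ) = ⟪x u, ν u⟫_ℝ * 0 + 1
        ring
    · rw [mul_one, zero_mul, sub_zero]; exact inv_ne_zero h6

end

end Pool.Agent.Y493.Dupin
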