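import Pool.Agent.Y493.Dupin.Base

open scoped ContDiff InnerProductSpace Topology

namespace Pool.Agent.Y493.Dupin

/-- Euclidean space `ℝⁿ`. -/
def Eu (n : ℕ) : Type := EuclideanSpace ℝ (Fin n)

noncomputable instance instEuG (n : ℕ) : NormedAddCommGroup (Eu n) :=
  (inferInstance : NormedAddCommGroup (EuclideanSpace ℝ (Fin n)))

noncomputable instance instEuI (n : ℕ) : InnerProductSpace ℝ (Eu n) :=
  (inferInstance : InnerProductSpace ℝ (EuclideanSpace ℝ (Fin n)))

noncomputable instance instEuS (n : ℕ) : NormedSpace ℝ (Eu n) := InnerProductSpace.toNormedSpace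

/-- The Euclidean space `F × ℝ^m`. -/
def Plus (F : Type) (m : ℕ) : Type := WithLp 2 (F × Eu m)

noncomputable instance instPlusG (F : Type) [NormedAddCommGroup F] (m : ℕ) :
    NormedAddCommGroup (Plus F m) :=
  (inferInstance : NormedAddCommGroup (WithLp 2 (F × Eu m)))

noncomputable instance instPlusI (F : Type) [NormedAddCommGroup F] [InnerProductSpace ℝ F] (m : ℕ) :
    InnerProductSpace ℝ (Plus F m) :=
  (inferInstance : InnerProductSpace ℝ (WithLp 2 (F × Eu m)))

/-- The Euclidean space `ℝ × ℝ^q × ℝ^p × ℝ^m` of the model. -/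
def ModelSp (p q m : ℕ) : Type := Plus (Plus (Plus ℝ q) p) m

noncomputable instance instModelSpG (p q m : ℕ) : NormedAddCommGroup (ModelSp p q m) :=
  (inferInstance : NormedAddCommGroup (Plus (Plus (Plus ℝ q) p) m))

noncomputable instance instModelSpI (p q m : ℕ) : InnerProductSpace ℝ (ModelSp p q m) :=
  (inferInstance : InnerProductSpace ℝ (Plus (Plus (Plus ℝ q) p) m))

/-- Parameter space of the model. -/
def ModelPar (p q m : ℕ) : Type := (Eu q × Eu p) × Eu m

noncomputable instance instModelParG (p q m : ℕ) : NormedAddCommGroup (ModelPar p q m) :=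
  (inferInstance : NormedAddCommGroup ((Eu q × Eu p) × Eu m))

noncomputable instance instModelParS (p q m : ℕ) : NormedSpace ℝ (ModelPar p q m) :=
  (inferInstance : NormedSpace ℝ ((Eu q × Eu p) × Eu m))

section Tubes

variable {D F : Type} [NormedAddCommGroup D] [NormedSpace ℝ D]
  [NormedAddCommGroup F] [InnerProductSpace ℝ F]

/-- Unit sphere cap `w ↦ (√(1 - |w|²), w)` in `ℝ × ℝ^q`; it is its own outer unit normal. -/
noncomputable def sphCap (q : ℕ) (w : Eu q) : Plus ℝ q := WithLp.toLp 2 (√(1 - ‖w‖ ^ 2), w)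

/-- Tube of radius `r` over `(x, ν)` placed in `F × ℝ^m`: position. -/
noncomputable def tubePos (r : ℝ) (m : ℕ) (x ν : D → F) (v : D × Eu m) : Plus F m :=
  WithLp.toLp 2 (x v.1 + (r * √(1 - ‖v.2‖ ^ 2)) • ν v.1, r • v.2)

/-- Tube over `(x, ν)` placed in `F × ℝ^m`: unit normal. -/
noncomputable def tubeNrm (m : ℕ) (ν : D → F) (v : D × Eu m) : Plus F m :=
  WithLp.toLp 2 (√(1 - ‖v.2‖ ^ 2) • ν v.1, v.2)

/-- The model hypersurface: tube of radius `1` over the tube of radius `ρ` over the unit sphere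
of `ℝ^(q+1)`, taken first in `ℝ^(q+1+p)` and then in `ℝ^(q+1+p+m)`: position. -/
noncomputable def modelX (p q m : ℕ) (ρ : ℝ) : ModelPar p q m → ModelSp p q m :=
  tubePos 1 m (tubePos ρ p (sphCap q) (sphCap q)) (tubeNrm p (sphCap q))

/-- The model hypersurface: unit normal. -/
noncomputable def modelN (p q m : ℕ) : ModelPar p q m → ModelSp p q m :=
  tubeNrm m (tubeNrm p (sphCap q))

/-- Domain of the models. -/
def modelDom (p q m : ℕ) : Set (ModelPar p q m) :=
  {v | (‖v.1.1‖ < 1 ∧ ‖v.1.2‖ < 1) ∧ ‖v.2‖ < 1}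

end Tubes

section Equiv

variable {D D' F F' : Type} [NormedAddCommGroup D] [NormedSpace ℝ D]
  [NormedAddCommGroup D'] [NormedSpace ℝ D']
  [NormedAddCommGroup F] [InnerProductSpace ℝ F] [NormedAddCommGroup F'] [InnerProductSpace ℝ F']

/-- Local Lie equivalence of two hypersurfaces of Euclidean spaces at the points `a` and `b`. -/
def EquivRR (x ν : D → F) (a : D) (y η : D' → F') (b : D') : Prop :=
  LieEquivAt quadR (liftR x ν) a quadR (liftR y η) b

/-- Local Lie equivalence, at `a` and `b`, of a hypersurface of the unit sphere of `F` and a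
hypersurface of the Euclidean space `F'`. -/
def EquivSR (x ν : D → F) (a : D) (y η : D' → F') (b : D') : Prop :=
  LieEquivAt quadS (liftS x ν) a quadR (liftR y η) b

end Equiv

/-- `(y, η)` on `V` is a proper Dupin hypersurface of `ℝ^(N+1)` with `g + 1` principal curvatures
and an open piece of the tube of some radius `r ≠ 0` in `ℝ^(N+1)` over a proper Dupin hypersurface
`(x, ν)` of some `ℝ^(d+1)`, `d < N`, with `g` principal curvatures. -/
def IsDupinTube (g N : ℕ) (V : Set (Eu N)) (y η : Eu N → Eu (N + 1)) : Prop :=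
  IsHyp V y η ∧ IsProperDupin (g + 1) V y η ∧
    ∃ (d : ℕ) (U : Set (Eu d)) (x ν : Eu d → Eu (d + 1)) (ι : Eu (d + 1) →ₗᵢ[ℝ] Eu (N + 1)) (r : ℝ),
      d < N ∧ r ≠ 0 ∧ IsHyp U x ν ∧ IsProperDupin g U x ν ∧ IsTube r ι U x V y η

section Red

variable {D F : Type} [NormedAddCommGroup D] [NormedSpace ℝ D]
  [NormedAddCommGroup F] [InnerProductSpace ℝ F]

/-- The hypersurface `(x, ν)` of a Euclidean space is reducible at `a` (`N`: its dimension,
`g + 1`: its number of principal curvatures). -/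
def ReducibleR (g N : ℕ) (x ν : D → F) (a : D) : Prop :=
  ∃ (V : Set (Eu N)) (y η : Eu N → Eu (N + 1)) (b : Eu N),
    IsDupinTube g N V y η ∧ b ∈ V ∧ EquivRR x ν a y η b

/-- The hypersurface `(x, ν)` of the unit sphere of `F` is reducible at `a`. -/
def ReducibleS (g N : ℕ) (x ν : D → F) (a : D) : Prop :=
  ∃ (V : Set (Eu N)) (y η : Eu N → Eu (N + 1)) (b : Eu N),
    IsDupinTube g N V y η ∧ b ∈ V ∧ EquivSR x ν a y η b

end Red

/-- A connected proper Dupin hypersurface of the sphere `S^(N+1)` with three principal curvatures,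
reducible at each point. -/
def IsRedDupinS (N : ℕ) (U : Set (Eu N)) (x ν : Eu N → Eu (N + 2)) : Prop :=
  IsConnected U ∧ IsSphHyp U x ν ∧ IsProperDupin 3 U x ν ∧ ∀ a ∈ U, ReducibleS 2 N x ν a

/-- A connected proper Dupin hypersurface of `ℝ^(N+1)` with three principal curvatures, reducible
at each point. -/
def IsRedDupinR (N : ℕ) (U : Set (Eu N)) (x ν : Eu N → Eu (N + 1)) : Prop :=
  IsConnected U ∧ IsHyp U x ν ∧ IsProperDupin 3 U x ν ∧ ∀ a ∈ U, ReducibleR 2 N x ν a

/-- `(x, ν)` has at each point of `U` three distinct principal curvatures, of multiplicities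
`p`, `q`, `m`. -/
def HasMult {D F : Type} [NormedAddCommGroup D] [NormedSpace ℝ D]
    [NormedAddCommGroup F] [InnerProductSpace ℝ F] (p q m : ℕ) (U : Set D) (x ν : D → F) : Prop :=
  ∃ κ : Fin 3 → D → ℝ, ∀ u ∈ U, Function.Injective (fun i => κ i u) ∧
    ∀ i, Module.finrank ℝ (principal x ν u (κ i u)) = ![p, q, m] i

end Pool.Agent.Y493.Dupin
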