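import Pool.Agent.Y493.Dupin.V3

open scoped ContDiff InnerProductSpace Topology
open Set Filter

namespace Pool.Agent.Y493.Dupin

section
variable {D D' F G : Type*} [NormedAddCommGroup D] [NormedSpace ℝ D]
  [NormedAddCommGroup D'] [NormedSpace ℝ D'] [NormedAddCommGroup F] [InnerProductSpace ℝ F]
  [NormedAddCommGroup G] [InnerProductSpace ℝ G]

theorem IsHyp.decomp [FiniteDimensional ℝ D] {U : Set D} {x ν : D → F} (h : IsHyp U x ν) {u : D}
    (hu : u ∈ U) (w : F) : ∃ v, ∃ s : ℝ, w = fderiv ℝ x u v + s • ν u := by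
  have := h.fin
  let T : D × ℝ →ₗ[ℝ] F := LinearMap.coprod (fderiv ℝ x u : D →ₗ[ℝ] F)
    (LinearMap.toSpanSingleton ℝ F (ν u))
  have hT : ∀ p, T p = fderiv ℝ x u p.1 + p.2 • ν u := fun p => by simp [T]
  have hinj : Function.Injective T := by
    rw [injective_iff_map_eq_zero]
    rintro ⟨v, s⟩ hvs
    rw [hT] at hvs
    simp only at hvs
    have h1 := congrArg (fun z => ⟪z, ν u⟫_ℝ) hvs
    simp only [inner_add_left, real_inner_smul_left, h.normal u hu v, inner_zero_left,
      real_inner_self_eq_norm_sq, h.unit u hu] at h1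
    have hs : s = 0 := by linarith
    rw [hs, zero_smul, add_zero] at hvs
    have hv : v = 0 := h.immersion u hu (by rw [hvs, map_zero])
    rw [hv, hs]; rfl
  have hd : Module.finrank ℝ (D × ℝ) = Module.finrank ℝ F := by
    rw [Module.finrank_prod, Module.finrank_self, h.codim]
  have hsurj := (LinearMap.injective_iff_surjective_of_finrank_eq_finrank hd).mp hinj
  obtain ⟨p, hp⟩ := hsurj w
  exact ⟨p.1, p.2, by rw [← hp, hT]⟩

/-- Data of a tube. -/
structure TubeData (U : Set D) (x ν : D → F) (V : Set D') (y η : D' → G) (ι : F →ₗᵢ[ℝ] G)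
    (r : ℝ) (u : D' → D) : Prop where
  h : IsHyp U x ν
  hT : IsHyp V y η
  hu : ContDiffOn ℝ ∞ u V
  mem : ∀ v ∈ V, u v ∈ U
  eq : ∀ v ∈ V, y v = ι (x (u v)) + r • η v
  perp : ∀ v ∈ V, ∀ w, ⟪ι (fderiv ℝ x (u v) w), η v⟫_ℝ = 0

variable {U : Set D} {x ν : D → F} {V : Set D'} {y η : D' → G} {ι : F →ₗᵢ[ℝ] G}
    {r : ℝ} {u : D' → D}

theorem TubeData.inner [FiniteDimensional ℝ D] (t : TubeData U x ν V y η ι r u) {v : D'}
    (hv : v ∈ V) (w : F) : ⟪η v, ι w⟫_ℝ = ⟪ι (ν (u v)), η v⟫_ℝ * ⟪ν (u v), w⟫_ℝ := by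
  obtain ⟨v', s, rfl⟩ := t.h.decomp (t.mem v hv) w
  rw [map_add, map_smul, inner_add_right, inner_add_right, real_inner_comm (ι _),
    t.perp v hv, real_inner_smul_right, real_inner_smul_right, real_inner_self_eq_norm_sq,
    t.h.unit _ (t.mem v hv), real_inner_comm (η v) (ι (ν (u v))),
    real_inner_comm (fderiv ℝ x (u v) v') (ν (u v)), t.h.normal _ (t.mem v hv)]
  ring

/-- With three distinct principal curvatures the normal of the tube is not orthogonal to the space
containing the core. -/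
theorem TubeData.ne_zero [FiniteDimensional ℝ D] (t : TubeData U x ν V y η ι r u)
    {k : Fin 3 → D' → ℝ} (hk : DupinFns 3 V y η k) {b : D'} (hb : b ∈ V) (hr : r ≠ 0) :
    ⟪ι (ν (u b)), η b⟫_ℝ ≠ 0 := by
  intro h0
  have hyd : DifferentiableAt ℝ y b :=
    (t.hT.smooth.contDiffAt (t.hT.isOpen.mem_nhds hb)).differentiableAt (by simp)
  have hηd : DifferentiableAt ℝ η b :=
    (t.hT.smooth_normal.contDiffAt (t.hT.isOpen.mem_nhds hb)).differentiableAt (by simp)
  have hud : DifferentiableAt ℝ u b :=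
    (t.hu.contDiffAt (t.hT.isOpen.mem_nhds hb)).differentiableAt (by simp)
  have hub := t.mem b hb
  have hxd : DifferentiableAt ℝ x (u b) :=
    (t.h.smooth.contDiffAt (t.h.isOpen.mem_nhds hub)).differentiableAt (by simp)
  have hνd : DifferentiableAt ℝ ν (u b) :=
    (t.h.smooth_normal.contDiffAt (t.h.isOpen.mem_nhds hub)).differentiableAt (by simp)
  have hVn : V ∈ 𝓝 b := t.hT.isOpen.mem_nhds hb
  -- derivative of the position
  have hDy : ∀ v, fderiv ℝ y b v = ι (fderiv ℝ x (u b) (fderiv ℝ u b v)) + r • fderiv ℝ η b v := by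
    have h1 : HasFDerivAt (fun v => ι (x (u v)) + r • η v)
        (ι.toContinuousLinearMap ∘L (fderiv ℝ x (u b) ∘L fderiv ℝ u b) + r • fderiv ℝ η b) b :=
      (ι.toContinuousLinearMap.hasFDerivAt.comp b (hxd.hasFDerivAt.comp b hud.hasFDerivAt)).add
        (hηd.hasFDerivAt.const_smul r)
    have h2 : HasFDerivAt y _ b := h1.congr_of_eventuallyEq (by
      filter_upwards [hVn] with v hv
      exact t.eq v hv)
    intro v
    rw [h2.fderiv]
    simp
  -- derivative of the normal is orthogonal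
  have hDη : ∀ v ξ, ⟪fderiv ℝ η b v, ι (fderiv ℝ x (u b) ξ)⟫_ℝ = 0 := by
    intro v ξ
    set w := fderiv ℝ x (u b) ξ with hw
    have hζd : DifferentiableAt ℝ (fun v => ⟪ι (ν (u v)), η v⟫_ℝ) b :=
      ((ι.toContinuousLinearMap.differentiableAt.comp b (hνd.comp b hud))).inner ℝ hηd
    have hνud : DifferentiableAt ℝ (fun v => ⟪ν (u v), w⟫_ℝ) b :=
      (hνd.comp b hud).inner ℝ (differentiableAt_const w)
    have h1 : HasFDerivAt (fun v => ⟪η v, ι w⟫_ℝ)
        ((fderivInnerCLM ℝ (η b, ι w)).comp ((fderiv ℝ η b).prod 0)) b :=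
      hηd.hasFDerivAt.inner ℝ (hasFDerivAt_const (ι w) b)
    have h2 := hζd.hasFDerivAt.mul hνud.hasFDerivAt
    have h3 : HasFDerivAt (fun v => ⟪η v, ι w⟫_ℝ) _ b := h2.congr_of_eventuallyEq (by
      filter_upwards [hVn] with v hv
      exact t.inner hv w)
    have h4 := congrArg (fun T => T v) (h1.unique h3)
    simp only [ContinuousLinearMap.comp_apply, ContinuousLinearMap.prod_apply,
      fderivInnerCLM_apply] at h4
    have h5 : ⟪ν (u b), w⟫_ℝ = 0 := by rw [hw, real_inner_comm]; exact t.h.normal _ hub ξ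
    rw [h0, h5] at h4
    simpa using h4
  have hki : ∀ i, k i b = 0 ∨ k i b = -1 / r := by
    intro i
    obtain ⟨v, hv, hv0⟩ := (Submodule.ne_bot_iff _).mp (hk.ne b hb i)
    have hv' := mem_principal.mp hv
    have h1 := hDy v
    have h2 : ι (fderiv ℝ x (u b) (fderiv ℝ u b v)) = (1 + r * k i b) • fderiv ℝ y b v := by
      rw [hv'] at h1
      have : ι (fderiv ℝ x (u b) (fderiv ℝ u b v)) =
        fderiv ℝ y b v - r • -(k i b • fderiv ℝ y b v) := eq_sub_of_add_eq h1.symm
      rw [this]; module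
    have h3 := hDη v (fderiv ℝ u b v)
    rw [h2, hv', inner_neg_left, real_inner_smul_left, real_inner_smul_right,
      real_inner_self_eq_norm_sq] at h3
    have h4 : ‖fderiv ℝ y b v‖ ^ 2 ≠ 0 := by
      intro h5
      rw [sq_eq_zero_iff, norm_eq_zero] at h5
      exact hv0 (t.hT.immersion b hb (by rw [h5, map_zero]))
    have h5 : k i b * (1 + r * k i b) = 0 := by
      have : (k i b * (1 + r * k i b)) * ‖fderiv ℝ y b v‖ ^ 2 = 0 := by linarith
      exact (mul_eq_zero.mp this).resolve_right h4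
    rcases mul_eq_zero.mp h5 with h6 | h6
    · exact Or.inl h6
    · right
      field_simp
      linarith
  have hinj := hk.inj b hb
  have n01 : k 0 b ≠ k 1 b := fun hh => absurd (hinj hh) (by decide)
  have n02 : k 0 b ≠ k 2 b := fun hh => absurd (hinj hh) (by decide)
  have n12 : k 1 b ≠ k 2 b := fun hh => absurd (hinj hh) (by decide)
  rcases hki 0 with h0 | h0 <;> rcases hki 1 with h1 | h1 <;> rcases hki 2 with h2 | h2 <;>
    simp_all

end

end Pool.Agent.Y493.Dupin
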