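import Pool.Agent.Y493.Dupin.Tube

open scoped ContDiff InnerProductSpace Topology
open Set Filter

namespace Pool.Agent.Y493.Dupin

theorem rr_smooth {n : ℕ} : ContDiff ℝ ∞ (fun o : E n => rr 1 o) := by
  unfold rr
  apply ContDiff.sqrt
  · exact contDiff_const.add (contDiff_const.mul (contDiff_norm_sq ℝ))
  · intro o
    have := sq_nonneg ‖o‖
    positivity

section
variable {D D' F G : Type*} [NormedAddCommGroup D] [NormedSpace ℝ D]
  [NormedAddCommGroup D'] [NormedSpace ℝ D'] [NormedAddCommGroup F] [InnerProductSpace ℝ F]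
  [NormedAddCommGroup G] [InnerProductSpace ℝ G]

variable {U : Set D} {x ν : D → F} {V : Set D'} {y η : D' → G} {ι : F →ₗᵢ[ℝ] G}
    {r : ℝ} {u : D' → D}

theorem TubeData.lam [FiniteDimensional ℝ D] [FiniteDimensional ℝ D']
    (td : TubeData U x ν V y η ι r u)
    {κ : Fin 2 → D → ℝ} (hκ : ∀ u ∈ U, κ 0 u ≠ κ 1 u) {b : D'} (hb : b ∈ V)
    (hpos : 0 < ⟪ι (ν (u b)), η b⟫_ℝ)
    {m : ℕ} (hm : Module.finrank ℝ D + m = Module.finrank ℝ D')
    {p q : ℕ} {e : E q →ₗ[ℝ] (ℝ × ℝ × F × ℝ)} {f : E p →ₗ[ℝ] (ℝ × ℝ × F × ℝ)}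
    {X : E q →ₗ[ℝ] D} {X' : E p →ₗ[ℝ] D} (hpq : p + q = Module.finrank ℝ D)
    (hW : WData (BR F) p q (tv F) U (u b) (KK (κ 0) x ν) (KK (κ 1) x ν) e f X X')
    {O : Set D} {tA : ℝ × ℝ × F × ℝ} (hO : IsOpen O) (haO : u b ∈ O) (hOU : O ⊆ U)
    (hs : Split (BR F) (tv F) O (KK (κ 0) x ν) (KK (κ 1) x ν) tA) :
    LieEquivAt quadR (liftR y η) b (qL p q m (BR F tA tA)) (Lam p q m (BR F tA tA)) 0 := by
  have hFf := td.h.fin
  have hGf := td.hT.fin
  set K1 := KK (κ 0) x ν with hK1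
  set K2 := KK (κ 1) x ν with hK2
  set τ := BR F tA tA with hτ
  set tB := tv F - tA with htB
  have hfr := hW.frame (hO.mem_nhds haO) hs
  rw [← htB, ← hτ] at hfr
  have hσ : BR F tB tB = -1 - τ := by have := hfr.sum BR_tt; linarith
  obtain ⟨O1, hO1o, haO1, hO1O, hn1⟩ := hW.normal1 hO haO hOU hs
  obtain ⟨O2, hO2o, haO2, hO2O, hn2⟩ := hW.swap.normal1 hO haO hOU (hs.swap BR_symm)
  rw [← htB, hσ] at hn2
  rw [hσ] at hfr
  clear_value tB
  -- the height function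
  set ζ0 : D' → ℝ := fun v => ⟪ι (ν (u v)), η v⟫_ℝ with hζ0
  have hνu : ContDiffOn ℝ ∞ (fun v => ι (ν (u v))) V :=
    ι.contDiff.comp_contDiffOn (td.h.smooth_normal.comp td.hu (fun v hv => td.mem v hv))
  have hζ0s : ContDiffOn ℝ ∞ ζ0 V := hνu.inner ℝ td.hT.smooth_normal
  set gG : D' → G := fun v => (ζ0 v)⁻¹ • η v - ι (ν (u v)) with hgG
  set ζ : D' → ℝ × ℝ × G × ℝ := fun v => (0, 0, gG v, (ζ0 v)⁻¹) with hζ
  let H : Submodule ℝ G := (LinearMap.range ι.toLinearMap)ᗮ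
  have memH : ∀ g : G, g ∈ H ↔ ∀ w, ⟪g, ι w⟫_ℝ = 0 := by
    intro g
    rw [Submodule.mem_orthogonal']
    constructor
    · intro h w; exact h _ ⟨w, rfl⟩
    · rintro h _ ⟨w, rfl⟩; exact h w
  have hgH : ∀ v ∈ V, ζ0 v ≠ 0 → gG v ∈ H := by
    intro v hv h0
    rw [memH]
    intro w
    rw [hgG]
    simp only
    rw [inner_sub_left, real_inner_smul_left, td.inner hv, LinearIsometry.inner_map_map]
    change (ζ0 v)⁻¹ * (ζ0 v * _) - _ = 0
    rw [← mul_assoc, inv_mul_cancel₀ h0, one_mul, sub_self]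
  have hgn : ∀ v ∈ V, ζ0 v ≠ 0 → ((ζ0 v)⁻¹) ^ 2 = 1 + ‖gG v‖ ^ 2 := by
    intro v hv h0
    rw [hgG]
    simp only
    rw [norm_sub_sq_real, norm_smul, real_inner_smul_left, td.hT.unit v hv,
      LinearIsometry.norm_map, td.h.unit _ (td.mem v hv), real_inner_comm]
    change _ = 1 + (_ - 2 * ((ζ0 v)⁻¹ * ζ0 v) + _)
    rw [inv_mul_cancel₀ h0, mul_one, Real.norm_eq_abs, sq_abs]
    ring
  have hHm : m = Module.finrank ℝ H := by
    have h1 := Submodule.finrank_add_finrank_orthogonal (LinearMap.range ι.toLinearMap)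
    have h2 : Module.finrank ℝ (LinearMap.range ι.toLinearMap) = Module.finrank ℝ F :=
      LinearMap.finrank_range_of_inj ι.injective
    rw [h2, td.h.codim, td.hT.codim] at h1
    change Module.finrank ℝ D + 1 + Module.finrank ℝ H = _ at h1
    omega
  have hb0 : ζ0 b ≠ 0 := ne_of_gt hpos
  obtain ⟨Γ, hΓm, hΓΓ, hΓζ, hΓdec⟩ := V3_frame H hHm (hgH b hb hb0) (inv_pos.mpr hpos)
    (hgn b hb hb0)
  -- the domain
  have huc : ContinuousOn u V := td.hu.continuousOn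
  have hO12 : IsOpen (O1 ∩ O2) := hO1o.inter hO2o
  set V1 : Set D' := (V ∩ ζ0 ⁻¹' (Ioi 0)) ∩ (V ∩ u ⁻¹' (O1 ∩ O2)) with hV1
  have hV1o : IsOpen V1 :=
    (hζ0s.continuousOn.isOpen_inter_preimage td.hT.isOpen isOpen_Ioi).inter
      (huc.isOpen_inter_preimage td.hT.isOpen hO12)
  have hbV1 : b ∈ V1 := ⟨⟨hb, hpos⟩, hb, haO1, haO2⟩
  have hV1V : V1 ⊆ V := fun v hv => hv.1.1
  have hζV : ∀ v ∈ V1, ζ v = rr 1 (stB (BR G) Γ (ζ v)) • ζ b + Γ (stB (BR G) Γ (ζ v)) := by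
    intro v hv
    exact hΓdec (gG v) (hgH v hv.1.1 (ne_of_gt hv.1.2)) (ζ0 v)⁻¹ (inv_pos.mpr hv.1.2)
      (hgn v hv.1.1 (ne_of_gt hv.1.2))
  -- the map
  set φ : D' → E q × E p × E m := fun v =>
    (stB (BR F) e (K1 (u v)), stB (BR F) f (K2 (u v)), stB (BR G) Γ (ζ v)) with hφ
  have hζs : ContDiffOn ℝ ∞ ζ V1 := by
    have hi : ContDiffOn ℝ ∞ (fun v => (ζ0 v)⁻¹) V1 :=
      (hζ0s.mono hV1V).inv (fun v hv => ne_of_gt hv.1.2)
    exact contDiffOn_const.prodMk (contDiffOn_const.prodMk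
      (((hi.smul (td.hT.smooth_normal.mono hV1V)).sub (hνu.mono hV1V)).prodMk hi))
  have hK1u : ContDiffOn ℝ ∞ (fun v => K1 (u v)) V1 :=
    hW.hK1.comp (td.hu.mono hV1V) (fun v hv => td.mem v (hV1V hv))
  have hK2u : ContDiffOn ℝ ∞ (fun v => K2 (u v)) V1 :=
    hW.hK2.comp (td.hu.mono hV1V) (fun v hv => td.mem v (hV1V hv))
  have hφs : ContDiffOn ℝ ∞ φ V1 :=
    ((stB (BR F) e).toContinuousLinearMap.contDiff.comp_contDiffOn hK1u).prodMk
      (((stB (BR F) f).toContinuousLinearMap.contDiff.comp_contDiffOn hK2u).prodMk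
      ((stB (BR G) Γ).toContinuousLinearMap.contDiff.comp_contDiffOn hζs))
  have hφb : φ b = 0 := by
    have h1 : stB (BR F) e (K1 (u b)) = 0 := stB_eq _ _ _ _ fun w' => by
      rw [BR_symm, hW.eK, inner_zero_left]
    have h2 : stB (BR F) f (K2 (u b)) = 0 := stB_eq _ _ _ _ fun w' => by
      rw [BR_symm, hW.fK, inner_zero_left]
    have h3 : stB (BR G) Γ (ζ b) = 0 := stB_eq _ _ _ _ fun w' => by
      rw [BR_symm, inner_zero_left]; exact hΓζ w'
    rw [hφ]
    simp only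
    rw [h1, h2, h3]; rfl
  -- differentiability
  have hV1n : V1 ∈ 𝓝 b := hV1o.mem_nhds hbV1
  have hub := td.mem b hb
  have hud : DifferentiableAt ℝ u b :=
    (td.hu.contDiffAt (td.hT.isOpen.mem_nhds hb)).differentiableAt (by simp)
  have hxd : DifferentiableAt ℝ x (u b) :=
    (td.h.smooth.contDiffAt (td.h.isOpen.mem_nhds hub)).differentiableAt (by simp)
  have hνd : DifferentiableAt ℝ ν (u b) :=
    (td.h.smooth_normal.contDiffAt (td.h.isOpen.mem_nhds hub)).differentiableAt (by simp)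
  have hK1d : DifferentiableAt ℝ K1 (u b) :=
    (hW.hK1.contDiffAt (td.h.isOpen.mem_nhds hub)).differentiableAt (by simp)
  have hK2d : DifferentiableAt ℝ K2 (u b) :=
    (hW.hK2.contDiffAt (td.h.isOpen.mem_nhds hub)).differentiableAt (by simp)
  have hζd : DifferentiableAt ℝ ζ b := (hζs.contDiffAt hV1n).differentiableAt (by simp)
  have hφd : HasFDerivAt φ
      (((stB (BR F) e).toContinuousLinearMap ∘L (fderiv ℝ K1 (u b) ∘L fderiv ℝ u b)).prod
      (((stB (BR F) f).toContinuousLinearMap ∘L (fderiv ℝ K2 (u b) ∘L fderiv ℝ u b)).prod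
      ((stB (BR G) Γ).toContinuousLinearMap ∘L fderiv ℝ ζ b))) b :=
    ((stB (BR F) e).toContinuousLinearMap.hasFDerivAt.comp b
      (hK1d.hasFDerivAt.comp b hud.hasFDerivAt)).prodMk
    (((stB (BR F) f).toContinuousLinearMap.hasFDerivAt.comp b
      (hK2d.hasFDerivAt.comp b hud.hasFDerivAt)).prodMk
    ((stB (BR G) Γ).toContinuousLinearMap.hasFDerivAt.comp b hζd.hasFDerivAt))
  have hinj : Function.Injective (fderiv ℝ φ b) := by
    rw [injective_iff_map_eq_zero]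
    intro Xv hXv
    rw [hφd.fderiv] at hXv
    have c1 : stB (BR F) e (fderiv ℝ K1 (u b) (fderiv ℝ u b Xv)) = 0 := (Prod.ext_iff.mp hXv).1
    have c2 : stB (BR F) f (fderiv ℝ K2 (u b) (fderiv ℝ u b Xv)) = 0 :=
      (Prod.ext_iff.mp (Prod.ext_iff.mp hXv).2).1
    have c3 : stB (BR G) Γ (fderiv ℝ ζ b Xv) = 0 := (Prod.ext_iff.mp (Prod.ext_iff.mp hXv).2).2
    have hξ : fderiv ℝ u b Xv = 0 := hW.inj c1 c2
    -- `y` is a function of `u` and `o`
    set Ξ : E m → ℝ × ℝ × G × ℝ := fun o => rr 1 o • ζ b + Γ o with hΞ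
    have hΞd : Differentiable ℝ Ξ :=
      (((rr_smooth (n := m)).differentiable (by simp)).smul_const _).add
        Γ.toContinuousLinearMap.differentiable
    set Φ : D × E m → G := fun s =>
      ι (x s.1) + r • (((Ξ s.2).2.2.2)⁻¹ • (ι (ν s.1) + (Ξ s.2).2.2.1)) with hΦ
    have hyΦ : ∀ v ∈ V1, y v = Φ (u v, stB (BR G) Γ (ζ v)) := by
      intro v hv
      have h1 : Ξ (stB (BR G) Γ (ζ v)) = ζ v := (hζV v hv).symm
      rw [hΦ]
      simp only
      rw [h1, td.eq v hv.1.1]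
      have h2 : (((ζ v).2.2.2)⁻¹ • (ι (ν (u v)) + (ζ v).2.2.1)) = η v := by
        rw [hζ]
        simp only
        rw [hgG]
        simp only
        rw [inv_inv, add_sub_cancel, smul_smul, mul_inv_cancel₀ (ne_of_gt hv.1.2), one_smul]
      rw [h2]
    have hod : HasFDerivAt (fun v => stB (BR G) Γ (ζ v))
        ((stB (BR G) Γ).toContinuousLinearMap ∘L fderiv ℝ ζ b) b :=
      (stB (BR G) Γ).toContinuousLinearMap.hasFDerivAt.comp b hζd.hasFDerivAt
    have h0 : stB (BR G) Γ (ζ b) = 0 := (Prod.ext_iff.mp (Prod.ext_iff.mp hφb).2).2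
    have hΦd : DifferentiableAt ℝ Φ (u b, stB (BR G) Γ (ζ b)) := by
      have hx1 : DifferentiableAt ℝ (fun s : D × E m => ι (x s.1)) (u b, stB (BR G) Γ (ζ b)) :=
        ι.toContinuousLinearMap.differentiableAt.comp _
          (DifferentiableAt.comp (u b, stB (BR G) Γ (ζ b)) hxd differentiableAt_fst)
      have hν1 : DifferentiableAt ℝ (fun s : D × E m => ι (ν s.1)) (u b, stB (BR G) Γ (ζ b)) :=
        ι.toContinuousLinearMap.differentiableAt.comp _
          (DifferentiableAt.comp (u b, stB (BR G) Γ (ζ b)) hνd differentiableAt_fst)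
      have hΞ1 : DifferentiableAt ℝ (fun s : D × E m => Ξ s.2) (u b, stB (BR G) Γ (ζ b)) :=
        (hΞd _).comp _ differentiableAt_snd
      have hne : (Ξ (stB (BR G) Γ (ζ b))).2.2.2 ≠ 0 := by
        rw [show Ξ (stB (BR G) Γ (ζ b)) = ζ b from (hζV b hbV1).symm]
        exact inv_ne_zero hb0
      exact hx1.add (((hΞ1.snd.snd.snd.inv hne).smul (hν1.add hΞ1.snd.snd.fst)).const_smul r)
    have hyd : HasFDerivAt y ((fderiv ℝ Φ (u b, stB (BR G) Γ (ζ b))) ∘L
        ((fderiv ℝ u b).prod ((stB (BR G) Γ).toContinuousLinearMap ∘L fderiv ℝ ζ b))) b := by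
      have h1 : HasFDerivAt (Φ ∘ fun v => (u v, stB (BR G) Γ (ζ v)))
          ((fderiv ℝ Φ (u b, stB (BR G) Γ (ζ b))) ∘L
          ((fderiv ℝ u b).prod ((stB (BR G) Γ).toContinuousLinearMap ∘L fderiv ℝ ζ b))) b :=
        HasFDerivAt.comp (g := Φ) b hΦd.hasFDerivAt (hud.hasFDerivAt.prodMk hod)
      refine h1.congr_of_eventuallyEq ?_
      filter_upwards [hV1n] with v hv
      exact hyΦ v hv
    apply td.hT.immersion b hb
    rw [hyd.fderiv, map_zero]
    change fderiv ℝ Φ _ (fderiv ℝ u b Xv, stB (BR G) Γ (fderiv ℝ ζ b Xv)) = 0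
    rw [hξ, c3]
    exact map_zero _
  have hdim : Module.finrank ℝ D' = Module.finrank ℝ (E q × E p × E m) := by
    simp only [Module.finrank_prod, finrank_euclideanSpace, Fintype.card_fin]
    omega
  have hbij : Function.Bijective (fderiv ℝ φ b) :=
    ⟨hinj, (LinearMap.injective_iff_surjective_of_finrank_eq_finrank
      (f := (fderiv ℝ φ b : D' →ₗ[ℝ] E q × E p × E m)) hdim).mp hinj⟩
  -- the linear map
  set Ψ : Lo p q m →ₗ[ℝ] (ℝ × ℝ × G × ℝ) :=
    psi (ih ι (K1 (u b)) - ih ι (tv F)) (ih ι (K2 (u b)) - ih ι (tv F)) (ζ b)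
      ((-1 - τ) • ih ι tA - τ • ih ι tB) (ih ι ∘ₗ e) (ih ι ∘ₗ f) Γ τ with hΨ
  have hz : ∀ v : ℝ × ℝ × F × ℝ, BR F v (tv F) = 0 → BR G (ih ι v) (ζ b) = 0 := by
    intro v hv
    have := BR_ih_perp ι v ((memH _).mp (hgH b hb hb0)) (ζ0 b)⁻¹
    rw [hv, mul_zero] at this
    exact this
  have hg : ∀ v : ℝ × ℝ × F × ℝ, BR F v (tv F) = 0 → ∀ w, BR G (Γ w) (ih ι v) = 0 := by
    intro v hv w
    obtain ⟨g, hgm, c, hc⟩ := hΓm w
    rw [hc, BR_symm]
    have := BR_ih_perp ι v ((memH _).mp hgm) c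
    rw [hv, mul_zero] at this
    exact this
  have htA : BR F tA (tv F) = τ := by
    rw [hfr.ht, map_add, hfr.AB, add_zero]
  have htB' : BR F tB (tv F) = -1 - τ := by
    rw [hfr.ht, map_add, BR_symm tB tA, hfr.AB, zero_add, hσ]
  have hk1e : ih ι (K1 (u b)) - ih ι (tv F) = ih ι (K1 (u b) - tv F) := (map_sub _ _ _).symm
  have hk2e : ih ι (K2 (u b)) - ih ι (tv F) = ih ι (K2 (u b) - tv F) := (map_sub _ _ _).symm
  have hle : (-1 - τ) • ih ι tA - τ • ih ι tB = ih ι ((-1 - τ) • tA - τ • tB) := by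
    rw [map_sub, map_smul, map_smul]
  have k1t : BR F (K1 (u b) - tv F) (tv F) = 0 := by
    rw [map_sub, LinearMap.sub_apply, hW.t1 _ hub, BR_tt]; ring
  have k2t : BR F (K2 (u b) - tv F) (tv F) = 0 := by
    rw [map_sub, LinearMap.sub_apply, hW.t2 _ hub, BR_tt]; ring
  have lt : BR F ((-1 - τ) • tA - τ • tB) (tv F) = 0 := by
    rw [map_sub, LinearMap.sub_apply, map_smul, map_smul, LinearMap.smul_apply,
      LinearMap.smul_apply, htA, htB', smul_eq_mul, smul_eq_mul]; ring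
  have Ktr : BR F (tv F) (K1 (u b)) = -1 := by rw [BR_symm]; exact hW.t1 _ hub
  have Ktr2 : BR F (tv F) (K2 (u b)) = -1 := by rw [BR_symm]; exact hW.t2 _ hub
  have tAt : BR F (tv F) tA = τ := by rw [BR_symm]; exact htA
  have tBt : BR F (tv F) tB = -1 - τ := by rw [BR_symm]; exact htB'
  have K1A : BR F (K1 (u b)) tA = -1 := by rw [BR_symm]; exact hfr.AK
  have K2B : BR F (K2 (u b)) tB = -1 := by rw [BR_symm]; exact hfr.BK2
  have K2A : BR F (K2 (u b)) tA = 0 := by rw [BR_symm]; exact hfr.AK2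
  have BA : BR F tB tA = 0 := by rw [BR_symm]; exact hfr.AB
  have hiso : ∀ v v', BR G (Ψ v) (Ψ v') = BL p q m τ v v' := by
    intro v v'
    rw [hΨ, hk1e, hk2e, hle]
    apply psi_isom (BR G) BR_symm
    · rw [BR_ih]
      simp only [map_sub, LinearMap.sub_apply, hW.n1 _ hub, hW.t1 _ hub, Ktr, BR_tt]; ring
    · rw [BR_ih]
      simp only [map_sub, LinearMap.sub_apply, hW.n2 _ hub, hW.t2 _ hub, Ktr2, BR_tt]; ring
    · rw [BR_ih]
      simp only [map_sub, LinearMap.sub_apply, hW.n12 _ hub, hW.t1 _ hub, Ktr2, BR_tt]; ring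
    · exact hz _ k1t
    · exact hz _ k2t
    · rw [BR_ih]
      simp only [map_sub, LinearMap.sub_apply, map_smul, smul_eq_mul, K1A, hfr.KB, tAt, tBt]; ring
    · rw [BR_ih]
      simp only [map_sub, LinearMap.sub_apply, map_smul, smul_eq_mul, K2A, K2B, tAt, tBt]; ring
    · rw [BR_apply, hζ]
      simp only [real_inner_self_eq_norm_sq]
      have := hgn b hb hb0
      linarith
    · rw [BR_symm]; exact hz _ lt
    · rw [BR_ih]
      simp only [map_sub, LinearMap.sub_apply, map_smul, LinearMap.smul_apply, smul_eq_mul,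
        ← hτ, hfr.AB, hσ, BA]
      ring
    · intro w
      rw [LinearMap.comp_apply, BR_ih, map_sub, hW.eK, hW.et, sub_self]
    · intro w
      rw [LinearMap.comp_apply, BR_ih, map_sub, hfr.eK2, hW.et, sub_self]
    · intro w
      rw [LinearMap.comp_apply]
      exact hz _ (hW.et w)
    · intro w
      rw [LinearMap.comp_apply, BR_ih, map_sub, map_smul, map_smul, hfr.Ae, hfr.eB]
      simp
    · intro w w'
      rw [LinearMap.comp_apply, LinearMap.comp_apply, BR_ih, hW.ee]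
    · intro w
      rw [LinearMap.comp_apply, BR_ih, map_sub, hfr.Kf, hW.ft, sub_self]
    · intro w
      rw [LinearMap.comp_apply, BR_ih, map_sub, hW.fK, hW.ft, sub_self]
    · intro w
      rw [LinearMap.comp_apply]
      exact hz _ (hW.ft w)
    · intro w
      rw [LinearMap.comp_apply, BR_ih, map_sub, map_smul, map_smul, hfr.Af, hfr.Bf]
      simp
    · intro w w'
      rw [LinearMap.comp_apply, LinearMap.comp_apply, BR_ih, hW.ff]
    · exact fun w => hg _ k1t w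
    · exact fun w => hg _ k2t w
    · exact hΓζ
    · exact fun w => hg _ lt w
    · exact hΓΓ
    · intro w z
      rw [LinearMap.comp_apply, LinearMap.comp_apply, BR_ih, hfr.ef]
    · intro w z
      rw [LinearMap.comp_apply, BR_symm]
      exact hg _ (hW.et w) z
    · intro w z
      rw [LinearMap.comp_apply, BR_symm]
      exact hg _ (hW.ft w) z
  have hΨinj : Function.Injective Ψ := by
    rw [injective_iff_map_eq_zero]
    intro v hv
    apply BL_nondeg τ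
    intro w
    rw [← hiso, hv, map_zero, LinearMap.zero_apply]
  have hdimL : Module.finrank ℝ (Lo p q m) = Module.finrank ℝ (ℝ × ℝ × G × ℝ) := by
    simp only [Module.finrank_prod, finrank_euclideanSpace, Fintype.card_fin,
      Module.finrank_self, td.hT.codim]
    omega
  let Ψe : Lo p q m ≃ₗ[ℝ] (ℝ × ℝ × G × ℝ) := LinearEquiv.ofBijective Ψ
    ⟨hΨinj, (LinearMap.injective_iff_surjective_of_finrank_eq_finrank hdimL).mp hΨinj⟩
  have hΨe : (Ψe : Lo p q m →ₗ[ℝ] (ℝ × ℝ × G × ℝ)) = Ψ := by ext v <;> rfl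
  refine LieEquivAt.of_map ((PR G r).trans Ψe.symm) ?_ hV1o hbV1 hφs hbij hφb ?_
  · intro v
    have h1 : qL p q m τ (((PR G r).trans Ψe.symm) v) = quadR v := by
      rw [quadR_eq, qL, ← hiso]
      have : Ψ (((PR G r).trans Ψe.symm) v) = PR G r v := by
        rw [LinearEquiv.trans_apply]
        exact Ψe.apply_symm_apply _
      rw [this, BR_PR]
    rw [h1]
  · intro v hv
    have hvV := hv.1.1
    have huv := td.mem v hvV
    have hc0 : ζ0 v ≠ 0 := ne_of_gt hv.1.2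
    -- image of the lift
    have e1 : (liftR y η v).map (PR G r : (ℝ × ℝ × G × ℝ) →ₗ[ℝ] (ℝ × ℝ × G × ℝ)) =
        Submodule.span ℝ {Yv (ι (x (u v))), Zv (ι (x (u v))) (η v)} := by
      rw [liftR_eq, Submodule.map_span, image_pair]
      refine span_pair_eq (a := 1) (b := r) (c := 0) (d := 1) ?_ ?_ (by norm_num)
      · rw [one_smul]; exact PR_Y r (td.eq v hvV) (td.hT.unit v hvV)
      · rw [zero_smul, zero_add, one_smul]; exact PR_Z r (td.eq v hvV) (td.hT.unit v hvV)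
    have hη : ⟪ι (x (u v)), η v⟫_ℝ = ζ0 v * ⟪x (u v), ν (u v)⟫_ℝ := by
      rw [real_inner_comm, td.inner hvV, real_inner_comm (x (u v))]
    have hZ : ih ι (Zv (x (u v)) (ν (u v))) - ih ι (tv F) + ζ v =
        (ζ0 v)⁻¹ • Zv (ι (x (u v))) (η v) := by
      rw [hζ]
      simp only [ih_apply, Zv, tv, hη, hgG]
      refine Prod.ext ?_ (Prod.ext ?_ (Prod.ext ?_ ?_))
      · simp only [Prod.fst_sub, Prod.fst_add, Prod.smul_fst, smul_eq_mul]
        field_simp; ring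
      · simp only [Prod.fst_sub, Prod.fst_add, Prod.smul_fst, smul_eq_mul, Prod.snd_sub,
          Prod.snd_add, Prod.smul_snd]
        field_simp; ring
      · simp
      · simp
    have hYι : ih ι (Yv (x (u v))) = Yv (ι (x (u v))) := by
      simp only [ih_apply, Yv, LinearIsometry.norm_map]
    have hKζ : ∀ k : D → ℝ, ih ι (KK k x ν (u v)) - ih ι (tv F) + ζ v =
        k (u v) • Yv (ι (x (u v))) + (ζ0 v)⁻¹ • Zv (ι (x (u v))) (η v) := by
      intro k
      rw [← hZ, ← hYι, KK, map_add, map_smul]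
      abel
    have e2 : (Lam p q m τ (φ v)).map Ψ =
        Submodule.span ℝ {Yv (ι (x (u v))), Zv (ι (x (u v))) (η v)} := by
      rw [Lam, Submodule.map_span, image_pair]
      have hu1 := (hn1 (u v) hv.2.2.1)
      have hu2 := (hn2 (u v) hv.2.2.2)
      have f1 : Ψ (S1 τ (φ v)) = κ 0 (u v) • Yv (ι (x (u v))) +
          (ζ0 v)⁻¹ • Zv (ι (x (u v))) (η v) := by
        have g1 := psi_S1 (ih ι (tv F)) (ih ι tA) (ih ι tB) (ih ι (K1 (u b))) (ih ι (K2 (u b)))
          (ζ b) (ih ι ∘ₗ e) (ih ι ∘ₗ f) Γ τ (by rw [← map_add, ← hfr.ht]) (φ v) hu1.2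
        rw [hΨ, g1, ← hKζ (κ 0)]
        have g2 : ih ι (K1 (u v)) = al τ (φ v).1 • ih ι tA + rr τ (φ v).1 • ih ι (K1 (u b)) +
            (ih ι ∘ₗ e) (φ v).1 := by
          conv_lhs => rw [hu1.1]
          rw [map_add, map_add, map_smul, map_smul]
          rfl
        rw [← g2, ← hζV v hv]
      have f2 : Ψ (S2 τ (φ v)) = κ 1 (u v) • Yv (ι (x (u v))) +
          (ζ0 v)⁻¹ • Zv (ι (x (u v))) (η v) := by
        have g1 := psi_S2 (ih ι (tv F)) (ih ι tA) (ih ι tB) (ih ι (K1 (u b))) (ih ι (K2 (u b)))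
          (ζ b) (ih ι ∘ₗ e) (ih ι ∘ₗ f) Γ τ (by rw [← map_add, ← hfr.ht]) (φ v) hu2.2
        rw [hΨ, g1, ← hKζ (κ 1)]
        have g2 : ih ι (K2 (u v)) = al (-1 - τ) (φ v).2.1 • ih ι tB +
            rr (-1 - τ) (φ v).2.1 • ih ι (K2 (u b)) + (ih ι ∘ₗ f) (φ v).2.1 := by
          conv_lhs => rw [hu2.1]
          rw [map_add, map_add, map_smul, map_smul]
          rfl
        rw [← g2, ← hζV v hv]
      refine span_pair_eq f1 f2 ?_
      have h1 := hκ (u v) huv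
      have h2 : κ 0 (u v) * (ζ0 v)⁻¹ - (ζ0 v)⁻¹ * κ 1 (u v) =
        (κ 0 (u v) - κ 1 (u v)) * (ζ0 v)⁻¹ := by ring
      rw [h2]
      exact mul_ne_zero (sub_ne_zero.mpr h1) (inv_ne_zero hc0)
    rw [LinearEquiv.coe_trans, Submodule.map_comp, e1, ← e2, ← hΨe, ← Submodule.map_comp]
    have : (Ψe.symm : (ℝ × ℝ × G × ℝ) →ₗ[ℝ] Lo p q m) ∘ₗ (Ψe : Lo p q m →ₗ[ℝ] _) =
        LinearMap.id := by
      apply LinearMap.ext
      intro v
      exact Ψe.symm_apply_apply v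
    rw [this, Submodule.map_id]

end

end Pool.Agent.Y493.Dupin
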