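import Pool.Agent.Y493.Dupin.Psi

open scoped ContDiff InnerProductSpace Topology
open Set Filter

namespace Pool.Agent.Y493.Dupin

section
variable {F G : Type*} [NormedAddCommGroup F] [InnerProductSpace ℝ F]
  [NormedAddCommGroup G] [InnerProductSpace ℝ G]

noncomputable def ih (ι : F →ₗᵢ[ℝ] G) : (ℝ × ℝ × F × ℝ) →ₗ[ℝ] (ℝ × ℝ × G × ℝ) where
  toFun v := (v.1, v.2.1, ι v.2.2.1, v.2.2.2)
  map_add' v w := by simp
  map_smul' c v := by simp

theorem ih_apply (ι : F →ₗᵢ[ℝ] G) (v : ℝ × ℝ × F × ℝ) :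
    ih ι v = (v.1, v.2.1, ι v.2.2.1, v.2.2.2) := rfl

theorem BR_ih (ι : F →ₗᵢ[ℝ] G) (v w : ℝ × ℝ × F × ℝ) : BR G (ih ι v) (ih ι w) = BR F v w := by
  simp only [ih_apply, BR_apply, LinearIsometry.inner_map_map]

theorem BR_ih_perp (ι : F →ₗᵢ[ℝ] G) (v : ℝ × ℝ × F × ℝ) {g : G} (hg : ∀ w, ⟪g, ι w⟫_ℝ = 0)
    (c : ℝ) : BR G (ih ι v) (0, 0, g, c) = c * BR F v (tv F) := by
  simp only [ih_apply, BR_apply, tv, real_inner_comm g, hg]
  simp
  ring

/-- Parallel transformation. -/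
noncomputable def PR (G : Type*) [NormedAddCommGroup G] [InnerProductSpace ℝ G] (r : ℝ) :
    (ℝ × ℝ × G × ℝ) ≃ₗ[ℝ] (ℝ × ℝ × G × ℝ) where
  toFun v := (v.1 - (r * v.2.2.2 + r ^ 2 / 2 * (v.1 + v.2.1)),
    v.2.1 + (r * v.2.2.2 + r ^ 2 / 2 * (v.1 + v.2.1)), v.2.2.1, v.2.2.2 + r * (v.1 + v.2.1))
  invFun v := (v.1 - (-r * v.2.2.2 + r ^ 2 / 2 * (v.1 + v.2.1)),
    v.2.1 + (-r * v.2.2.2 + r ^ 2 / 2 * (v.1 + v.2.1)), v.2.2.1, v.2.2.2 - r * (v.1 + v.2.1))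
  map_add' v w := by
    refine Prod.ext ?_ (Prod.ext ?_ (Prod.ext ?_ ?_)) <;>
      simp only [Prod.fst_add, Prod.snd_add] <;> ring
  map_smul' c v := by
    refine Prod.ext ?_ (Prod.ext ?_ (Prod.ext ?_ ?_)) <;>
      simp only [Prod.smul_fst, Prod.smul_snd, smul_eq_mul, RingHom.id_apply] <;> ring
  left_inv v := by
    refine Prod.ext ?_ (Prod.ext ?_ (Prod.ext ?_ ?_)) <;> simp only [] <;> ring
  right_inv v := by
    refine Prod.ext ?_ (Prod.ext ?_ (Prod.ext ?_ ?_)) <;> simp only [] <;> ring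

theorem PR_apply (r : ℝ) (v : ℝ × ℝ × G × ℝ) :
    PR G r v = (v.1 - (r * v.2.2.2 + r ^ 2 / 2 * (v.1 + v.2.1)),
    v.2.1 + (r * v.2.2.2 + r ^ 2 / 2 * (v.1 + v.2.1)), v.2.2.1, v.2.2.2 + r * (v.1 + v.2.1)) := rfl

theorem BR_PR (r : ℝ) (v w : ℝ × ℝ × G × ℝ) : BR G (PR G r v) (PR G r w) = BR G v w := by
  simp only [PR_apply, BR_apply]; ring

theorem PR_Z (r : ℝ) {x y η : G} (hy : y = x + r • η) (hη : ‖η‖ = 1) :
    PR G r (Zv y η) = Zv x η := by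
  have h1 : ⟪y, η⟫_ℝ = ⟪x, η⟫_ℝ + r := by
    rw [hy, inner_add_left, real_inner_smul_left, real_inner_self_eq_norm_sq, hη]; ring
  simp only [PR_apply, Zv, h1]
  refine Prod.ext ?_ (Prod.ext ?_ (Prod.ext ?_ ?_)) <;> simp

theorem PR_Y (r : ℝ) {x y η : G} (hy : y = x + r • η) (hη : ‖η‖ = 1) :
    PR G r (Yv y) = Yv x + r • Zv x η := by
  have h1 : ‖y‖ ^ 2 = ‖x‖ ^ 2 + 2 * r * ⟪x, η⟫_ℝ + r ^ 2 := by
    rw [hy, norm_add_sq_real, real_inner_smul_right, norm_smul, hη]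
    simp; ring
  simp only [PR_apply, Zv, Yv, h1]
  refine Prod.ext ?_ (Prod.ext ?_ (Prod.ext ?_ ?_))
  · simp; ring
  · simp; ring
  · simp [hy]
  · simp; ring

theorem V3_frame [FiniteDimensional ℝ G] (H : Submodule ℝ G) {m : ℕ}
    (hm : m = Module.finrank ℝ H) {gb : G} (hgb : gb ∈ H) {cb : ℝ} (hcb : 0 < cb)
    (hcb2 : cb ^ 2 = 1 + ‖gb‖ ^ 2) :
    ∃ Γ : E m →ₗ[ℝ] (ℝ × ℝ × G × ℝ), (∀ w, ∃ g ∈ H, ∃ c, Γ w = (0, 0, g, c)) ∧
      (∀ w w', BR G (Γ w) (Γ w') = ⟪w, w'⟫_ℝ) ∧ (∀ w, BR G (Γ w) (0, 0, gb, cb) = 0) ∧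
      ∀ g ∈ H, ∀ c : ℝ, 0 < c → c ^ 2 = 1 + ‖g‖ ^ 2 →
        ((0, 0, g, c) : ℝ × ℝ × G × ℝ) =
          rr 1 (stB (BR G) Γ (0, 0, g, c)) • (0, 0, gb, cb) + Γ (stB (BR G) Γ (0, 0, g, c)) := by
  subst hm
  let o := stdOrthonormalBasis ℝ H
  let γ : E (Module.finrank ℝ H) →ₗ[ℝ] G := H.subtype ∘ₗ o.repr.symm.toLinearEquiv.toLinearMap
  have hγm : ∀ w, γ w ∈ H := fun w => (o.repr.symm w).2
  have hγs : ∀ g ∈ H, ∃ w, γ w = g := fun g hg => ⟨o.repr ⟨g, hg⟩, by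
    change ((o.repr.symm (o.repr ⟨g, hg⟩) : H) : G) = g
    rw [LinearIsometryEquiv.symm_apply_apply]⟩
  have hγi : ∀ w w', ⟪γ w, γ w'⟫_ℝ = ⟪w, w'⟫_ℝ := by
    intro w w'
    change ⟪((o.repr.symm w : H) : G), ((o.repr.symm w' : H) : G)⟫_ℝ = _
    rw [← Submodule.coe_inner, LinearIsometryEquiv.inner_map_map]
  have h1c : 1 + cb ≠ 0 := by positivity
  let Γ : E (Module.finrank ℝ H) →ₗ[ℝ] (ℝ × ℝ × G × ℝ) :=
    { toFun := fun w => (0, 0, γ w + (⟪gb, γ w⟫_ℝ / (1 + cb)) • gb, ⟪gb, γ w⟫_ℝ)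
      map_add' := by
        intro w w'
        refine Prod.ext ?_ (Prod.ext ?_ (Prod.ext ?_ ?_))
        · simp
        · simp
        · simp only [map_add, inner_add_right, Prod.snd_add, Prod.fst_add]; module
        · simp only [map_add, inner_add_right, Prod.snd_add]
      map_smul' := by
        intro c w
        refine Prod.ext ?_ (Prod.ext ?_ (Prod.ext ?_ ?_))
        · simp
        · simp
        · simp only [map_smul, inner_smul_right, Prod.smul_snd, Prod.smul_fst, RingHom.id_apply]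
          module
        · simp only [map_smul, inner_smul_right, Prod.smul_snd, RingHom.id_apply, smul_eq_mul] }
  have hΓ : ∀ w, Γ w = (0, 0, γ w + (⟪gb, γ w⟫_ℝ / (1 + cb)) • gb, ⟪gb, γ w⟫_ℝ) := fun w => rfl
  have hΓΓ : ∀ w w', BR G (Γ w) (Γ w') = ⟪w, w'⟫_ℝ := by
    intro w w'
    rw [hΓ, hΓ, BR_apply]
    simp only [inner_add_left, inner_add_right, real_inner_smul_left, real_inner_smul_right, hγi,
      real_inner_self_eq_norm_sq, real_inner_comm gb (γ w)]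
    have h2 : ‖gb‖ ^ 2 = cb ^ 2 - 1 := by rw [hcb2]; ring
    rw [h2]
    field_simp
    ring
  have hΓζ : ∀ w, BR G (Γ w) (0, 0, gb, cb) = 0 := by
    intro w
    rw [hΓ, BR_apply]
    simp only [inner_add_left, real_inner_smul_left, real_inner_self_eq_norm_sq,
      real_inner_comm gb (γ w)]
    have h2 : ‖gb‖ ^ 2 = cb ^ 2 - 1 := by rw [hcb2]; ring
    rw [h2]
    field_simp
    ring
  refine ⟨Γ, fun w => ⟨_, H.add_mem (hγm w) (H.smul_mem _ hgb), _, hΓ w⟩, hΓΓ, hΓζ, ?_⟩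
  intro g hg c hc hc2
  set lam : ℝ := c * cb - ⟪gb, g⟫_ℝ with hlam
  obtain ⟨w, hw⟩ := hγs (g - ((c + lam) / (1 + cb)) • gb) (H.sub_mem hg (H.smul_mem _ hgb))
  have h2 : ‖gb‖ ^ 2 = cb ^ 2 - 1 := by rw [hcb2]; ring
  have hin : ⟪gb, γ w⟫_ℝ = c - lam * cb := by
    rw [hw, inner_sub_right, real_inner_smul_right, real_inner_self_eq_norm_sq, h2]
    have : ⟪gb, g⟫_ℝ = c * cb - lam := by rw [hlam]; ring
    rw [this]
    field_simp
    ring
  have hdec : ((0, 0, g, c) : ℝ × ℝ × G × ℝ) = lam • (0, 0, gb, cb) + Γ w := by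
    rw [hΓ, hin, hw]
    refine Prod.ext ?_ (Prod.ext ?_ (Prod.ext ?_ ?_))
    · simp
    · simp
    · simp only [Prod.smul_mk, Prod.mk_add_mk]
      have : lam • gb + (g - ((c + lam) / (1 + cb)) • gb + ((c - lam * cb) / (1 + cb)) • gb)
        = g + (lam - (c + lam) / (1 + cb) + (c - lam * cb) / (1 + cb)) • gb := by module
      rw [this]
      have : lam - (c + lam) / (1 + cb) + (c - lam * cb) / (1 + cb) = 0 := by
        field_simp; ring
      rw [this]; simp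
    · simp
  have hst : stB (BR G) Γ (0, 0, g, c) = w := by
    apply stB_eq
    intro w'
    rw [hdec, map_add, map_smul, LinearMap.add_apply, LinearMap.smul_apply,
      BR_symm (0, 0, gb, cb), hΓζ, hΓΓ]
    simp
  have hζζ : BR G (0, 0, gb, cb) (0, 0, gb, cb) = -1 := by
    rw [BR_apply]
    simp only [real_inner_self_eq_norm_sq, h2]
    ring
  have hlam2 : lam ^ 2 = 1 + ‖w‖ ^ 2 := by
    have h3 : BR G (0, 0, g, c) (0, 0, g, c) = -1 := by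
      rw [BR_apply]
      simp only [real_inner_self_eq_norm_sq]
      linarith
    have h4 := h3
    rw [hdec] at h4
    simp only [map_add, map_smul, LinearMap.add_apply, LinearMap.smul_apply, smul_eq_mul,
      hζζ, hΓζ, hΓΓ, BR_symm (0, 0, gb, cb) (Γ w), real_inner_self_eq_norm_sq] at h4
    linarith
  have hlampos : 0 < lam := by
    have h5 : ⟪gb, g⟫_ℝ ≤ ‖gb‖ * ‖g‖ := real_inner_le_norm gb g
    have h6 : ‖gb‖ < cb := by
      have := norm_nonneg gb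
      nlinarith
    have h7 : ‖g‖ < c := by
      have := norm_nonneg g
      nlinarith
    have h8 : ‖gb‖ * ‖g‖ < cb * c := by
      have := norm_nonneg gb
      have := norm_nonneg g
      nlinarith
    rw [hlam]; nlinarith
  have hrr : rr 1 w = lam := by
    rw [rr, one_mul, ← hlam2, Real.sqrt_sq hlampos.le]
  rw [hst, hrr]
  exact hdec

end

end Pool.Agent.Y493.Dupin
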