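import Pool.Agent.Y493.Dupin.Perm

open scoped ContDiff InnerProductSpace Topology
open Set Filter

namespace Pool.Agent.Y493.Dupin

theorem al_lin {n : ℕ} (hn : 0 < n) {τ k : ℝ} {w0 : E n}
    (h : ∀ᶠ w in 𝓝 (0 : E n), k * al τ w + ⟪w0, w⟫_ℝ = 0) : k = 0 ∧ w0 = 0 := by
  have hneg : ∀ᶠ w in 𝓝 (0 : E n), k * al τ w - ⟪w0, w⟫_ℝ = 0 := by
    have h1 : Tendsto (fun w : E n => -w) (𝓝 0) (𝓝 0) := by
      have := (continuous_neg (G := E n)).tendsto 0
      rwa [neg_zero] at this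
    filter_upwards [h1.eventually h] with w hw
    have h2 : al τ (-w) = al τ w := by simp [al, rr]
    rw [h2, inner_neg_right] at hw
    linarith
  have hboth : ∀ᶠ w in 𝓝 (0 : E n), k * al τ w = 0 ∧ ⟪w0, w⟫_ℝ = 0 := by
    filter_upwards [h, hneg] with w h1 h2
    constructor <;> linarith
  have hline : ∀ e : E n, ∀ᶠ s : ℝ in 𝓝[≠] 0, k * al τ (s • e) = 0 ∧ ⟪w0, s • e⟫_ℝ = 0 := by
    intro e
    have h1 : Tendsto (fun s : ℝ => s • e) (𝓝 0) (𝓝 0) :=
      Continuous.tendsto' (by fun_prop) _ _ (zero_smul ℝ e)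
    exact (h1.eventually hboth).filter_mono nhdsWithin_le_nhds
  constructor
  · have : Nonempty (Fin n) := ⟨⟨0, hn⟩⟩
    obtain ⟨e, he⟩ := exists_ne (0 : E n)
    obtain ⟨s, hs, hs0⟩ := ((hline e).and self_mem_nhdsWithin).exists
    have hs0' : s ≠ 0 := hs0
    have h2 : 0 < al τ (s • e) := by
      rw [al]
      have h3 : 0 ≤ rr τ (s • e) := Real.sqrt_nonneg _
      have h4 : 0 < ‖s • e‖ := norm_pos_iff.mpr (smul_ne_zero hs0' he)
      positivity
    exact (mul_eq_zero.mp hs.1).resolve_right h2.ne'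
  · obtain ⟨s, hs, hs0⟩ := ((hline w0).and self_mem_nhdsWithin).exists
    have hs0' : s ≠ 0 := hs0
    have h2 := hs.2
    rw [inner_smul_right, real_inner_self_eq_norm_sq] at h2
    have h3 := (mul_eq_zero.mp h2).resolve_left hs0'
    rwa [sq_eq_zero_iff, norm_eq_zero] at h3

section
variable {p q m : ℕ} {τ : ℝ}

theorem BL_S1 {u : E q × E p × E m} (hu : u ∈ Good τ) (v : Lo p q m) :
    BL p q m τ v (S1 τ u) = -v.1 + τ * v.1 * (rr 1 u.2.2 - 1) - v.2.1 * (al τ u.1 + (rr 1 u.2.2 - 1))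
      + ((-1 - τ) * v.2.2.1 - v.2.2.2.1) * (rr 1 u.2.2 - 1)
      + ⟪v.2.2.2.2.1, u.1⟫_ℝ + ⟪v.2.2.2.2.2.2, u.2.2⟫_ℝ := by
  have h := al_rr hu.1.le
  rw [BL_apply, S1]
  simp only [inner_zero_right]
  linear_combination v.1 * h

theorem BL_S2 {u : E q × E p × E m} (hu : u ∈ Good τ) (v : Lo p q m) :
    BL p q m τ v (S2 τ u) = -v.2.2.1 + (τ * v.1 - v.2.1) * (rr 1 u.2.2 - 1)
      + (-1 - τ) * v.2.2.1 * (rr 1 u.2.2 - 1)
      - v.2.2.2.1 * (al (-1 - τ) u.2.1 + (rr 1 u.2.2 - 1))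
      + ⟪v.2.2.2.2.2.1, u.2.1⟫_ℝ + ⟪v.2.2.2.2.2.2, u.2.2⟫_ℝ := by
  have h := al_rr hu.2.le
  rw [BL_apply, S2]
  simp only [inner_zero_right]
  linear_combination v.2.2.1 * h

/-- Vectors orthogonal to the `i`-th curvature sphere map near the origin. -/
noncomputable def VV (p q m : ℕ) (τ : ℝ) (i : Fin 3) : Submodule ℝ (Lo p q m) where
  carrier := {v | ∀ᶠ u in 𝓝 (0 : E q × E p × E m), BL p q m τ v (RR τ i u) = 0}
  add_mem' := by
    intro v w hv hw
    filter_upwards [hv, hw] with u h1 h2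
    rw [map_add, LinearMap.add_apply, h1, h2, add_zero]
  zero_mem' := by
    refine Eventually.of_forall fun u => ?_
    rw [map_zero, LinearMap.zero_apply]
  smul_mem' := by
    intro c v hv
    filter_upwards [hv] with u h1
    rw [map_smul, LinearMap.smul_apply, h1, smul_zero]

theorem mem_VV {i : Fin 3} {v : Lo p q m} :
    v ∈ VV p q m τ i ↔ ∀ᶠ u in 𝓝 (0 : E q × E p × E m), BL p q m τ v (RR τ i u) = 0 := Iff.rfl

noncomputable def J0 (p q m : ℕ) (τ : ℝ) : ℝ × E p →ₗ[ℝ] Lo p q m where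
  toFun v := (0, 0, v.1, (-1 - τ) * v.1, 0, v.2, 0)
  map_add' v w := by simp [mul_add]
  map_smul' c v := by simp; ring

noncomputable def J1 (p q m : ℕ) (τ : ℝ) : ℝ × E q →ₗ[ℝ] Lo p q m where
  toFun v := (v.1, τ * v.1, 0, 0, v.2, 0, 0)
  map_add' v w := by simp [mul_add]
  map_smul' c v := by simp; ring

noncomputable def J2 (p q m : ℕ) : ℝ × E m →ₗ[ℝ] Lo p q m where
  toFun v := (v.1, 0, v.1, 0, 0, 0, v.2)
  map_add' v w := by simp
  map_smul' c v := by simp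

theorem J0_apply (v : ℝ × E p) : J0 p q m τ v = (0, 0, v.1, (-1 - τ) * v.1, 0, v.2, 0) := rfl
theorem J1_apply (v : ℝ × E q) : J1 p q m τ v = (v.1, τ * v.1, 0, 0, v.2, 0, 0) := rfl
theorem J2_apply (v : ℝ × E m) : J2 p q m v = (v.1, 0, v.1, 0, 0, 0, v.2) := rfl

theorem good_nhds : ∀ᶠ u in 𝓝 (0 : E q × E p × E m), u ∈ Good τ :=
  (isOpen_Good τ).mem_nhds (zero_mem_Good τ)

theorem tend1 : Tendsto (fun w : E q => ((w, 0, 0) : E q × E p × E m)) (𝓝 0) (𝓝 0) :=
  (continuous_id.prodMk continuous_const).tendsto' _ _ rfl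
theorem tend2 : Tendsto (fun w : E p => ((0, w, 0) : E q × E p × E m)) (𝓝 0) (𝓝 0) :=
  (continuous_const.prodMk (continuous_id.prodMk continuous_const)).tendsto' _ _ rfl
theorem tend3 : Tendsto (fun w : E m => ((0, 0, w) : E q × E p × E m)) (𝓝 0) (𝓝 0) :=
  (continuous_const.prodMk (continuous_const.prodMk continuous_id)).tendsto' _ _ rfl

theorem al_one {n : ℕ} (o : E n) : rr 1 o - 1 = al 1 o := by
  have := al_rr (τ := 1) (w := o) (one_good o).le
  linarith

theorem VV0 (hq : 0 < q) (hm : 0 < m) : VV p q m τ 0 = LinearMap.range (J0 p q m τ) := by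
  ext v
  rw [mem_VV, LinearMap.mem_range]
  constructor
  · intro h
    have hg := h.and (good_nhds (τ := τ))
    have e1 : ∀ᶠ u in 𝓝 (0 : E q × E p × E m), -v.1 + τ * v.1 * (rr 1 u.2.2 - 1)
        - v.2.1 * (al τ u.1 + (rr 1 u.2.2 - 1))
        + ((-1 - τ) * v.2.2.1 - v.2.2.2.1) * (rr 1 u.2.2 - 1)
        + ⟪v.2.2.2.2.1, u.1⟫_ℝ + ⟪v.2.2.2.2.2.2, u.2.2⟫_ℝ = 0 := by
      filter_upwards [hg] with u hu
      rw [← BL_S1 hu.2]; exact hu.1
    have a0 : v.1 = 0 := by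
      have := e1.self_of_nhds
      simp [rr_zero, al_zero] at this
      exact this
    rw [a0] at e1
    have e2 := tend1.eventually e1
    have e3 := tend3.eventually e1
    simp only [rr_zero, al_zero, inner_zero_right] at e2 e3
    obtain ⟨b0, w0⟩ := al_lin hq (τ := τ) (k := -v.2.1) (w0 := v.2.2.2.2.1)
      (by filter_upwards [e2] with w hw; linarith)
    have b0' : v.2.1 = 0 := by linarith
    obtain ⟨d0, o0⟩ := al_lin hm (τ := 1) (k := (-1 - τ) * v.2.2.1 - v.2.2.2.1)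
      (w0 := v.2.2.2.2.2.2)
      (by filter_upwards [e3] with w hw; rw [b0'] at hw; rw [← al_one]; linarith)
    refine ⟨(v.2.2.1, v.2.2.2.2.2.1), ?_⟩
    rw [J0_apply]
    refine Prod.ext a0.symm (Prod.ext b0'.symm (Prod.ext rfl (Prod.ext ?_ (Prod.ext w0.symm
      (Prod.ext rfl o0.symm)))))
    simp only
    linarith
  · rintro ⟨x, rfl⟩
    filter_upwards [good_nhds (τ := τ)] with u hu
    change BL p q m τ _ (S1 τ u) = 0
    rw [BL_S1 hu, J0_apply]
    simp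

theorem VV1 (hp : 0 < p) (hm : 0 < m) : VV p q m τ 1 = LinearMap.range (J1 p q m τ) := by
  ext v
  rw [mem_VV, LinearMap.mem_range]
  constructor
  · intro h
    have hg := h.and (good_nhds (τ := τ))
    have e1 : ∀ᶠ u in 𝓝 (0 : E q × E p × E m), -v.2.2.1 + (τ * v.1 - v.2.1) * (rr 1 u.2.2 - 1)
      + (-1 - τ) * v.2.2.1 * (rr 1 u.2.2 - 1)
      - v.2.2.2.1 * (al (-1 - τ) u.2.1 + (rr 1 u.2.2 - 1))
      + ⟪v.2.2.2.2.2.1, u.2.1⟫_ℝ + ⟪v.2.2.2.2.2.2, u.2.2⟫_ℝ = 0 := by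
      filter_upwards [hg] with u hu
      rw [← BL_S2 hu.2]
      have h1 : BL p q m τ v (-S2 τ u) = 0 := hu.1
      rw [map_neg] at h1
      linarith
    have a0 : v.2.2.1 = 0 := by
      have := e1.self_of_nhds
      simp [rr_zero, al_zero] at this
      exact this
    rw [a0] at e1
    have e2 := tend2.eventually e1
    have e3 := tend3.eventually e1
    simp only [rr_zero, al_zero, inner_zero_right] at e2 e3
    obtain ⟨b0, w0⟩ := al_lin hp (τ := -1 - τ) (k := -v.2.2.2.1) (w0 := v.2.2.2.2.2.1)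
      (by filter_upwards [e2] with w hw; linarith)
    have b0' : v.2.2.2.1 = 0 := by linarith
    obtain ⟨d0, o0⟩ := al_lin hm (τ := 1) (k := τ * v.1 - v.2.1)
      (w0 := v.2.2.2.2.2.2)
      (by filter_upwards [e3] with w hw; rw [b0'] at hw; rw [← al_one]; linarith)
    refine ⟨(v.1, v.2.2.2.2.1), ?_⟩
    rw [J1_apply]
    refine Prod.ext rfl (Prod.ext ?_ (Prod.ext a0.symm (Prod.ext b0'.symm (Prod.ext rfl
      (Prod.ext w0.symm o0.symm)))))
    simp only
    linarith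
  · rintro ⟨x, rfl⟩
    filter_upwards [good_nhds (τ := τ)] with u hu
    change BL p q m τ _ (-S2 τ u) = 0
    rw [map_neg, BL_S2 hu, J1_apply]
    simp

theorem VV2 (hp : 0 < p) (hq : 0 < q) : VV p q m τ 2 = LinearMap.range (J2 p q m) := by
  ext v
  rw [mem_VV, LinearMap.mem_range]
  constructor
  · intro h
    have hg := h.and (good_nhds (τ := τ))
    have e1 : ∀ᶠ u in 𝓝 (0 : E q × E p × E m),
      (-v.2.2.1 + (τ * v.1 - v.2.1) * (rr 1 u.2.2 - 1)
      + (-1 - τ) * v.2.2.1 * (rr 1 u.2.2 - 1)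
      - v.2.2.2.1 * (al (-1 - τ) u.2.1 + (rr 1 u.2.2 - 1))
      + ⟪v.2.2.2.2.2.1, u.2.1⟫_ℝ + ⟪v.2.2.2.2.2.2, u.2.2⟫_ℝ) -
      (-v.1 + τ * v.1 * (rr 1 u.2.2 - 1)
        - v.2.1 * (al τ u.1 + (rr 1 u.2.2 - 1))
        + ((-1 - τ) * v.2.2.1 - v.2.2.2.1) * (rr 1 u.2.2 - 1)
        + ⟪v.2.2.2.2.1, u.1⟫_ℝ + ⟪v.2.2.2.2.2.2, u.2.2⟫_ℝ) = 0 := by
      filter_upwards [hg] with u hu
      rw [← BL_S2 hu.2, ← BL_S1 hu.2]
      have h1 : BL p q m τ v (S2 τ u - S1 τ u) = 0 := hu.1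
      rwa [map_sub] at h1
    have a0 : v.1 = v.2.2.1 := by
      have := e1.self_of_nhds
      simp [rr_zero, al_zero] at this
      linarith
    have e2 := tend1.eventually e1
    have e3 := tend2.eventually e1
    simp only [rr_zero, al_zero, inner_zero_right] at e2 e3
    obtain ⟨b0, w0⟩ := al_lin hq (τ := τ) (k := v.2.1) (w0 := -v.2.2.2.2.1)
      (by filter_upwards [e2] with w hw; rw [inner_neg_left]; linarith)
    obtain ⟨d0, z0⟩ := al_lin hp (τ := -1 - τ) (k := -v.2.2.2.1) (w0 := v.2.2.2.2.2.1)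
      (by filter_upwards [e3] with w hw; linarith)
    refine ⟨(v.1, v.2.2.2.2.2.2), ?_⟩
    rw [J2_apply]
    refine Prod.ext rfl (Prod.ext b0.symm (Prod.ext a0 (Prod.ext ?_ (Prod.ext ?_
      (Prod.ext z0.symm rfl)))))
    · simp only; linarith
    · exact (neg_eq_zero.mp w0).symm
  · rintro ⟨x, rfl⟩
    filter_upwards [good_nhds (τ := τ)] with u hu
    change BL p q m τ _ (S2 τ u - S1 τ u) = 0
    rw [map_sub, BL_S2 hu, BL_S1 hu, J2_apply]
    simp only [inner_zero_left]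
    ring

theorem finrank_VV (hp : 0 < p) (hq : 0 < q) (hm : 0 < m) (i : Fin 3) :
    Module.finrank ℝ (VV p q m τ i) = ![p, q, m] i + 1 := by
  fin_cases i
  · change Module.finrank ℝ (VV p q m τ 0) = p + 1
    rw [VV0 hq hm, LinearMap.finrank_range_of_inj]
    · simp only [Module.finrank_prod, Module.finrank_self, finrank_euclideanSpace,
        Fintype.card_fin]; ring
    · intro x y hxy
      rw [J0_apply, J0_apply] at hxy
      simp only [Prod.mk.injEq] at hxy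
      exact Prod.ext hxy.2.2.1 hxy.2.2.2.2.2.1
  · change Module.finrank ℝ (VV p q m τ 1) = q + 1
    rw [VV1 hp hm, LinearMap.finrank_range_of_inj]
    · simp only [Module.finrank_prod, Module.finrank_self, finrank_euclideanSpace,
        Fintype.card_fin]; ring
    · intro x y hxy
      rw [J1_apply, J1_apply] at hxy
      simp only [Prod.mk.injEq] at hxy
      exact Prod.ext hxy.1 hxy.2.2.2.2.1
  · change Module.finrank ℝ (VV p q m τ 2) = m + 1
    rw [VV2 hp hq, LinearMap.finrank_range_of_inj]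
    · simp only [Module.finrank_prod, Module.finrank_self, finrank_euclideanSpace,
        Fintype.card_fin]; ring
    · intro x y hxy
      rw [J2_apply, J2_apply] at hxy
      simp only [Prod.mk.injEq] at hxy
      exact Prod.ext hxy.1 hxy.2.2.2.2.2.2

end

end Pool.Agent.Y493.Dupin
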