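import Pool.Agent.Y493.Dupin.Alg
import Pool.Agent.Y493.Dupin.Prod

open scoped ContDiff InnerProductSpace Topology
open Set Filter

namespace Pool.Agent.Y493.Dupin

section
variable {D L : Type*} [NormedAddCommGroup D] [NormedSpace ℝ D] [FiniteDimensional ℝ D]
  [NormedAddCommGroup L] [NormedSpace ℝ L] [FiniteDimensional ℝ L]

omit [FiniteDimensional ℝ D] in
theorem deriv_zero {K : D → L} {a : D} (hK : DifferentiableAt ℝ K a) (T : L →ₗ[ℝ] ℝ) {O : Set D}
    (hO : O ∈ 𝓝 a) (h : ∀ u ∈ O, T (K u) = 0) (x : D) : T (fderiv ℝ K a x) = 0 := by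
  have h1 : HasFDerivAt (fun u => T (K u)) (T.toContinuousLinearMap ∘L fderiv ℝ K a) a :=
    T.toContinuousLinearMap.hasFDerivAt.comp a hK.hasFDerivAt
  have h2 : HasFDerivAt (fun u => T (K u)) (0 : D →L[ℝ] ℝ) a := by
    refine (hasFDerivAt_const (0 : ℝ) a).congr_of_eventuallyEq ?_
    filter_upwards [hO] with u hu
    exact h u hu
  have h3 := congrArg (fun S => S x) (h1.unique h2)
  simpa using h3

variable (B : L →ₗ[ℝ] L →ₗ[ℝ] ℝ)

structure WData (p q : ℕ) (t : L) (U : Set D) (a : D) (K1 K2 : D → L)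
    (e : E q →ₗ[ℝ] L) (f : E p →ₗ[ℝ] L) (X : E q →ₗ[ℝ] D) (X' : E p →ₗ[ℝ] D) : Prop where
  symm : ∀ v w, B v w = B w v
  nondeg : ∀ v, (∀ w, B v w = 0) → v = 0
  dim : Module.finrank ℝ L = p + q + 4
  hp : 0 < p
  hq : 0 < q
  tt : B t t = -1
  hU : IsOpen U
  ha : a ∈ U
  hK1 : ContDiffOn ℝ ∞ K1 U
  hK2 : ContDiffOn ℝ ∞ K2 U
  ker : ∀ u ∈ U, LinearMap.ker (fderiv ℝ K1 u : D →ₗ[ℝ] L) ⊔
    LinearMap.ker (fderiv ℝ K2 u : D →ₗ[ℝ] L) = ⊤
  n1 : ∀ u ∈ U, B (K1 u) (K1 u) = 0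
  n2 : ∀ u ∈ U, B (K2 u) (K2 u) = 0
  n12 : ∀ u ∈ U, B (K1 u) (K2 u) = 0
  t1 : ∀ u ∈ U, B (K1 u) t = -1
  t2 : ∀ u ∈ U, B (K2 u) t = -1
  ee : ∀ w w', B (e w) (e w') = ⟪w, w'⟫_ℝ
  ff : ∀ w w', B (f w) (f w') = ⟪w, w'⟫_ℝ
  et : ∀ w, B (e w) t = 0
  ft : ∀ w, B (f w) t = 0
  eK : ∀ w, B (e w) (K1 a) = 0
  fK : ∀ w, B (f w) (K2 a) = 0
  hX : ∀ w, fderiv ℝ K1 a (X w) = e w
  hX2 : ∀ w, fderiv ℝ K2 a (X w) = 0
  hX' : ∀ w, fderiv ℝ K2 a (X' w) = f w
  hX'1 : ∀ w, fderiv ℝ K1 a (X' w) = 0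
  surj : ∀ x, ∃ w z, X w + X' z = x

variable {B}
variable {p q : ℕ} {t : L} {U : Set D} {a : D} {K1 K2 : D → L}
    {e : E q →ₗ[ℝ] L} {f : E p →ₗ[ℝ] L} {X : E q →ₗ[ℝ] D} {X' : E p →ₗ[ℝ] D}

omit [FiniteDimensional ℝ D] [FiniteDimensional ℝ L] in
theorem WData.swap (h : WData B p q t U a K1 K2 e f X X') :
    WData B q p t U a K2 K1 f e X' X where
  symm := h.symm
  nondeg := h.nondeg
  dim := by rw [h.dim]; ring
  hp := h.hq
  hq := h.hp
  tt := h.tt
  hU := h.hU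
  ha := h.ha
  hK1 := h.hK2
  hK2 := h.hK1
  ker := fun u hu => by rw [sup_comm]; exact h.ker u hu
  n1 := h.n2
  n2 := h.n1
  n12 := fun u hu => by rw [h.symm]; exact h.n12 u hu
  t1 := h.t2
  t2 := h.t1
  ee := h.ff
  ff := h.ee
  et := h.ft
  ft := h.et
  eK := h.fK
  fK := h.eK
  hX := h.hX'
  hX2 := h.hX'1
  hX' := h.hX
  hX'1 := h.hX2
  surj := fun x => by
    obtain ⟨w, z, hh⟩ := h.surj x
    exact ⟨z, w, by rw [add_comm]; exact hh⟩

theorem WData.orth (h : WData B p q t U a K1 K2 e f X X') :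
    ∃ O, IsOpen O ∧ a ∈ O ∧ O ⊆ U ∧ ∀ u ∈ O, ∀ v ∈ O, B (K1 u) (K2 v) = 0 := by
  have hb : Function.Bijective (fun v =>
      ((stB B e).toContinuousLinearMap (fderiv ℝ K1 a v),
        (stB B f).toContinuousLinearMap (fderiv ℝ K2 a v))) := by
    have key : ∀ w z, ((stB B e).toContinuousLinearMap (fderiv ℝ K1 a (X w + X' z)),
        (stB B f).toContinuousLinearMap (fderiv ℝ K2 a (X w + X' z))) = (w, z) := by
      intro w z
      have k1 : fderiv ℝ K1 a (X w + X' z) = e w := by rw [map_add, h.hX, h.hX'1, add_zero]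
      have k2 : fderiv ℝ K2 a (X w + X' z) = f z := by rw [map_add, h.hX2, h.hX', zero_add]
      rw [k1, k2]
      exact Prod.ext (stB_eq B e _ _ fun w' => h.ee w w') (stB_eq B f _ _ fun w' => h.ff z w')
    constructor
    · intro x y hxy
      obtain ⟨w, z, rfl⟩ := h.surj x
      obtain ⟨w', z', rfl⟩ := h.surj y
      simp only at hxy
      rw [key, key] at hxy
      have h1 : w = w' := (Prod.ext_iff.mp hxy).1
      have h2 : z = z' := (Prod.ext_iff.mp hxy).2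
      rw [h1, h2]
    · rintro ⟨w, z⟩
      exact ⟨X w + X' z, key w z⟩
  obtain ⟨O, h1, h2, h3, h4⟩ := product_structure h.hU h.ha h.hK1 h.hK2
    (E1 := fun u => LinearMap.ker (fderiv ℝ K1 u : D →ₗ[ℝ] L))
    (E2 := fun u => LinearMap.ker (fderiv ℝ K2 u : D →ₗ[ℝ] L)) h.ker
    (fun u _ v hv => hv) (fun u _ v hv => hv) _ _ hb
  refine ⟨O, h1, h2, h3, fun u hu v hv => ?_⟩
  obtain ⟨s, hs, e1, e2⟩ := h4 u hu v hv
  rw [← e1, ← e2, h.n12 s hs]

omit [FiniteDimensional ℝ D] in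
theorem WData.exists_ne (h : WData B p q t U a K1 K2 e f X X') {O : Set D} (hO : O ∈ 𝓝 a)
    (hOU : O ⊆ U) : ∃ u ∈ O, B (K1 u) (K1 a) ≠ 0 := by
  by_contra hcon
  push Not at hcon
  have : Nonempty (Fin q) := ⟨⟨0, h.hq⟩⟩
  obtain ⟨w, hw⟩ := _root_.exists_ne (0 : E q)
  have hd : DifferentiableAt ℝ K1 a :=
    (h.hK1.contDiffAt (h.hU.mem_nhds h.ha)).differentiableAt (by simp)
  have hline : HasDerivAt (fun s : ℝ => a + s • X w) (X w) 0 := by
    have := ((hasDerivAt_id (0 : ℝ)).smul_const (X w)).const_add a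
    simpa using this
  have hg : HasDerivAt (fun s : ℝ => K1 (a + s • X w)) (e w) 0 := by
    have h1 : HasFDerivAt K1 (fderiv ℝ K1 a) (a + (0 : ℝ) • X w) := by
      simpa using hd.hasFDerivAt
    have := h1.comp_hasDerivAt (0 : ℝ) hline
    rwa [h.hX] at this
  rw [hasDerivAt_iff_tendsto_slope_zero] at hg
  have hcontB : Continuous fun v : L => B v v := by
    have : Continuous fun v : L => B.toContinuousBilinearMap v v :=
      (B.toContinuousBilinearMap.continuous).clm_apply continuous_id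
    exact this
  have hlim := (hcontB.tendsto (e w)).comp hg
  have hev : ∀ᶠ s : ℝ in 𝓝[≠] 0, (fun v : L => B v v)
      (s⁻¹ • ((fun s : ℝ => K1 (a + s • X w)) (0 + s) - (fun s : ℝ => K1 (a + s • X w)) 0))
      = 0 := by
    have hc : Tendsto (fun s : ℝ => a + s • X w) (𝓝 0) (𝓝 a) := by
      have := hline.continuousAt.tendsto
      simpa using this
    have hm : ∀ᶠ s : ℝ in 𝓝 0, a + s • X w ∈ O := hc hO
    filter_upwards [hm.filter_mono nhdsWithin_le_nhds] with s hs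
    have h1 := hcon _ hs
    have h2 : B (K1 a) (K1 (a + s • X w)) = 0 := by rw [h.symm]; exact h1
    have h3 := h.n1 _ (hOU hs)
    have h4 := h.n1 _ h.ha
    simp [h1, h2, h3, h4]
  have h0 : B (e w) (e w) = 0 := by
    have hlim' : Tendsto (fun _ : ℝ => (0 : ℝ)) (𝓝[≠] 0) (𝓝 (B (e w) (e w))) := by
      refine hlim.congr' ?_
      filter_upwards [hev] with s hs
      exact hs
    exact (tendsto_nhds_unique hlim' tendsto_const_nhds)
  rw [h.ee, real_inner_self_eq_norm_sq, sq_eq_zero_iff, norm_eq_zero] at h0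
  exact hw h0

structure Split (B : L →ₗ[ℝ] L →ₗ[ℝ] ℝ) (t : L) (O : Set D) (K1 K2 : D → L) (tA : L) : Prop where
  orth : ∀ u ∈ O, ∀ v ∈ O, B (K1 u) (K2 v) = 0
  A2 : ∀ v ∈ O, B tA (K2 v) = 0
  B1 : ∀ u ∈ O, B (t - tA) (K1 u) = 0
  AB : B tA (t - tA) = 0

omit [FiniteDimensional ℝ D] in
theorem WData.frame (h : WData B p q t U a K1 K2 e f X X') {O : Set D} (hO : O ∈ 𝓝 a)
    {tA : L} (hs : Split B t O K1 K2 tA) :
    Frame B p q t tA (K1 a) e (t - tA) (K2 a) f (B tA tA) (B (t - tA) (t - tA)) := by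
  have haO : a ∈ O := mem_of_mem_nhds hO
  have hd1 : DifferentiableAt ℝ K1 a :=
    (h.hK1.contDiffAt (h.hU.mem_nhds h.ha)).differentiableAt (by simp)
  have hd2 : DifferentiableAt ℝ K2 a :=
    (h.hK2.contDiffAt (h.hU.mem_nhds h.ha)).differentiableAt (by simp)
  have A2' : ∀ z, B (f z) tA = 0 := fun z => by
    rw [h.symm, ← h.hX']
    exact deriv_zero hd2 (B tA) hO hs.A2 _
  have B1' : ∀ w, B (e w) (t - tA) = 0 := fun w => by
    rw [h.symm, ← h.hX]
    exact deriv_zero hd1 (B (t - tA)) hO hs.B1 _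
  have Kf : ∀ u ∈ O, ∀ z, B (K1 u) (f z) = 0 := fun u hu z => by
    rw [← h.hX']
    exact deriv_zero hd2 (B (K1 u)) hO (hs.orth u hu) _
  have eK2 : ∀ w, B (e w) (K2 a) = 0 := fun w => by
    rw [h.symm, ← h.hX]
    refine deriv_zero hd1 (B (K2 a)) hO (fun u hu => ?_) _
    rw [h.symm]; exact hs.orth u hu a haO
  have ef : ∀ w z, B (e w) (f z) = 0 := fun w z => by
    rw [h.symm, ← h.hX]
    refine deriv_zero hd1 (B (f z)) hO (fun u hu => ?_) _
    rw [h.symm]; exact Kf u hu z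
  have hAt : B tA t = B tA tA := by
    have := hs.AB
    rw [map_sub] at this; linarith
  have hKt := h.t1 a h.ha
  have hKt2 := h.t2 a h.ha
  refine ⟨h.symm, h.nondeg, inferInstance, h.dim, by abel, rfl, ?_, h.n1 a h.ha, ?_, h.eK, h.ee,
    rfl, ?_, h.n2 a h.ha, ?_, h.fK, h.ff, hs.AB, hs.A2 a haO, A2', ?_, hs.orth a haO a haO,
    ?_, B1', eK2, ef⟩
  · have := hs.B1 a haO
    rw [map_sub, LinearMap.sub_apply, h.symm t, hKt] at this
    linarith
  · intro w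
    have := B1' w
    rw [map_sub, h.et] at this
    linarith
  · rw [map_sub, LinearMap.sub_apply, h.symm t, hKt2, hs.A2 a haO]; ring
  · intro w
    rw [map_sub, h.ft, A2']; ring
  · rw [h.symm]; exact hs.B1 a haO
  · intro w; rw [h.symm]; exact Kf a haO w

omit [FiniteDimensional ℝ D] [FiniteDimensional ℝ L] in
theorem WData.inj (h : WData B p q t U a K1 K2 e f X X') {ξ : D}
    (h1 : stB B e (fderiv ℝ K1 a ξ) = 0) (h2 : stB B f (fderiv ℝ K2 a ξ) = 0) : ξ = 0 := by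
  obtain ⟨w, z, rfl⟩ := h.surj ξ
  have k1 : fderiv ℝ K1 a (X w + X' z) = e w := by rw [map_add, h.hX, h.hX'1, add_zero]
  have k2 : fderiv ℝ K2 a (X w + X' z) = f z := by rw [map_add, h.hX2, h.hX', zero_add]
  rw [k1, stB_eq B e _ _ fun w' => h.ee w w'] at h1
  rw [k2, stB_eq B f _ _ fun w' => h.ff z w'] at h2
  rw [h1, h2, map_zero, map_zero, add_zero]

omit [FiniteDimensional ℝ D] in
theorem WData.normal1 (h : WData B p q t U a K1 K2 e f X X') {O : Set D} (hOo : IsOpen O)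
    (haO : a ∈ O) (hOU : O ⊆ U) {tA : L} (hs : Split B t O K1 K2 tA) :
    ∃ O', IsOpen O' ∧ a ∈ O' ∧ O' ⊆ O ∧ ∀ u ∈ O',
      K1 u = al (B tA tA) (stB B e (K1 u)) • tA + rr (B tA tA) (stB B e (K1 u)) • K1 a
        + e (stB B e (K1 u)) ∧
      B tA tA * al (B tA tA) (stB B e (K1 u)) = rr (B tA tA) (stB B e (K1 u)) - 1 := by
  have hO : O ∈ 𝓝 a := hOo.mem_nhds haO
  have hF := h.frame hO hs
  have hd2 : DifferentiableAt ℝ K2 a :=
    (h.hK2.contDiffAt (h.hU.mem_nhds h.ha)).differentiableAt (by simp)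
  have hcont : ContinuousOn (fun u => 1 - B tA tA * B (K1 a) (K1 u)) O := by
    have h1 : ContinuousOn K1 O := h.hK1.continuousOn.mono hOU
    have h2 : Continuous (B (K1 a)) := LinearMap.continuous_of_finiteDimensional _
    exact (continuousOn_const.sub (continuousOn_const.mul (h2.comp_continuousOn h1)))
  refine ⟨O ∩ (fun u => 1 - B tA tA * B (K1 a) (K1 u)) ⁻¹' (Ioi 0),
    hcont.isOpen_inter_preimage hOo isOpen_Ioi, ⟨haO, ?_⟩, inter_subset_left, ?_⟩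
  · simp only [mem_preimage, mem_Ioi, h.n1 a h.ha]; norm_num
  · rintro u ⟨hu, hu2⟩
    refine hF.normal (h.n1 u (hOU hu)) (hs.orth u hu a haO) ?_ ?_ (h.t1 u (hOU hu)) ?_
    · intro z
      rw [← h.hX']
      exact deriv_zero hd2 (B (K1 u)) hO (hs.orth u hu) _
    · rw [h.symm]; exact hs.B1 u hu
    · rw [h.symm (K1 u)]; exact hu2

omit [NormedAddCommGroup D] [NormedSpace ℝ D] [FiniteDimensional ℝ D] [FiniteDimensional ℝ L] in
theorem Split.swap {O : Set D} {tA : L} (hB : ∀ v w, B v w = B w v)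
    (hs : Split B t O K1 K2 tA) : Split B t O K2 K1 (t - tA) where
  orth := fun u hu v hv => by rw [hB]; exact hs.orth v hv u hu
  A2 := hs.B1
  B1 := fun u hu => by rw [sub_sub_cancel]; exact hs.A2 u hu
  AB := by rw [sub_sub_cancel, hB]; exact hs.AB

theorem WData.exists_split (h : WData B p q t U a K1 K2 e f X X') :
    ∃ O, IsOpen O ∧ a ∈ O ∧ O ⊆ U ∧ ∃ tA, Split B t O K1 K2 tA := by
  obtain ⟨O, hOo, haO, hOU, horth⟩ := h.orth
  have hO : O ∈ 𝓝 a := hOo.mem_nhds haO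
  obtain ⟨u1, hu1, hne1⟩ := h.exists_ne hO hOU
  obtain ⟨u2, hu2, hne2⟩ := h.swap.exists_ne hO hOU
  obtain ⟨tA, a1, a2, a3, a4⟩ := exists_tA B h.symm e (K1 a) (K1 u1) t h.ee (h.n1 a h.ha) h.eK h.et
    (h.t1 a h.ha) (h.t1 u1 (hOU hu1)) hne1
  obtain ⟨tB, b1, b2, b3, b4⟩ := exists_tA B h.symm f (K2 a) (K2 u2) t h.ff (h.n2 a h.ha) h.fK h.ft
    (h.t2 a h.ha) (h.t2 u2 (hOU hu2)) hne2
  have hd1 : DifferentiableAt ℝ K1 a :=
    (h.hK1.contDiffAt (h.hU.mem_nhds h.ha)).differentiableAt (by simp)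
  have hd2 : DifferentiableAt ℝ K2 a :=
    (h.hK2.contDiffAt (h.hU.mem_nhds h.ha)).differentiableAt (by simp)
  have Kf : ∀ u ∈ O, ∀ z, B (K1 u) (f z) = 0 := fun u hu z => by
    rw [← h.hX']
    exact deriv_zero hd2 (B (K1 u)) hO (horth u hu) _
  have eK2 : ∀ v ∈ O, ∀ w, B (e w) (K2 v) = 0 := fun v hv w => by
    rw [h.symm, ← h.hX]
    refine deriv_zero hd1 (B (K2 v)) hO (fun u hu => ?_) _
    rw [h.symm]; exact horth u hu v hv
  have ef : ∀ w z, B (e w) (f z) = 0 := fun w z => by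
    rw [h.symm, ← h.hX]
    refine deriv_zero hd1 (B (f z)) hO (fun u hu => ?_) _
    rw [h.symm]; exact Kf u hu z
  have A2 : ∀ v ∈ O, B tA (K2 v) = 0 := fun v hv =>
    a4 _ (horth a haO v hv) (horth u1 hu1 v hv) (fun w => eK2 v hv w)
  have B1 : ∀ u ∈ O, B tB (K1 u) = 0 := fun u hu =>
    b4 _ (by rw [h.symm]; exact horth u hu a haO) (by rw [h.symm]; exact horth u hu u2 hu2)
      (fun w => by rw [h.symm]; exact Kf u hu w)
  have Af : ∀ z, B (f z) tA = 0 := fun z => by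
    rw [h.symm, ← h.hX']
    exact deriv_zero hd2 (B tA) hO A2 _
  have eB : ∀ w, B (e w) tB = 0 := fun w => by
    rw [h.symm, ← h.hX]
    exact deriv_zero hd1 (B tB) hO B1 _
  have BA : B tB tA = 0 := b4 _ (by rw [h.symm]; exact A2 a haO) (by rw [h.symm]; exact A2 u2 hu2)
    Af
  have AB : B tA tB = 0 := by rw [h.symm]; exact BA
  have hF : Frame B p q (tA + tB) tA (K1 a) e tB (K2 a) f (B tA tA) (B tB tB) := by
    refine ⟨h.symm, h.nondeg, inferInstance, h.dim, rfl, rfl, a1, h.n1 a h.ha, a2, h.eK, h.ee,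
      rfl, b1, h.n2 a h.ha, b2, h.fK, h.ff, AB, A2 a haO, Af, ?_, horth a haO a haO, ?_, eB,
      eK2 a haO, ef⟩
    · rw [h.symm]; exact B1 a haO
    · intro w; rw [h.symm]; exact Kf a haO w
  have htt : t - (tA + tB) = 0 := by
    apply h.nondeg
    intro y
    obtain ⟨v, rfl⟩ := hF.surj y
    rw [frameMap_apply]
    have c1 : B t (K1 a) = -1 := by rw [h.symm]; exact h.t1 a h.ha
    have c2 : B t (K2 a) = -1 := by rw [h.symm]; exact h.t2 a h.ha
    have c3 : ∀ w, B t (e w) = 0 := fun w => by rw [h.symm]; exact h.et w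
    have c4 : ∀ w, B t (f w) = 0 := fun w => by rw [h.symm]; exact h.ft w
    have c5 : B t tA = B tA tA := by rw [h.symm]; exact a3
    have c6 : B t tB = B tB tB := by rw [h.symm]; exact b3
    have c7 : ∀ w, B tA (e w) = 0 := fun w => by rw [h.symm]; exact a2 w
    have c8 : ∀ w, B tA (f w) = 0 := fun w => by rw [h.symm]; exact Af w
    have c9 : ∀ w, B tB (f w) = 0 := fun w => by rw [h.symm]; exact b2 w
    have c10 : ∀ w, B tB (e w) = 0 := fun w => by rw [h.symm]; exact eB w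
    simp only [map_add, map_sub, map_smul, LinearMap.add_apply, LinearMap.sub_apply,
      smul_eq_mul, c1, c2, c3, c4, c5, c6, c7, c8, c9, c10, a1, b1, AB, BA,
      A2 a haO, B1 a haO]
    ring
  have htB : t - tA = tB := by
    rw [sub_eq_zero] at htt
    rw [htt]; abel
  refine ⟨O, hOo, haO, hOU, tA, horth, A2, ?_, ?_⟩
  · rw [htB]; exact B1
  · rw [htB]; exact AB

end

end Pool.Agent.Y493.Dupin
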