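import Pool.Agent.Y493.Dupin.RLift

open scoped ContDiff InnerProductSpace Topology
open Set Filter

namespace Pool.Agent.Y493.Dupin

section
variable {D F : Type*} [NormedAddCommGroup D] [NormedSpace ℝ D]
  [NormedAddCommGroup F] [InnerProductSpace ℝ F]

theorem exists_orthoframe [FiniteDimensional ℝ D] (T : D →ₗ[ℝ] F) (hT : Function.Injective T)
    (S : Submodule ℝ D) :
    ∃ n : ℕ, n = Module.finrank ℝ S ∧ ∃ X : E n →ₗ[ℝ] D, (∀ w, X w ∈ S) ∧
      (∀ s ∈ S, ∃ w, X w = s) ∧ ∀ w w', ⟪T (X w), T (X w')⟫_ℝ = ⟪w, w'⟫_ℝ := by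
  let eS := Submodule.equivMapOfInjective T hT S
  let S' := S.map T
  have : FiniteDimensional ℝ S' := inferInstance
  let o := stdOrthonormalBasis ℝ S'
  refine ⟨Module.finrank ℝ S', eS.finrank_eq.symm, S.subtype ∘ₗ eS.symm.toLinearMap ∘ₗ
    o.repr.symm.toLinearEquiv.toLinearMap, fun w => ?_, fun s hs => ?_, fun w w' => ?_⟩
  · exact (eS.symm (o.repr.symm w)).2
  · refine ⟨o.repr (eS ⟨s, hs⟩), ?_⟩
    simp
  · have key : ∀ w, T (S.subtype (eS.symm (o.repr.symm w))) = (o.repr.symm w : S') := by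
      intro w
      have := Submodule.coe_equivMapOfInjective_apply T hT S (eS.symm (o.repr.symm w))
      rw [Submodule.subtype_apply, ← this]
      change ((eS (eS.symm (o.repr.symm w)) : S') : F) = _
      rw [eS.apply_symm_apply]
    have key1 : ∀ w, T ((S.subtype ∘ₗ eS.symm.toLinearMap ∘ₗ
      o.repr.symm.toLinearEquiv.toLinearMap) w) = (o.repr.symm w : S') := key
    rw [key1, key1]
    rw [← Submodule.coe_inner, LinearIsometryEquiv.inner_map_map]

theorem mem_principal {x ν : D → F} {u : D} {k : ℝ} {v : D} :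
    v ∈ principal x ν u k ↔ fderiv ℝ ν u v = -(k • fderiv ℝ x u v) := by
  rw [principal, LinearMap.mem_ker]
  change fderiv ℝ ν u v + k • fderiv ℝ x u v = 0 ↔ _
  rw [add_eq_zero_iff_eq_neg]

/-- `κ` are the principal curvature functions of a proper Dupin hypersurface. -/
structure DupinFns (g : ℕ) (U : Set D) (x ν : D → F) (κ : Fin g → D → ℝ) : Prop where
  smooth : ∀ i, ContDiffOn ℝ ∞ (κ i) U
  inj : ∀ u ∈ U, Function.Injective (fun i => κ i u)
  ne : ∀ u ∈ U, ∀ i, principal x ν u (κ i u) ≠ ⊥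
  top : ∀ u ∈ U, (⨆ i, principal x ν u (κ i u)) = ⊤
  dupin : ∀ u ∈ U, ∀ i, ∀ v ∈ principal x ν u (κ i u), fderiv ℝ (κ i) u v = 0

theorem isProperDupin_iff {g : ℕ} {U : Set D} {x ν : D → F} :
    IsProperDupin g U x ν ↔ ∃ κ, DupinFns g U x ν κ := by
  constructor
  · rintro ⟨κ, h1, h2⟩
    exact ⟨κ, h1, fun u hu => (h2 u hu).1, fun u hu => (h2 u hu).2.1, fun u hu => (h2 u hu).2.2.1,
      fun u hu => (h2 u hu).2.2.2⟩
  · rintro ⟨κ, h⟩
    exact ⟨κ, h.smooth, fun u hu => ⟨h.inj u hu, h.ne u hu, h.top u hu, h.dupin u hu⟩⟩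

theorem iSup_fin2 {α : Type*} [CompleteLattice α] (f : Fin 2 → α) : (⨆ i, f i) = f 0 ⊔ f 1 := by
  apply le_antisymm
  · apply iSup_le
    intro i
    fin_cases i
    · exact le_sup_left
    · exact le_sup_right
  · exact sup_le (le_iSup f 0) (le_iSup f 1)

theorem IsHyp.fin {U : Set D} {x ν : D → F} (h : IsHyp U x ν) : FiniteDimensional ℝ F :=
  Module.finite_of_finrank_pos (by rw [h.codim]; omega)

theorem wdata_exists [FiniteDimensional ℝ D] {U : Set D} {x ν : D → F} (h : IsHyp U x ν)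
    {κ : Fin 2 → D → ℝ} (hκ : DupinFns 2 U x ν κ) {a : D} (ha : a ∈ U) :
    ∃ (p q : ℕ) (e : E q →ₗ[ℝ] (ℝ × ℝ × F × ℝ)) (f : E p →ₗ[ℝ] (ℝ × ℝ × F × ℝ))
      (X : E q →ₗ[ℝ] D) (X' : E p →ₗ[ℝ] D),
      WData (BR F) p q (tv F) U a (KK (κ 0) x ν) (KK (κ 1) x ν) e f X X' ∧
      p = Module.finrank ℝ (principal x ν a (κ 0 a)) ∧
      q = Module.finrank ℝ (principal x ν a (κ 1 a)) ∧ p + q = Module.finrank ℝ D := by
  have hF := h.fin
  have hdx : ∀ u ∈ U, DifferentiableAt ℝ x u := fun u hu =>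
    (h.smooth.contDiffAt (h.isOpen.mem_nhds hu)).differentiableAt (by simp)
  have hdν : ∀ u ∈ U, DifferentiableAt ℝ ν u := fun u hu =>
    (h.smooth_normal.contDiffAt (h.isOpen.mem_nhds hu)).differentiableAt (by simp)
  have hdκ : ∀ i, ∀ u ∈ U, DifferentiableAt ℝ (κ i) u := fun i u hu =>
    ((hκ.smooth i).contDiffAt (h.isOpen.mem_nhds hu)).differentiableAt (by simp)
  -- derivative of the curvature sphere `i` on principal vectors
  have hder : ∀ i, ∀ u ∈ U, ∀ k, ∀ v ∈ principal x ν u k,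
      fderiv ℝ (KK (κ i) x ν) u v = (fderiv ℝ (κ i) u v) • Yv (x u)
        + (κ i u - k) • dYv (x u) (fderiv ℝ x u v) := fun i u hu k v hv =>
    KK_fderiv (hdκ i u hu) (hdx u hu) (hdν u hu) v (h.normal u hu v) (mem_principal.mp hv)
  have hker : ∀ i, ∀ u ∈ U, ∀ v ∈ principal x ν u (κ i u), fderiv ℝ (KK (κ i) x ν) u v = 0 := by
    intro i u hu v hv
    rw [hder i u hu _ v hv, hκ.dupin u hu i v hv, sub_self]
    simp
  have hne : κ 0 a ≠ κ 1 a := fun hh => by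
    have := hκ.inj a ha hh
    exact absurd this (by decide)
  set S1 := principal x ν a (κ 0 a) with hS1
  set S2 := principal x ν a (κ 1 a) with hS2
  have hsup : S1 ⊔ S2 = ⊤ := by rw [← hκ.top a ha, iSup_fin2]
  have hinf : S1 ⊓ S2 = ⊥ := by
    rw [eq_bot_iff]
    rintro v ⟨h1, h2⟩
    have h1' := mem_principal.mp h1
    have h2' := mem_principal.mp h2
    rw [h1', neg_inj] at h2'
    have h3 : (κ 0 a - κ 1 a) • fderiv ℝ x a v = 0 := by rw [sub_smul, h2', sub_self]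
    rw [smul_eq_zero] at h3
    rcases h3 with h3 | h3
    · exact absurd (sub_eq_zero.mp h3) hne
    · exact h.immersion a ha (by rw [h3, map_zero])
  obtain ⟨p, hp, X1, hX1m, hX1s, hX1i⟩ :=
    exists_orthoframe (fderiv ℝ x a : D →ₗ[ℝ] F) (h.immersion a ha) S1
  obtain ⟨q, hq, X2, hX2m, hX2s, hX2i⟩ :=
    exists_orthoframe (fderiv ℝ x a : D →ₗ[ℝ] F) (h.immersion a ha) S2
  have hpq : p + q = Module.finrank ℝ D := by
    have := Submodule.finrank_sup_add_finrank_inf_eq S1 S2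
    rw [hsup, hinf, finrank_top, finrank_bot, add_zero] at this
    rw [this, hp, hq]
  set c : ℝ := (κ 0 a - κ 1 a)⁻¹ with hc
  have hc0 : (κ 0 a - κ 1 a) * c = 1 := mul_inv_cancel₀ (sub_ne_zero.mpr hne)
  have hc1 : (κ 1 a - κ 0 a) * (-c) = 1 := by linarith
  have hcne : c ≠ 0 := inv_ne_zero (sub_ne_zero.mpr hne)
  let X : E q →ₗ[ℝ] D := c • X2
  let X' : E p →ₗ[ℝ] D := (-c) • X1
  have hXm : ∀ w, X w ∈ S2 := fun w => S2.smul_mem c (hX2m w)
  have hX'm : ∀ w, X' w ∈ S1 := fun w => S1.smul_mem (-c) (hX1m w)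
  have hXx : ∀ w, (κ 0 a - κ 1 a) • fderiv ℝ x a (X w) = fderiv ℝ x a (X2 w) := by
    intro w
    change (κ 0 a - κ 1 a) • fderiv ℝ x a (c • X2 w) = _
    rw [map_smul, smul_smul, hc0, one_smul]
  have hX'x : ∀ w, (κ 1 a - κ 0 a) • fderiv ℝ x a (X' w) = fderiv ℝ x a (X1 w) := by
    intro w
    change (κ 1 a - κ 0 a) • fderiv ℝ x a ((-c) • X1 w) = _
    rw [map_smul, smul_smul, hc1, one_smul]
  let e : E q →ₗ[ℝ] (ℝ × ℝ × F × ℝ) := (fderiv ℝ (KK (κ 0) x ν) a : D →ₗ[ℝ] _) ∘ₗ X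
  let f : E p →ₗ[ℝ] (ℝ × ℝ × F × ℝ) := (fderiv ℝ (KK (κ 1) x ν) a : D →ₗ[ℝ] _) ∘ₗ X'
  have dsm : ∀ (c : ℝ) (y y' : F), c • dYv y y' = dYv y (c • y') := by
    intro c y y'
    simp [dYv, inner_smul_right]
  have he : ∀ w, e w = (fderiv ℝ (κ 0) a (X w)) • Yv (x a) + dYv (x a) (fderiv ℝ x a (X2 w)) := by
    intro w
    change fderiv ℝ (KK (κ 0) x ν) a (X w) = _
    rw [hder 0 a ha _ _ (hXm w), dsm, hXx]
  have hf : ∀ w, f w = (fderiv ℝ (κ 1) a (X' w)) • Yv (x a) + dYv (x a) (fderiv ℝ x a (X1 w)) := by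
    intro w
    change fderiv ℝ (KK (κ 1) x ν) a (X' w) = _
    rw [hder 1 a ha _ _ (hX'm w), dsm, hX'x]
  have hYd : ∀ y y' : F, BR F (Yv y) (dYv y y') = 0 := fun y y' => by rw [BR_symm, BR_dY]
  refine ⟨p, q, e, f, X, X', ?_, hp, hq, hpq⟩
  refine ⟨BR_symm, BR_nondeg, ?_, ?_, ?_, BR_tt, h.isOpen, ha, KK_smooth (hκ.smooth 0) h.smooth
    h.smooth_normal, KK_smooth (hκ.smooth 1) h.smooth h.smooth_normal, ?_,
    fun u hu => KK_null (h.unit u hu) _, fun u hu => KK_null (h.unit u hu) _,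
    fun u hu => KK_null (h.unit u hu) _, fun u _ => KK_t _ _ _ _, fun u _ => KK_t _ _ _ _,
    ?_, ?_, ?_, ?_, ?_, ?_, fun w => rfl, fun w => hker 1 a ha _ (hXm w), fun w => rfl,
    fun w => hker 0 a ha _ (hX'm w), ?_⟩
  · simp only [Module.finrank_prod, Module.finrank_self, h.codim]
    omega
  · rw [hp]
    exact Nat.pos_of_ne_zero fun h0 => hκ.ne a ha 0 (Submodule.finrank_eq_zero.mp h0)
  · rw [hq]
    exact Nat.pos_of_ne_zero fun h0 => hκ.ne a ha 1 (Submodule.finrank_eq_zero.mp h0)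
  · intro u hu
    rw [eq_top_iff, ← hκ.top u hu, iSup_fin2]
    exact sup_le_sup (fun v hv => hker 0 u hu v hv) (fun v hv => hker 1 u hu v hv)
  · intro w w'
    rw [he, he]
    simp only [map_add, map_smul, LinearMap.add_apply, LinearMap.smul_apply, smul_eq_mul, BR_YY,
      BR_dY, hYd, BR_dd]
    rw [← hX2i]
    simp
  · intro w w'
    rw [hf, hf]
    simp only [map_add, map_smul, LinearMap.add_apply, LinearMap.smul_apply, smul_eq_mul, BR_YY,
      BR_dY, hYd, BR_dd]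
    rw [← hX1i]
    simp
  · intro w
    rw [he]
    simp only [map_add, map_smul, LinearMap.add_apply, LinearMap.smul_apply, smul_eq_mul, BR_Yt,
      BR_dt]
    ring
  · intro w
    rw [hf]
    simp only [map_add, map_smul, LinearMap.add_apply, LinearMap.smul_apply, smul_eq_mul, BR_Yt,
      BR_dt]
    ring
  · intro w
    rw [he, KK]
    simp only [map_add, map_smul, LinearMap.add_apply, LinearMap.smul_apply, smul_eq_mul, BR_YY,
      BR_dY, BR_YZ, BR_dZ _ _ _ (h.normal a ha _)]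
    ring
  · intro w
    rw [hf, KK]
    simp only [map_add, map_smul, LinearMap.add_apply, LinearMap.smul_apply, smul_eq_mul, BR_YY,
      BR_dY, BR_YZ, BR_dZ _ _ _ (h.normal a ha _)]
    ring
  · intro y
    have hy : y ∈ S1 ⊔ S2 := by rw [hsup]; trivial
    obtain ⟨y1, hy1, y2, hy2, hsum⟩ := Submodule.mem_sup.mp hy
    obtain ⟨w1, hw1⟩ := hX1s y1 hy1
    obtain ⟨w2, hw2⟩ := hX2s y2 hy2
    refine ⟨c⁻¹ • w2, (-c)⁻¹ • w1, ?_⟩
    change c • X2 (c⁻¹ • w2) + (-c) • X1 ((-c)⁻¹ • w1) = y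
    rw [map_smul, map_smul, smul_smul, smul_smul, mul_inv_cancel₀ hcne,
      mul_inv_cancel₀ (neg_ne_zero.mpr hcne), one_smul, one_smul, hw1, hw2, ← hsum, add_comm]

end

end Pool.Agent.Y493.Dupin
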